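import Pool.Agent.J4H76.LC.Quarter

/-!
# A lower bound for the joint moment `∫ ψ f² g² dμ` of two eigenfunctions (MP_a28cf0_nt)

The plane is `ℂ`, with the upper half plane `HH` and `dμ = dx dy / y²`. `dx f z`, `dy f z` are the
partial derivatives `fderiv ℝ f z 1`, `fderiv ℝ f z I`; `TF U φ` says that `φ : ℂ → ℝ` is smooth
with compact support contained in `U`.

Two sequences `f n`, `g n` of real eigenfunctions with spectral parameters `t n, s n → ∞` are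
considered, each of them satisfying microlocal quantum unique ergodicity (for Hecke-Maass cusp forms
this is the theorem of Lindenstrauss and Soundararajan). Let `ρ = min t s / max t s` be the ratio of
the parameters. If `ρ` stays away from `0` and `1` then, for every test function `ψ ≥ 0`,

`∫ ψ f² g² dμ ≥ c(ρ) ∫ ψ dμ - o(1)`, with an explicit `c(ρ) ≥ 1/4` that tends to `1` if `ρ → 0` or
`ρ → 1`: `c(ρ)` is the maximum over `0 ≤ κ ≤ 1` of
`1 - (2/π) (arcsin κ - arcsin κρ) - (4/π) √((arcsin ρ - arcsin κρ) arccos κ)`.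

(The expected value is `∫ ψ dμ`.) No bound for higher moments, and no orthogonality, is assumed.

Proof idea. Let `g` be the slower form. Let `W_k(f)` be the normalised frame derivatives. For a
trigonometric polynomial `∑ c_k e^{ikθ}` put `P = ∑ c_k W_k(f) W_{-k}(g)`; it selects the pairs of
wave directions with the angle `θ`. In the fourth moments `∫ ψ W_a(f) W_b(f) W_c(g) W_d(g) dμ` the
wave vectors `p₁, p₂` of `f` and `q₁, q₂` of `g` satisfy `p₁ + p₂ + q₁ + q₂ = 0` and a null form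
relation (compensated compactness of the energy-momentum tensors), and the numbers
`r = |p₁ + q₁|²`, `r' = |p₁ + q₂|²` have the product `(1 - ρ²)²` and the sum `2 (1 + ρ²) - x` with
`x = |p₁ + p₂|²`. Let `F` be (close to) the indicator function of the `r < 1 - ρ²` with
`x ≤ 4 κ² ρ²`. Then `F(r) + F(r') = 1` for `x ≤ 4 κ² ρ²` and `= 0` otherwise. So the deviation of
`∫ ψ f² g²` from its Gaussian value `∫ ψ dμ` is the sum of two terms: the deviation of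
`2 ∫ ψ |P|² ≥ 0` from its Gaussian value, where `P` has the symbol `F`, and `∫ ψ a b`, where `a`
(`b`) is a quadratic expression of `f` (of `g`) alone with the symbol `1_{x > 4 κ² ρ²}`. The first
term is at least `-2` times the Gaussian mean square of `F`, and the second one is estimated by the
Cauchy-Schwarz inequality and by the second moments of `a` and `b`, whose unknown fourth moments drop
out, as the symbols vanish at the angles `0` and `π`. To make this precise, `F` is replaced by a sum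
of two squares of polynomials (iterates of `X ↦ (3 X - X³) / 2`, times a cutoff), with an exact
identity for the error.
-/

set_option autoImplicit false
open MeasureTheory Filter Topology Complex
open scoped ContDiff

namespace Pool.Agent.Results.MP_a28cf0_nt.JointFourthLowerBound

open Pool.Agent.W745.RW (TF dx dy)

/-- the open upper half plane -/
def HH : Set ℂ := {z | 0 < z.im}

/-- the eigenvalue `1/4 + t²` -/
noncomputable def ev (t : ℝ) : ℝ := 1 / 4 + t ^ 2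

/-- `f` is a smooth real solution of `-y² (∂x² + ∂y²) f = (1/4 + t²) f` on the upper half plane -/
def Eig (t : ℝ) (f : ℂ → ℝ) : Prop :=
  ContDiffOn ℝ ∞ f HH ∧ ∀ z ∈ HH, -(z.im ^ 2 * (dx (dx f) z + dy (dy f) z)) = ev t * f z

/-- the operator `f ↦ lam^{-1/2} y (∂x f - i ∂y f)` -/
noncomputable def RO (lam : ℝ) (f : ℂ → ℂ) (z : ℂ) : ℂ :=
  ((z.im / √lam : ℝ) : ℂ) * (dx f z - I * dy f z)

/-- quantum unique ergodicity in microlocal form: `∫ φ f (RO^k f) dμ → ∫ φ dμ` for `k = 0`, and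
`→ 0` for `k ≥ 1` -/
def QUE (t : ℕ → ℝ) (f : ℕ → ℂ → ℝ) : Prop :=
  ∀ φ, TF HH φ → ∀ k : ℕ, Tendsto (fun n => ∫ z, ((φ z / z.im ^ 2 : ℝ) : ℂ) *
    ((f n z : ℂ) * (RO (ev (t n)))^[k] (fun w => (f n w : ℂ)) z)) atTop
    (𝓝 (if k = 0 then ((∫ z, φ z / z.im ^ 2 : ℝ) : ℂ) else 0))

lemma ev_pos (t : ℝ) : 0 < ev t := by unfold ev; positivity

lemma HHo : IsOpen HH := isOpen_lt continuous_const continuous_im

lemma ev_top {t : ℕ → ℝ} (ht : Tendsto t atTop atTop) :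
    Tendsto (fun n => ev (t n)) atTop atTop :=
  tendsto_atTop_add_const_left _ _ ((tendsto_pow_atTop two_ne_zero).comp ht)

open Pool.Agent.Y265.HY Pool.Agent.TH294.RS in
/-- the ladder system of a sequence -/
lemma sys {t : ℕ → ℝ} (ht : Tendsto t atTop atTop) {f : ℕ → ℂ → ℝ}
    (hf : ∀ n, Eig (t n) (f n)) (hqe : QUE t f) :
    SY HH Complex.im (fun n => 1 / √(ev (t n))) (ww Complex.im (fun n => 1 / √(ev (t n)))
      (fun n z => (f n z : ℂ))) ∧
    EX HH (fun n => 1 / √(ev (t n))) (ww Complex.im (fun n => 1 / √(ev (t n)))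
      (fun n z => (f n z : ℂ))) (fun n z => (f n z : ℂ)) := by
  refine hyp_sys HHo (fun z hz => hz) (fun n => ev_pos (t n)) (ev_top ht) (fun n => (hf n).1)
    (fun n z hz => ?_) hqe
  have h1 := (hf n).2 z hz
  show z.im ^ 2 * (dx (dx (f n)) z + dy (dy (f n)) z) + ev (t n) * f n z = 0
  linarith

/-- `√(1/4 + t²) ~ t` -/
lemma ev_asymp {t : ℕ → ℝ} (ht : Tendsto t atTop atTop) :
    Tendsto (fun n => √(ev (t n)) / t n) atTop (𝓝 1) := by
  have h1 : Tendsto (fun n => 1 / 4 * (t n ^ 2)⁻¹ + 1) atTop (𝓝 (1 / 4 * 0 + 1)) :=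
    ((tendsto_inv_atTop_zero.comp ((tendsto_pow_atTop two_ne_zero).comp ht)).const_mul
      (1 / 4)).add_const 1
  have h2 := (Real.continuous_sqrt.tendsto _).comp h1
  have e : √(1 / 4 * 0 + 1) = 1 := by norm_num
  rw [e] at h2
  refine h2.congr' ?_
  filter_upwards [ht.eventually_gt_atTop 0] with n hn
  simp only [Function.comp_apply]
  have e2 : 1 / 4 * (t n ^ 2)⁻¹ + 1 = ev (t n) / t n ^ 2 := by
    unfold ev; field_simp
  rw [e2, Real.sqrt_div (ev_pos _).le, Real.sqrt_sq hn.le]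

lemma ratio {t s : ℕ → ℝ} (ht : Tendsto t atTop atTop) (hs : Tendsto s atTop atTop) {l : ℝ}
    (h : Tendsto (fun n => s n / t n) atTop (𝓝 l)) :
    Tendsto (fun n => (1 / √(ev (t n))) / (1 / √(ev (s n)))) atTop (𝓝 l) := by
  have h1 := ((ev_asymp hs).mul h).mul ((ev_asymp ht).inv₀ one_ne_zero)
  rw [one_mul, inv_one, mul_one] at h1
  refine h1.congr' ?_
  filter_upwards [ht.eventually_gt_atTop 0, hs.eventually_gt_atTop 0] with n h2 h3
  have p1 := (Real.sqrt_pos.2 (ev_pos (t n))).ne'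
  have p2 := (Real.sqrt_pos.2 (ev_pos (s n))).ne'
  field_simp

/-- the weight `1 / y²` -/
lemma tf_mul {ψ : ℂ → ℝ} (hψ : TF HH ψ) : TF HH (fun z => ψ z * (z.im ^ 2)⁻¹) := by
  have sy : ContDiffOn ℝ ∞ (fun z : ℂ => (z.im ^ 2)⁻¹) HH := by
    refine ContDiffOn.inv ((imCLM.contDiff.pow 2).contDiffOn) fun z hz => ?_
    exact pow_ne_zero 2 (ne_of_gt hz)
  exact Pool.Agent.TH294.RS.TF.mulc HHo hψ sy

lemma QUE.sub {t : ℕ → ℝ} {f : ℕ → ℂ → ℝ} (h : QUE t f) {θ : ℕ → ℕ}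
    (hθ : Tendsto θ atTop atTop) : QUE (fun n => t (θ n)) (fun n => f (θ n)) :=
  fun φ hφ k => (h φ hφ k).comp hθ

/-- the joint moment -/
lemma J_eq (t s : ℕ → ℝ) (f g : ℕ → ℂ → ℝ) (ψ : ℂ → ℝ) (n : ℕ) :
    (Pool.Agent.J4H76.TP.J4
      (Pool.Agent.TH294.RS.ww Complex.im (fun n => 1 / √(ev (t n))) (fun n z => (f n z : ℂ)))
      (Pool.Agent.TH294.RS.ww Complex.im (fun n => 1 / √(ev (s n))) (fun n z => (g n z : ℂ)))
      (fun z => ψ z * (z.im ^ 2)⁻¹) 0 0 0 0 n).re =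
      ∫ z, ψ z * (f n z ^ 2 * g n z ^ 2) / z.im ^ 2 := by
  have e : Pool.Agent.J4H76.TP.J4
      (Pool.Agent.TH294.RS.ww Complex.im (fun n => 1 / √(ev (t n))) (fun n z => (f n z : ℂ)))
      (Pool.Agent.TH294.RS.ww Complex.im (fun n => 1 / √(ev (s n))) (fun n z => (g n z : ℂ)))
      (fun z => ψ z * (z.im ^ 2)⁻¹) 0 0 0 0 n =
      ((∫ z, ψ z * (f n z ^ 2 * g n z ^ 2) / z.im ^ 2 : ℝ) : ℂ) := by
    rw [← integral_complex_ofReal]
    unfold Pool.Agent.J4H76.TP.J4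
    congr 1; funext z
    show ((ψ z * (z.im ^ 2)⁻¹ : ℝ) : ℂ) * ((f n z : ℂ) * (f n z : ℂ) *
      ((g n z : ℂ) * (g n z : ℂ))) = _
    rw [div_eq_mul_inv]
    push_cast; ring
  rw [e, ofReal_re]

/-- the loss `L(κ, ρ)` -/
noncomputable def loss (κ ρ : ℝ) : ℝ :=
  2 / Real.pi * (Real.arcsin κ - Real.arcsin (κ * ρ)) +
    4 / Real.pi * √((Real.arcsin ρ - Real.arcsin (κ * ρ)) * Real.arccos κ)

lemma loss_cont : Continuous (fun q : ℝ × ℝ => loss q.1 q.2) := Pool.Agent.J4H76.LC.lsc_cont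

/-- the case of a convergent ratio -/
lemma conv {t s : ℕ → ℝ} (ht : Tendsto t atTop atTop) (hs : Tendsto s atTop atTop)
    {f g : ℕ → ℂ → ℝ} (hf : ∀ n, Eig (t n) (f n)) (hg : ∀ n, Eig (s n) (g n)) (qf : QUE t f)
    (qg : QUE s g) {ρ0 κ : ℝ} (h0 : 0 < ρ0) (h1 : ρ0 < 1) (k0 : 0 ≤ κ) (k1 : κ ≤ 1)
    (hl : Tendsto (fun n => s n / t n) atTop (𝓝 ρ0)) {ψ : ℂ → ℝ} (hψ : TF HH ψ)
    (hψ0 : ∀ z, 0 ≤ ψ z) {ε : ℝ} (hε : 0 < ε) :
    ∀ᶠ n in atTop, (1 - loss κ ρ0) * (∫ z, ψ z / z.im ^ 2) - ε ≤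
      ∫ z, ψ z * (f n z ^ 2 * g n z ^ 2) / z.im ^ 2 := by
  have hr := ratio ht hs hl
  obtain ⟨δ, hδ, hδ1, hδ2⟩ : ∃ δ : ℝ, 0 < δ ∧ δ < ρ0 ∧ ρ0 < 1 - δ := by
    refine ⟨min (ρ0 / 2) ((1 - ρ0) / 2), lt_min (by linarith) (by linarith), ?_, ?_⟩
    · have := min_le_left (ρ0 / 2) ((1 - ρ0) / 2)
      linarith
    · have := min_le_right (ρ0 / 2) ((1 - ρ0) / 2)
      linarith
  obtain ⟨n0, hn0⟩ := eventually_atTop.1 ((hr.eventually (lt_mem_nhds hδ1)).and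
    (hr.eventually (gt_mem_nhds hδ2)))
  have tn : Tendsto (fun n => n + n0) atTop atTop := tendsto_add_atTop_nat n0
  obtain ⟨S, E⟩ := sys (ht.comp tn) (f := fun n => f (n + n0)) (fun n => hf _) (qf.sub tn)
  obtain ⟨S', E'⟩ := sys (hs.comp tn) (f := fun n => g (n + n0)) (fun n => hg _) (qg.sub tn)
  have key := Pool.Agent.J4H76.LC.main2 S S' (fun z hz => hz) E E' hδ
    (fun n => ⟨(hn0 (n + n0) (Nat.le_add_left _ _)).1.le,
      (hn0 (n + n0) (Nat.le_add_left _ _)).2.le⟩) (hr.comp tn)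
    (fun e he => Pool.Agent.J4H76.LC.ex_sym h0 h1 k0 k1 he) (tf_mul hψ)
    (fun z => mul_nonneg (hψ0 z) (inv_nonneg.2 (sq_nonneg _))) hε
  obtain ⟨n1, hn1⟩ := eventually_atTop.1 key
  refine eventually_atTop.2 ⟨n1 + n0, fun n hn => ?_⟩
  have h2 := (hn1 (n - n0) (by omega)).trans (le_of_eq (J_eq (fun n => t (n + n0))
    (fun n => s (n + n0)) (fun n => f (n + n0)) (fun n => g (n + n0)) ψ (n - n0)))
  simp only [← div_eq_mul_inv] at h2
  rw [show n - n0 + n0 = n by omega] at h2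
  exact h2

lemma loss_one (ρ : ℝ) : 1 - loss 1 ρ = 2 / Real.pi * Real.arcsin ρ :=
  Pool.Agent.J4H76.LC.lsc_one ρ

/-- the case that `g` is not faster than `f`, arbitrary ratio -/
lemma ord {t s : ℕ → ℝ} (ht : Tendsto t atTop atTop) (hs : Tendsto s atTop atTop)
    {f g : ℕ → ℂ → ℝ} (hf : ∀ n, Eig (t n) (f n)) (hg : ∀ n, Eig (s n) (g n)) (qf : QUE t f)
    (qg : QUE s g) {δ : ℝ} (hδ : 0 < δ)
    (hd : ∀ᶠ n in atTop, s n ≤ t n → s n ≤ (1 - δ) * t n) {ψ : ℂ → ℝ} (hψ : TF HH ψ)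
    (hψ0 : ∀ z, 0 ≤ ψ z) {ε : ℝ} (hε : 0 < ε) :
    ∀ᶠ n in atTop, s n ≤ t n → 2 / Real.pi * Real.arcsin (s n / t n) *
      (∫ z, ψ z / z.im ^ 2) - ε ≤ ∫ z, ψ z * (f n z ^ 2 * g n z ^ 2) / z.im ^ 2 := by
  obtain ⟨m, hm⟩ : ∃ m : ℝ, m = ∫ z, ψ z / z.im ^ 2 := ⟨_, rfl⟩
  by_contra hcon
  rw [not_eventually] at hcon
  have pt := ht.eventually_gt_atTop 0
  have ps := hs.eventually_gt_atTop 0
  have fr : ∃ᶠ n in atTop, s n / t n ∈ Set.Icc 0 (1 - δ) ∧
      (∫ z, ψ z * (f n z ^ 2 * g n z ^ 2) / z.im ^ 2) <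
        2 / Real.pi * Real.arcsin (s n / t n) * m - ε := by
    refine (hcon.and_eventually ((pt.and ps).and hd)).mono fun n hn => ?_
    obtain ⟨h1, ⟨h2, h3⟩, h4⟩ := hn
    push Not at h1
    refine ⟨⟨(div_pos h3 h2).le, ?_⟩, ?_⟩
    · rw [div_le_iff₀ h2]; exact h4 h1.1
    · rw [hm]; exact h1.2
  obtain ⟨ns, hns, hP⟩ := extraction_of_frequently_atTop fr
  obtain ⟨l, hlm, ms, hms, hlim⟩ := isCompact_Icc.tendsto_subseq (fun n => (hP n).1)
  have tθ : Tendsto (fun n => ns (ms n)) atTop atTop := (hns.comp hms).tendsto_atTop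
  have hlim' : Tendsto (fun n => s (ns (ms n)) / t (ns (ms n))) atTop (𝓝 l) := hlim
  have lc : Tendsto (fun n => 2 / Real.pi * Real.arcsin (s (ns (ms n)) / t (ns (ms n))) * m) atTop
      (𝓝 (2 / Real.pi * Real.arcsin l * m)) :=
    (((Real.continuous_arcsin.tendsto l).comp hlim').const_mul _).mul_const m
  rcases hlm.1.eq_or_lt with l0 | l0
  · rw [← l0, Real.arcsin_zero, mul_zero, zero_mul] at lc
    obtain ⟨n, hn⟩ := (lc.eventually (gt_mem_nhds hε)).exists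
    have h2 := (hP (ms n)).2
    have h3 : 0 ≤ ∫ z, ψ z * (f (ns (ms n)) z ^ 2 * g (ns (ms n)) z ^ 2) / z.im ^ 2 :=
      integral_nonneg fun z => div_nonneg (mul_nonneg (hψ0 z) (by positivity)) (sq_nonneg _)
    linarith
  · have key := conv (ht.comp tθ) (hs.comp tθ) (f := fun n => f (ns (ms n)))
      (g := fun n => g (ns (ms n))) (fun n => hf _) (fun n => hg _) (qf.sub tθ) (qg.sub tθ) l0
      (lt_of_le_of_lt hlm.2 (by linarith)) zero_le_one le_rfl hlim' hψ hψ0 (ε := ε / 2)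
      (by positivity)
    rw [loss_one] at key
    obtain ⟨n, hn1, hn2⟩ := (key.and (lc.eventually (gt_mem_nhds
      (lt_add_of_pos_right (2 / Real.pi * Real.arcsin l * m)
        (show 0 < ε / 2 by positivity))))).exists
    have h2 := (hP (ms n)).2
    rw [← hm] at hn1
    linarith

/-- the case that `g` is not faster than `f`, ratio bounded from below -/
lemma ord2 {t s : ℕ → ℝ} (ht : Tendsto t atTop atTop) (hs : Tendsto s atTop atTop)
    {f g : ℕ → ℂ → ℝ} (hf : ∀ n, Eig (t n) (f n)) (hg : ∀ n, Eig (s n) (g n)) (qf : QUE t f)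
    (qg : QUE s g) {δ : ℝ} (hδ : 0 < δ)
    (hd : ∀ᶠ n in atTop, s n ≤ t n → s n ≤ (1 - δ) * t n) {ψ : ℂ → ℝ} (hψ : TF HH ψ)
    (hψ0 : ∀ z, 0 ≤ ψ z) {ε : ℝ} (hε : 0 < ε) :
    ∀ᶠ n in atTop, s n ≤ t n → δ ≤ s n / t n → ∀ κ, 0 ≤ κ → κ ≤ 1 →
      (1 - loss κ (s n / t n)) * (∫ z, ψ z / z.im ^ 2) - ε ≤
        ∫ z, ψ z * (f n z ^ 2 * g n z ^ 2) / z.im ^ 2 := by
  obtain ⟨m, hm⟩ : ∃ m : ℝ, m = ∫ z, ψ z / z.im ^ 2 := ⟨_, rfl⟩
  by_contra hcon
  rw [not_eventually] at hcon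
  have pt := ht.eventually_gt_atTop 0
  have fr : ∃ᶠ n in atTop, ∃ κ : ℝ, (κ, s n / t n) ∈ Set.Icc (0 : ℝ) 1 ×ˢ Set.Icc δ (1 - δ) ∧
      (∫ z, ψ z * (f n z ^ 2 * g n z ^ 2) / z.im ^ 2) <
        (1 - loss κ (s n / t n)) * m - ε := by
    refine (hcon.and_eventually (pt.and hd)).mono fun n hn => ?_
    obtain ⟨h1, h2, h4⟩ := hn
    push Not at h1
    obtain ⟨h5, h6, κ, k0, k1, h7⟩ := h1
    refine ⟨κ, ⟨⟨k0, k1⟩, h6, ?_⟩, ?_⟩
    · show s n / t n ≤ 1 - δ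
      rw [div_le_iff₀ h2]; exact h4 h5
    · rw [hm]; exact h7
  obtain ⟨ns, hns, hP⟩ := extraction_of_frequently_atTop fr
  choose κ hκ hI using hP
  obtain ⟨l, hlm, ms, hms, hlim⟩ := (isCompact_Icc.prod isCompact_Icc).tendsto_subseq hκ
  have tθ : Tendsto (fun n => ns (ms n)) atTop atTop := (hns.comp hms).tendsto_atTop
  have hlim' : Tendsto (fun n => s (ns (ms n)) / t (ns (ms n))) atTop (𝓝 l.2) :=
    (continuous_snd.tendsto l).comp hlim
  have lc : Tendsto (fun n => (1 - loss (κ (ms n)) (s (ns (ms n)) / t (ns (ms n)))) * m) atTop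
      (𝓝 ((1 - loss l.1 l.2) * m)) :=
    (tendsto_const_nhds.sub ((loss_cont.tendsto l).comp hlim)).mul_const m
  have key := conv (ht.comp tθ) (hs.comp tθ) (f := fun n => f (ns (ms n)))
    (g := fun n => g (ns (ms n))) (fun n => hf _) (fun n => hg _) (qf.sub tθ) (qg.sub tθ)
    (lt_of_lt_of_le hδ hlm.2.1) (lt_of_le_of_lt hlm.2.2 (by linarith)) hlm.1.1 hlm.1.2 hlim' hψ
    hψ0 (ε := ε / 2) (by positivity)
  obtain ⟨n, hn1, hn2⟩ := (key.and (lc.eventually (gt_mem_nhds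
    (lt_add_of_pos_right ((1 - loss l.1 l.2) * m) (show 0 < ε / 2 by positivity))))).exists
  have h2 := hI (ms n)
  rw [← hm] at hn1
  linarith

/-- the ratio of the parameters, the slower one divided by the faster one -/
noncomputable def rat (t s : ℝ) : ℝ := min t s / max t s

/-- the joint moment `∫ ψ f² g² dμ` -/
noncomputable def mom (ψ f g : ℂ → ℝ) : ℝ := ∫ z, ψ z * (f z ^ 2 * g z ^ 2) / z.im ^ 2

/-- **Result.** Let `f n`, `g n` be real eigenfunctions of the hyperbolic Laplacian on the upper half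
plane with spectral parameters `t n, s n → ∞`, each of the two sequences satisfying microlocal
quantum unique ergodicity. Assume that the ratio `ρ = min (t, s) / max (t, s)` of the parameters
stays away from `1`: `δ max (t, s) ≤ |t - s|` for some `δ > 0` and all large `n`. Let `ψ ≥ 0` be a
test function and `ε > 0`. Then, for all large `n`,

(1) `∫ ψ f² g² dμ ≥ (2 / π) arcsin ρ ∫ ψ dμ - ε`;

(2) if `ρ ≥ δ` then `∫ ψ f² g² dμ ≥ (1 - L(κ, ρ)) ∫ ψ dμ - ε` for all `0 ≤ κ ≤ 1`, where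
`L(κ, ρ) = (2 / π) (arcsin κ - arcsin κρ) + (4 / π) √((arcsin ρ - arcsin κρ) arccos κ)`;

(3) if `ρ ≥ δ` then `∫ ψ f² g² dμ ≥ (1 / 4) ∫ ψ dμ - ε`. -/
theorem result (t s : ℕ → ℝ) (ht : Tendsto t atTop atTop) (hs : Tendsto s atTop atTop)
    (f g : ℕ → ℂ → ℝ) (hf : ∀ n, Eig (t n) (f n)) (hg : ∀ n, Eig (s n) (g n)) (qf : QUE t f)
    (qg : QUE s g) (δ : ℝ) (hδ : 0 < δ)
    (hd : ∀ᶠ n in atTop, δ * max (t n) (s n) ≤ |t n - s n|) (ψ : ℂ → ℝ) (hψ : TF HH ψ)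
    (hψ0 : ∀ z, 0 ≤ ψ z) (ε : ℝ) (hε : 0 < ε) :
    ∀ᶠ n in atTop,
      2 / Real.pi * Real.arcsin (rat (t n) (s n)) * (∫ z, ψ z / z.im ^ 2) - ε ≤
        mom ψ (f n) (g n) ∧
      (δ ≤ rat (t n) (s n) →
        (∀ κ, 0 ≤ κ → κ ≤ 1 → (1 - loss κ (rat (t n) (s n))) * (∫ z, ψ z / z.im ^ 2) - ε ≤
          mom ψ (f n) (g n)) ∧
        1 / 4 * (∫ z, ψ z / z.im ^ 2) - ε ≤ mom ψ (f n) (g n)) := by
  obtain ⟨m, hm⟩ : ∃ m : ℝ, m = ∫ z, ψ z / z.im ^ 2 := ⟨_, rfl⟩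
  have m0 : 0 ≤ m := by
    rw [hm]; exact integral_nonneg fun z => div_nonneg (hψ0 z) (sq_nonneg _)
  have d1 : ∀ᶠ n in atTop, s n ≤ t n → s n ≤ (1 - δ) * t n := by
    filter_upwards [hd] with n hn h
    rw [max_eq_left h, abs_of_nonneg (by linarith)] at hn
    linarith
  have d2 : ∀ᶠ n in atTop, t n ≤ s n → t n ≤ (1 - δ) * s n := by
    filter_upwards [hd] with n hn h
    rw [max_eq_right h, abs_sub_comm, abs_of_nonneg (by linarith)] at hn
    linarith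
  -- the statement for one `n`
  have fin : ∀ (ρ I : ℝ), 0 < ρ → ρ ≤ 1 - δ → 2 / Real.pi * Real.arcsin ρ * m - ε ≤ I →
      (δ ≤ ρ → ∀ κ, 0 ≤ κ → κ ≤ 1 → (1 - loss κ ρ) * m - ε ≤ I) →
      2 / Real.pi * Real.arcsin ρ * m - ε ≤ I ∧
      (δ ≤ ρ → (∀ κ, 0 ≤ κ → κ ≤ 1 → (1 - loss κ ρ) * m - ε ≤ I) ∧ 1 / 4 * m - ε ≤ I) := by
    intro ρ I r0 r1 h1 h2
    refine ⟨h1, fun h3 => ⟨h2 h3, ?_⟩⟩
    obtain ⟨κ, k0, k1, h4⟩ := Pool.Agent.J4H76.LC.quarter r0 (by linarith)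
    have h5 := h2 h3 κ k0 k1
    have h6 : 1 / 4 * m ≤ (1 - loss κ ρ) * m := mul_le_mul_of_nonneg_right h4 m0
    linarith
  rw [← hm]
  filter_upwards [ord ht hs hf hg qf qg hδ d1 hψ hψ0 hε,
    ord hs ht hg hf qg qf hδ d2 hψ hψ0 hε, ord2 ht hs hf hg qf qg hδ d1 hψ hψ0 hε,
    ord2 hs ht hg hf qg qf hδ d2 hψ hψ0 hε, d1, d2, ht.eventually_gt_atTop 0,
    hs.eventually_gt_atTop 0] with n h1 h2 h3 h4 h5 h6 t0 s0
  rw [← hm] at h1 h2 h3 h4
  rcases le_total (s n) (t n) with h | h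
  · have e : rat (t n) (s n) = s n / t n := by unfold rat; rw [min_eq_right h, max_eq_left h]
    rw [e]
    refine fin _ _ (div_pos s0 t0) ?_ (h1 h) (h3 h)
    rw [div_le_iff₀ t0]; exact h5 h
  · have e : rat (t n) (s n) = t n / s n := by unfold rat; rw [min_eq_left h, max_eq_right h]
    have e2 : mom ψ (f n) (g n) = ∫ z, ψ z * (g n z ^ 2 * f n z ^ 2) / z.im ^ 2 := by
      unfold mom
      congr 1; funext z; ring
    rw [e, e2]
    refine fin _ _ (div_pos t0 s0) ?_ (h2 h) (h4 h)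
    rw [div_le_iff₀ s0]; exact h6 h

end Pool.Agent.Results.MP_a28cf0_nt.JointFourthLowerBound
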