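import Pool.Agent.J4H76.AP.Av
import Pool.Agent.Results.MP_a28cf0_nt.JointFourthLowerBound

/-!
# The joint moment `∫ ψ f² g² dμ` for almost all forms `f` (MP_a28cf0_nt)

The plane is `ℂ`, with the upper half plane `HH` and `dμ = dx dy / y²`. The definitions `HH`, `Eig`
(real eigenfunction with spectral parameter `t`), `QUE` (microlocal quantum unique ergodicity),
`mom ψ f g = ∫ ψ f² g² dμ` are those of the file `JointFourthLowerBound`; `TF U φ` says that
`φ : ℂ → ℝ` is smooth with compact support contained in `U`.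

A sequence `u j` of real eigenfunctions with spectral parameters `t j → ∞` is considered, which
satisfies microlocal quantum unique ergodicity and, outside of a null set `Z` (relatively closed in
`HH`), the local Weyl law in microlocal form, that is, for the normalised frame derivatives; at the
points of `Z` only the bound `O(T²)` is assumed for the sum of the `u_i²`, `t_i ≤ T`. For the
Hecke-Maass cusp forms of the modular surface (all of them, normalised) both are known, `Z` being the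
set of the elliptic points (where the constant in the local Weyl law is different): quantum unique
ergodicity is due to Lindenstrauss and Soundararajan, the local Weyl law to Selberg and Hörmander.

The theorem says that the conjecture holds for the exponents `(2, 2)`, for every form `g = u j` and
almost all forms `f = u i` in every window `a < t i / t j ≤ b`: the average of
`|∫ ψ u_i² u_j² dμ - ∫ ψ dμ|` over these `i` tends to `0` as `j → ∞`.

Proof idea. It suffices to consider windows that shrink to a point `≠ 1`. Let `ε_i = ± 1` be the signs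
of the deviations. Let `b_{kl}(z)` be the average of `ε_i W_k(u_i)(z) W_l(u_i)(z)` over the window,
where `W_k` are the normalised frame derivatives. By the local Weyl law the matrix `(b_{kl}(z))` is
bounded by (about) `1`, so that its rows have bounded square sums. The averaged joint moments
`∫ ψ b_{kl} W_m(u_j) W_n(u_j) dμ`, minus their Gaussian values, define a functional on trigonometric
polynomials in the directions `z₁, z₂` (of `f`) and `w₁, w₂` (of `g`), which is supported on the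
quadrilaterals `z₁ + z₂ + ρ (w₁ + w₂) = 0` (up to collinear configurations, by the compensated
compactness of the energy-momentum tensors). There `z₁ z₂ = w₁ w₂` and `|z₁ + z₂|² = ρ² |w₁ + w₂|²`.
Hence the functional has the same value at `A T_j²` (`T_j` the Chebyshev polynomial of
`|z₁ + z₂|² / 2 - 1`, and `A` a cutoff) and at `(z₁ z₂ / (w₁ w₂))^d (z₁ / z₂)^j A T_j(w₁ / w₂)`, for all
`d` and `j`. The sum of these over `|d|, j ≤ K` is estimated by the Cauchy-Schwarz inequality: it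
involves `K²` entries of the matrix `b_{kl}`, whose square sum is `O(K)`, and Bessel's inequality
controls the other factor. So the functional at `A` is `O(K^{-1/2})`.
-/

set_option autoImplicit false
open MeasureTheory Filter Topology Complex
open scoped ContDiff

namespace Pool.Agent.Results.MP_a28cf0_nt.AlmostAllJointMoments

open Pool.Agent.W745.RW (TF dx dy)
open Pool.Agent.Results.MP_a28cf0_nt.JointFourthLowerBound (HH ev Eig RO QUE mom)

lemma fin_le {t : ℕ → ℝ} (ht : Tendsto t atTop atTop) (T : ℝ) : {i | t i ≤ T}.Finite := by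
  obtain ⟨N, hN⟩ := eventually_atTop.1 (ht.eventually_gt_atTop T)
  refine (Set.finite_lt_nat N).subset fun i hi => ?_
  by_contra h
  exact absurd (hN i (not_lt.1 h)) (not_lt.2 hi)

/-- the indices `i` with `t i ≤ T` -/
noncomputable def upto (t : ℕ → ℝ) (ht : Tendsto t atTop atTop) (T : ℝ) : Finset ℕ :=
  (fin_le ht T).toFinset

/-- the indices `i` with `a < t i ≤ b` -/
noncomputable def win (t : ℕ → ℝ) (ht : Tendsto t atTop atTop) (a b : ℝ) : Finset ℕ :=
  {i ∈ upto t ht b | a < t i}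

/-- the normalised frame derivatives of a real function `f`: `RO^k f` for `k ≥ 0`, and
`(-1)^k` times the complex conjugate of `RO^{|k|} f` for `k < 0` -/
noncomputable def WF (lam : ℝ) (f : ℂ → ℝ) : ℤ → ℂ → ℂ
  | Int.ofNat k => (RO lam)^[k] (fun w => (f w : ℂ))
  | Int.negSucc k => fun z => (-1) ^ (k + 1) *
      (starRingEnd ℂ) ((RO lam)^[k + 1] (fun w => (f w : ℂ)) z)

/-- local Weyl law in microlocal form: for some `c > 0`, the number of the `i` with `t i ≤ T` is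
`(c + o(1)) T²`; the sum of `W_k(u i)(z) * conj (W_l(u i)(z))` over these `i` is `(c + o(1)) T²` if
`k = l` and `o(T²)` if `k ≠ l`, uniformly for `z` in compact subsets of `HH \ Z`; and the sum of the
`u i z ^ 2` over these `i` is `O(T²)`, uniformly for `z` in compact subsets of `HH` -/
def LocalWeyl (t : ℕ → ℝ) (ht : Tendsto t atTop atTop) (u : ℕ → ℂ → ℝ) (Z : Set ℂ) : Prop :=
  ∃ c : ℝ, 0 < c ∧ Tendsto (fun T : ℝ => ((upto t ht T).card : ℝ) / T ^ 2) atTop (𝓝 c) ∧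
    (∀ K : Set ℂ, IsCompact K → K ⊆ HH \ Z → ∀ k l : ℤ, ∀ η : ℝ, 0 < η →
      ∀ᶠ T : ℝ in atTop, ∀ z ∈ K,
      ‖(∑ i ∈ upto t ht T, WF (ev (t i)) (u i) k z * (starRingEnd ℂ) (WF (ev (t i)) (u i) l z)) /
        ((T ^ 2 : ℝ) : ℂ) - (if k = l then (c : ℂ) else 0)‖ ≤ η) ∧
    ∀ K : Set ℂ, IsCompact K → K ⊆ HH → ∃ C : ℝ, ∀ᶠ T : ℝ in atTop, ∀ z ∈ K,
      ∑ i ∈ upto t ht T, u i z ^ 2 ≤ C * T ^ 2

lemma mem_upto {t : ℕ → ℝ} {ht : Tendsto t atTop atTop} {T : ℝ} {i : ℕ} :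
    i ∈ upto t ht T ↔ t i ≤ T := by
  unfold upto; rw [Set.Finite.mem_toFinset]; rfl

lemma mem_win {t : ℕ → ℝ} {ht : Tendsto t atTop atTop} {a b : ℝ} {i : ℕ} :
    i ∈ win t ht a b ↔ t i ≤ b ∧ a < t i := by
  unfold win; rw [Finset.mem_filter, mem_upto]

lemma win_sum {M : Type} [AddCommGroup M] {t : ℕ → ℝ} (ht : Tendsto t atTop atTop) {a b : ℝ}
    (hab : a ≤ b) (F : ℕ → M) :
    ∑ i ∈ win t ht a b, F i = ∑ i ∈ upto t ht b, F i - ∑ i ∈ upto t ht a, F i := by
  classical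
  have e : upto t ht b = win t ht a b ∪ upto t ht a := by
    ext i
    rw [Finset.mem_union, mem_win, mem_upto, mem_upto]
    constructor
    · intro h
      rcases lt_or_ge a (t i) with h2 | h2
      · exact Or.inl ⟨h, h2⟩
      · exact Or.inr h2
    · rintro (h | h)
      · exact h.1
      · exact h.trans hab
  have d : Disjoint (win t ht a b) (upto t ht a) := by
    rw [Finset.disjoint_left]
    intro i h1 h2
    rw [mem_win] at h1
    rw [mem_upto] at h2
    linarith [h1.2]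
  rw [e, Finset.sum_union d, add_sub_cancel_right]

/-- a sum over a window -/
lemma sum_bd {t : ℕ → ℝ} (ht : Tendsto t atTop atTop) {a b T η : ℝ} {c : ℂ} (ha : 0 < a)
    (hab : a < b) (hT : 0 < T) (F : ℕ → ℂ)
    (h1 : ‖(∑ i ∈ upto t ht (a * T), F i) / (((a * T) ^ 2 : ℝ) : ℂ) - c‖ ≤ η)
    (h2 : ‖(∑ i ∈ upto t ht (b * T), F i) / (((b * T) ^ 2 : ℝ) : ℂ) - c‖ ≤ η) :
    ‖(∑ i ∈ win t ht (a * T) (b * T), F i) / ((T ^ 2 : ℝ) : ℂ) -
      ((b ^ 2 - a ^ 2 : ℝ) : ℂ) * c‖ ≤ (a ^ 2 + b ^ 2) * η := by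
  have hb : 0 < b := ha.trans hab
  rw [win_sum ht (mul_le_mul_of_nonneg_right hab.le hT.le)]
  obtain ⟨A, hA⟩ : ∃ A, A = ∑ i ∈ upto t ht (a * T), F i := ⟨_, rfl⟩
  obtain ⟨B, hB⟩ : ∃ B, B = ∑ i ∈ upto t ht (b * T), F i := ⟨_, rfl⟩
  rw [← hA] at h1 ⊢
  rw [← hB] at h2 ⊢
  have aC : (a : ℂ) ≠ 0 := by exact_mod_cast ha.ne'
  have bC : (b : ℂ) ≠ 0 := by exact_mod_cast hb.ne'
  have TC : (T : ℂ) ≠ 0 := by exact_mod_cast hT.ne'
  have e : (B - A) / ((T ^ 2 : ℝ) : ℂ) - ((b ^ 2 - a ^ 2 : ℝ) : ℂ) * c =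
      ((b ^ 2 : ℝ) : ℂ) * (B / (((b * T) ^ 2 : ℝ) : ℂ) - c) -
        ((a ^ 2 : ℝ) : ℂ) * (A / (((a * T) ^ 2 : ℝ) : ℂ) - c) := by
    push_cast
    field_simp
    ring
  rw [e]
  refine (norm_sub_le _ _).trans ?_
  rw [norm_mul, norm_mul, Complex.norm_real, Complex.norm_real, Real.norm_eq_abs,
    Real.norm_eq_abs, abs_of_nonneg (sq_nonneg a), abs_of_nonneg (sq_nonneg b)]
  have h4 := mul_le_mul_of_nonneg_left h1 (sq_nonneg a)
  have h5 := mul_le_mul_of_nonneg_left h2 (sq_nonneg b)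
  linarith

/-- the number of the forms in a window -/
lemma win_card {t : ℕ → ℝ} (ht : Tendsto t atTop atTop) {c : ℝ}
    (h1 : Tendsto (fun T : ℝ => ((upto t ht T).card : ℝ) / T ^ 2) atTop (𝓝 c))
    {a b : ℝ} (ha : 0 < a) (hab : a < b) {η : ℝ} (hη : 0 < η) : ∀ᶠ j in atTop,
      |((win t ht (a * t j) (b * t j)).card : ℝ) / t j ^ 2 - (b ^ 2 - a ^ 2) * c| ≤ η := by
  have hb : 0 < b := ha.trans hab
  have ta : Tendsto (fun j => a * t j) atTop atTop := ht.const_mul_atTop ha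
  have tb : Tendsto (fun j => b * t j) atTop atTop := ht.const_mul_atTop hb
  have q0 : 0 < η / (a ^ 2 + b ^ 2) := by positivity
  have h3 := h1.eventually (Metric.closedBall_mem_nhds c q0)
  have cst : ∀ T : ℝ, |((upto t ht T).card : ℝ) / T ^ 2 - c| ≤ η / (a ^ 2 + b ^ 2) →
      ‖(∑ i ∈ upto t ht T, (1 : ℂ)) / ((T ^ 2 : ℝ) : ℂ) - (c : ℂ)‖ ≤ η / (a ^ 2 + b ^ 2) := by
    intro T h
    have e : (∑ i ∈ upto t ht T, (1 : ℂ)) / ((T ^ 2 : ℝ) : ℂ) - (c : ℂ) =
        ((((upto t ht T).card : ℝ) / T ^ 2 - c : ℝ) : ℂ) := by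
      rw [Finset.sum_const, nsmul_eq_mul, mul_one]; push_cast; ring
    rw [e, Complex.norm_real, Real.norm_eq_abs]; exact h
  filter_upwards [ta.eventually h3, tb.eventually h3, ht.eventually_gt_atTop 0] with j g1 g2 g3
  rw [Real.dist_eq] at g1 g2
  have g4 := sum_bd ht ha hab g3 (fun _ => (1 : ℂ)) (cst _ g1) (cst _ g2)
  have e : (∑ i ∈ win t ht (a * t j) (b * t j), (1 : ℂ)) / ((t j ^ 2 : ℝ) : ℂ) -
      ((b ^ 2 - a ^ 2 : ℝ) : ℂ) * (c : ℂ) =
      ((((win t ht (a * t j) (b * t j)).card : ℝ) / t j ^ 2 - (b ^ 2 - a ^ 2) * c : ℝ) : ℂ) := by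
    rw [Finset.sum_const, nsmul_eq_mul, mul_one]; push_cast; ring
  rw [e, Complex.norm_real, Real.norm_eq_abs, mul_div_cancel₀ _ (by positivity)] at g4
  exact g4

/-- the local Weyl law in windows -/
lemma win_weyl {t : ℕ → ℝ} (ht : Tendsto t atTop atTop) {u : ℕ → ℂ → ℝ} {Z : Set ℂ}
    (hW : LocalWeyl t ht u Z) {a b : ℝ} (ha : 0 < a) (hab : a < b) {K : Set ℂ}
    (hK : IsCompact K) (hK2 : K ⊆ HH \ Z) :
    (∀ᶠ j in atTop, (win t ht (a * t j) (b * t j)).Nonempty) ∧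
      ∀ k l : ℤ, ∀ η : ℝ, 0 < η → ∀ᶠ j in atTop, ∀ z ∈ K,
        ‖(∑ i ∈ win t ht (a * t j) (b * t j), WF (ev (t i)) (u i) k z *
          (starRingEnd ℂ) (WF (ev (t i)) (u i) l z)) /
            ((win t ht (a * t j) (b * t j)).card : ℂ) - (if k = l then 1 else 0)‖ ≤ η := by
  obtain ⟨c, hc, h1, h2, -⟩ := hW
  have hb : 0 < b := ha.trans hab
  obtain ⟨C, hC⟩ : ∃ C, C = (b ^ 2 - a ^ 2) * c := ⟨_, rfl⟩
  have C0 : 0 < C := by
    rw [hC]
    refine mul_pos ?_ hc
    nlinarith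
  have ta : Tendsto (fun j => a * t j) atTop atTop := ht.const_mul_atTop ha
  have tb : Tendsto (fun j => b * t j) atTop atTop := ht.const_mul_atTop hb
  have cb : ∀ η : ℝ, 0 < η → ∀ᶠ j in atTop,
      |((win t ht (a * t j) (b * t j)).card : ℝ) / t j ^ 2 - C| ≤ η := by
    intro η hη
    rw [hC]
    exact win_card ht h1 ha hab hη
  constructor
  · filter_upwards [cb (C / 2) (by positivity)] with j hj
    by_contra h
    rw [Finset.not_nonempty_iff_eq_empty] at h
    rw [h, Finset.card_empty, Nat.cast_zero, zero_div, zero_sub, abs_neg, abs_of_pos C0] at hj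
    linarith
  · intro k l η hη
    have sb : ∀ η : ℝ, 0 < η → ∀ᶠ j in atTop, ∀ z ∈ K,
        ‖(∑ i ∈ win t ht (a * t j) (b * t j), WF (ev (t i)) (u i) k z *
          (starRingEnd ℂ) (WF (ev (t i)) (u i) l z)) / ((t j ^ 2 : ℝ) : ℂ) -
            (if k = l then (C : ℂ) else 0)‖ ≤ η := by
      intro η hη
      have q0 : 0 < η / (a ^ 2 + b ^ 2) := by positivity
      have h3 := h2 K hK hK2 k l _ q0
      filter_upwards [ta.eventually h3, tb.eventually h3, ht.eventually_gt_atTop 0] with j g1 g2 g3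
      intro z hz
      have g4 := sum_bd ht ha hab g3 (fun i => WF (ev (t i)) (u i) k z *
          (starRingEnd ℂ) (WF (ev (t i)) (u i) l z)) (g1 z hz) (g2 z hz)
      rw [mul_div_cancel₀ _ (by positivity)] at g4
      have e : (if k = l then (C : ℂ) else 0) =
          ((b ^ 2 - a ^ 2 : ℝ) : ℂ) * (if k = l then (c : ℂ) else 0) := by
        split_ifs
        · rw [hC]; push_cast; ring
        · ring
      rw [e]; exact g4
    filter_upwards [cb (C / 2) (by positivity), cb (η * C / 4) (by positivity),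
      sb (η * C / 4) (by positivity), ht.eventually_gt_atTop 0] with j g1 g2 g3 g4
    intro z hz
    have g5 := g3 z hz
    obtain ⟨N, hN⟩ : ∃ N : ℝ, N = (win t ht (a * t j) (b * t j)).card := ⟨_, rfl⟩
    obtain ⟨S, hS⟩ : ∃ S, S = ∑ i ∈ win t ht (a * t j) (b * t j), WF (ev (t i)) (u i) k z *
          (starRingEnd ℂ) (WF (ev (t i)) (u i) l z) := ⟨_, rfl⟩
    have hN' : ((win t ht (a * t j) (b * t j)).card : ℂ) = (N : ℂ) := by rw [hN]; push_cast; rfl
    rw [← hN] at g1 g2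
    rw [← hS] at g5 ⊢
    rw [hN']
    have p2 : 0 < t j ^ 2 := by positivity
    have n1 : C / 2 ≤ N / t j ^ 2 := by
      have := (abs_le.1 g1).1
      linarith
    have n0 : 0 < N := by
      by_contra h
      push Not at h
      have := div_nonpos_of_nonpos_of_nonneg h p2.le
      linarith
    obtain ⟨D, hD⟩ : ∃ D : ℂ, D = if k = l then 1 else 0 := ⟨_, rfl⟩
    have D1 : ‖D‖ ≤ 1 := by rw [hD]; split_ifs <;> simp
    have hDC : (if k = l then (C : ℂ) else 0) = D * C := by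
      rw [hD]; split_ifs <;> simp
    rw [hDC] at g5
    rw [← hD]
    have NC : (N : ℂ) ≠ 0 := by exact_mod_cast n0.ne'
    have TC : (t j : ℂ) ≠ 0 := by exact_mod_cast g4.ne'
    have e : S / (N : ℂ) - D = ((S / ((t j ^ 2 : ℝ) : ℂ) - D * C) -
        D * ((N / t j ^ 2 - C : ℝ) : ℂ)) / ((N / t j ^ 2 : ℝ) : ℂ) := by
      push_cast
      field_simp
      ring
    rw [e, norm_div, Complex.norm_real, Real.norm_eq_abs,
      abs_of_pos (by linarith : 0 < N / t j ^ 2), div_le_iff₀ (by linarith)]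
    refine (norm_sub_le _ _).trans ?_
    rw [norm_mul, Complex.norm_real, Real.norm_eq_abs]
    have g6 : ‖D‖ * |N / t j ^ 2 - C| ≤ 1 * (η * C / 4) :=
      mul_le_mul D1 g2 (abs_nonneg _) zero_le_one
    have g7 : η * (C / 2) ≤ η * (N / t j ^ 2) := mul_le_mul_of_nonneg_left n1 hη.le
    linarith

lemma top_of {t : ℕ → ℝ} {w : ℕ → ℕ} (tw : Tendsto (fun j => t (w j)) atTop atTop) :
    Tendsto w atTop atTop := by
  rw [tendsto_atTop]
  intro N
  obtain ⟨C, hC⟩ : ∃ C : ℝ, ∀ i < N, t i ≤ C := by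
    rcases Nat.eq_zero_or_pos N with h | h
    · exact ⟨0, fun i hi => by omega⟩
    · refine ⟨(Finset.range N).sup' ⟨0, Finset.mem_range.2 h⟩ t, fun i hi => ?_⟩
      exact Finset.le_sup' t (Finset.mem_range.2 hi)
  filter_upwards [tw.eventually_gt_atTop C] with j hj
  by_contra h
  push Not at h
  exact absurd (hC _ h) (not_le.2 hj)

lemma WF_eq (t : ℕ → ℝ) (u : ℕ → ℂ → ℝ) (k : ℤ) (i : ℕ) (z : ℂ) :
    Pool.Agent.TH294.RS.ww Complex.im (fun i => 1 / √(ev (t i))) (fun i z => (u i z : ℂ)) k i z =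
      WF (ev (t i)) (u i) k z := by
  rw [Pool.Agent.Y265.HY.FW_eq (fun i => ev (t i)) u k i z]
  cases k <;> rfl

/-- the real part of the deviation -/
lemma JI_re (t s : ℕ → ℝ) (f g : ℕ → ℂ → ℝ) (ψ : ℂ → ℝ) (i n : ℕ) :
    (Pool.Agent.J4H76.AP.JI
      (Pool.Agent.TH294.RS.ww Complex.im (fun n => 1 / √(ev (t n))) (fun n z => (f n z : ℂ)))
      (Pool.Agent.TH294.RS.ww Complex.im (fun n => 1 / √(ev (s n))) (fun n z => (g n z : ℂ)))
      (fun z => ψ z * (z.im ^ 2)⁻¹) i n (0, 0, 0, 0)).re =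
      mom ψ (f i) (g n) - ∫ z, ψ z / z.im ^ 2 := by
  have c0 : Pool.Agent.W745.RW.CC 0 0 = 1 := by unfold Pool.Agent.W745.RW.CC; simp
  have e : Pool.Agent.J4H76.AP.MI
      (Pool.Agent.TH294.RS.ww Complex.im (fun n => 1 / √(ev (t n))) (fun n z => (f n z : ℂ)))
      (Pool.Agent.TH294.RS.ww Complex.im (fun n => 1 / √(ev (s n))) (fun n z => (g n z : ℂ)))
      (fun z => ψ z * (z.im ^ 2)⁻¹) i n (0, 0, 0, 0) = ((mom ψ (f i) (g n) : ℝ) : ℂ) := by
    unfold mom
    rw [← integral_complex_ofReal]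
    unfold Pool.Agent.J4H76.AP.MI
    congr 1; funext z
    show ((ψ z * (z.im ^ 2)⁻¹ : ℝ) : ℂ) * ((f i z : ℂ) * (f i z : ℂ) *
      ((g n z : ℂ) * (g n z : ℂ))) = _
    rw [div_eq_mul_inv]
    push_cast; ring
  unfold Pool.Agent.J4H76.AP.JI
  rw [e]
  show ((mom ψ (f i) (g n) : ℝ) : ℂ).re - _ = _
  simp only [c0, one_mul, ofReal_re, div_eq_mul_inv]

lemma win_split {t : ℕ → ℝ} (ht : Tendsto t atTop atTop) {A : ℕ → ℝ} (hA : Monotone A) (K : ℕ)
    (F : ℕ → ℝ) : ∑ s ∈ Finset.range K, ∑ i ∈ win t ht (A s) (A (s + 1)), F i =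
      ∑ i ∈ win t ht (A 0) (A K), F i := by
  rw [win_sum ht (hA (Nat.zero_le K)),
    ← Finset.sum_range_sub (fun s => ∑ i ∈ upto t ht (A s), F i) K]
  exact Finset.sum_congr rfl fun s _ => win_sum ht (hA (Nat.le_succ s)) F

/-- integrability -/
lemma int_mom {ψ : ℂ → ℝ} (hψ : TF HH ψ) {F : ℂ → ℝ} (hF : ContinuousOn F HH) :
    Integrable (fun z => ψ z * F z / z.im ^ 2) := by
  have c : ContinuousOn (fun z : ℂ => ((F z * (z.im ^ 2)⁻¹ : ℝ) : ℂ)) HH := by
    refine continuous_ofReal.comp_continuousOn (hF.mul ?_)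
    exact ContinuousOn.inv₀ (continuous_im.pow 2).continuousOn fun z hz =>
      pow_ne_zero 2 (ne_of_gt hz)
  have h := (Pool.Agent.TH294.RS.TF.cint hψ c).re
  refine h.congr (Eventually.of_forall fun z => ?_)
  simp only [RCLike.re_eq_complex_re]
  rw [← ofReal_mul, ofReal_re, div_eq_mul_inv]; ring

lemma mom_nn {ψ : ℂ → ℝ} (hψ0 : ∀ z, 0 ≤ ψ z) (f g : ℂ → ℝ) : 0 ≤ mom ψ f g :=
  integral_nonneg fun z => div_nonneg (mul_nonneg (hψ0 z) (by positivity)) (sq_nonneg _)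

lemma sq_sum (t : ℕ → ℝ) (u : ℕ → ℂ → ℝ) (F : Finset ℕ) (z : ℂ) :
    ∑ i ∈ F, WF (ev (t i)) (u i) 0 z * (starRingEnd ℂ) (WF (ev (t i)) (u i) 0 z) =
      ((∑ i ∈ F, u i z ^ 2 : ℝ) : ℂ) := by
  push_cast
  refine Finset.sum_congr rfl fun i _ => ?_
  show (u i z : ℂ) * (starRingEnd ℂ) (u i z : ℂ) = _
  rw [conj_ofReal]; ring

/-- counting functions and the square sums -/
lemma upto_bd {t : ℕ → ℝ} (ht : Tendsto t atTop atTop) {u : ℕ → ℂ → ℝ} {Z : Set ℂ}
    (hW : LocalWeyl t ht u Z) {K : Set ℂ} (hK : IsCompact K) (hK2 : K ⊆ HH \ Z) :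
    ∃ c : ℝ, 0 < c ∧ ∀ x : ℝ, 0 < x → ∀ η : ℝ, 0 < η → ∀ᶠ j in atTop,
      |((upto t ht (x * t j)).card : ℝ) - x ^ 2 * c * t j ^ 2| ≤ η * t j ^ 2 ∧
      ∀ z ∈ K, |∑ i ∈ upto t ht (x * t j), u i z ^ 2 - x ^ 2 * c * t j ^ 2| ≤
        η * t j ^ 2 := by
  obtain ⟨c, hc, h1, h2, -⟩ := hW
  refine ⟨c, hc, fun x hx η hη => ?_⟩
  have tx : Tendsto (fun j => x * t j) atTop atTop := ht.const_mul_atTop hx
  have q0 : 0 < η / x ^ 2 := by positivity
  have fin : ∀ S T : ℝ, 0 < T → |S / (x * T) ^ 2 - c| ≤ η / x ^ 2 →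
      |S - x ^ 2 * c * T ^ 2| ≤ η * T ^ 2 := by
    intro S T hT h
    have p : 0 < (x * T) ^ 2 := by positivity
    have e : S - x ^ 2 * c * T ^ 2 = (x * T) ^ 2 * (S / (x * T) ^ 2 - c) := by
      field_simp
    rw [e, abs_mul, abs_of_pos p]
    have h3 := mul_le_mul_of_nonneg_left h p.le
    have e2 : (x * T) ^ 2 * (η / x ^ 2) = η * T ^ 2 := by
      field_simp
    linarith
  filter_upwards [tx.eventually (h1.eventually (Metric.closedBall_mem_nhds c q0)),
    tx.eventually (h2 K hK hK2 0 0 _ q0), ht.eventually_gt_atTop 0] with j g1 g2 g3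
  rw [Real.dist_eq] at g1
  refine ⟨fin _ _ g3 g1, fun z hz => fin _ _ g3 ?_⟩
  have g4 := g2 z hz
  rw [sq_sum, if_pos rfl, ← ofReal_div, ← ofReal_sub, Complex.norm_real, Real.norm_eq_abs] at g4
  exact g4

section
variable {t : ℕ → ℝ} (ht : Tendsto t atTop atTop) {u : ℕ → ℂ → ℝ} (hu : ∀ j, Eig (t j) (u j))
  (hq : QUE t u) {ψ : ℂ → ℝ} (hψ : TF HH ψ) (hψ0 : ∀ z, 0 ≤ ψ z)
include ht hu hq hψ hψ0

/-- the averages over sets of forms with almost the same ratio `α ≠ 1` -/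
lemma shrink0 {σ : ℕ → ℕ} (hσ : Tendsto σ atTop atTop) {F : ℕ → Finset ℕ}
    (hF : ∀ n, (F n).Nonempty) {α : ℝ} (h0 : 0 < α) (h1 : α ≠ 1) (C : ℝ)
    (hC : ∀ n, ∀ i ∈ F n, 1 / √(ev (t i)) ≤ C * (1 / √(ev (t (σ n)))) ∧
      1 / √(ev (t (σ n))) ≤ C * (1 / √(ev (t i))))
    (hr : ∀ θ : ℕ → ℕ, (∀ n, θ n ∈ F n) → Tendsto (fun n => t (θ n) / t (σ n)) atTop (𝓝 α))
    (hW : ∀ k l : ℤ, ∀ η : ℝ, 0 < η → ∀ᶠ n in atTop, ∀ z ∈ tsupport ψ,
      ‖(∑ i ∈ F n, WF (ev (t i)) (u i) k z * (starRingEnd ℂ) (WF (ev (t i)) (u i) l z)) /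
        ((F n).card : ℂ) - (if k = l then 1 else 0)‖ ≤ η) :
    Tendsto (fun n => (∑ i ∈ F n, |mom ψ (u i) (u (σ n)) - ∫ z, ψ z / z.im ^ 2|) / (F n).card)
      atTop (𝓝 0) := by
  have tθ : ∀ θ : ℕ → ℕ, (∀ n, θ n ∈ F n) → Tendsto (fun n => t (θ n)) atTop atTop := by
    intro θ hθ
    have h2 := (hr θ hθ).pos_mul_atTop h0 (ht.comp hσ)
    refine h2.congr' ?_
    filter_upwards [(ht.comp hσ).eventually_gt_atTop 0] with n hn
    have hn' : t (σ n) ≠ 0 := ne_of_gt hn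
    simp only [Function.comp_apply]
    field_simp
  obtain ⟨S, -⟩ := Pool.Agent.Results.MP_a28cf0_nt.JointFourthLowerBound.sys ht hu hq
  obtain ⟨S', E'⟩ := Pool.Agent.Results.MP_a28cf0_nt.JointFourthLowerBound.sys (ht.comp hσ)
    (f := fun n => u (σ n)) (fun n => hu _) (hq.sub hσ)
  have key := Pool.Agent.J4H76.AP.avg_zero (F := F) S S' E' (fun z hz => hz)
    (Pool.Agent.Results.MP_a28cf0_nt.JointFourthLowerBound.tf_mul hψ)
    (fun z => mul_nonneg (hψ0 z) (inv_nonneg.2 (sq_nonneg _))) hF ?_ (C := C) hC ?_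
    (ρ0 := if α < 1 then α else 1 / α) ?_ ?_ ?_
  · refine key.congr fun n => ?_
    congr 1
    refine Finset.sum_congr rfl fun i _ => ?_
    have e := JI_re t (fun n => t (σ n)) u (fun n => u (σ n)) ψ i n
    rw [← e]; rfl
  · intro k l η hη
    filter_upwards [hW k l η hη] with n hn z hz
    have hz' : z ∈ tsupport ψ := tsupport_mul_subset_left hz
    have h2 := hn z hz'
    simp only [WF_eq]
    exact h2
  · intro θ hθ
    have t1 := tθ θ hθ
    have t2 := top_of t1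
    have h2 := Pool.Agent.Results.MP_a28cf0_nt.JointFourthLowerBound.sys t1
      (f := fun n => u (θ n)) (fun n => hu _) (hq.sub t2)
    have e : (fun (k : ℤ) (n : ℕ) => Pool.Agent.TH294.RS.ww Complex.im
        (fun i => 1 / √(ev (t i))) (fun i z => (u i z : ℂ)) k (θ n)) =
        Pool.Agent.TH294.RS.ww Complex.im (fun n => 1 / √(ev (t (θ n))))
          (fun n z => (u (θ n) z : ℂ)) := by
      funext k n
      exact (Pool.Agent.TH294.RG.ww_sub Complex.im (fun i => 1 / √(ev (t i)))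
        (fun i z => (u i z : ℂ)) θ k n).symm
    rw [e]
    exact h2
  · split_ifs with h
    · exact h0
    · positivity
  · split_ifs with h
    · exact h
    · rw [div_lt_one h0]
      exact lt_of_le_of_ne (not_lt.1 h) (Ne.symm h1)
  · split_ifs with h
    · right
      intro η hη
      have := Pool.Agent.J4H76.AP.worst (G := fun i n => (((1 / √(ev (t (σ n)))) /
        (1 / √(ev (t i))) - α : ℝ) : ℂ)) hF ?_ η hη
      · filter_upwards [this] with n hn i hi
        have h2 := hn i hi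
        rw [Complex.norm_real, Real.norm_eq_abs] at h2
        exact h2
      · intro θ hθ
        have h2 := Pool.Agent.Results.MP_a28cf0_nt.JointFourthLowerBound.ratio (ht.comp hσ)
          (tθ θ hθ) (hr θ hθ)
        have h3 := (Complex.continuous_ofReal.tendsto _).comp (h2.sub_const α)
        rw [sub_self, ofReal_zero] at h3
        exact h3
    · left
      intro η hη
      have := Pool.Agent.J4H76.AP.worst (G := fun i n => (((1 / √(ev (t i))) /
        (1 / √(ev (t (σ n)))) - 1 / α : ℝ) : ℂ)) hF ?_ η hη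
      · filter_upwards [this] with n hn i hi
        have h2 := hn i hi
        rw [Complex.norm_real, Real.norm_eq_abs] at h2
        exact h2
      · intro θ hθ
        have h4 : Tendsto (fun n => t (σ n) / t (θ n)) atTop (𝓝 (1 / α)) := by
          have h5 := (hr θ hθ).inv₀ h0.ne'
          rw [← one_div] at h5
          refine h5.congr fun n => ?_
          rw [inv_div]
        have h2 := Pool.Agent.Results.MP_a28cf0_nt.JointFourthLowerBound.ratio
          (tθ θ hθ) (ht.comp hσ) h4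
        have h3 := (Complex.continuous_ofReal.tendsto _).comp (h2.sub_const (1 / α))
        rw [sub_self, ofReal_zero] at h3
        exact h3

/-- the averages over sets of forms with almost the same ratio `α ≠ 1` -/
lemma shrink {σ : ℕ → ℕ} (hσ : Tendsto σ atTop atTop) {F : ℕ → Finset ℕ}
    (hF : ∀ n, (F n).Nonempty) {α : ℝ} (h0 : 0 < α) (h1 : α ≠ 1)
    (hr : ∀ η : ℝ, 0 < η → ∀ᶠ n in atTop, ∀ i ∈ F n, |t i / t (σ n) - α| ≤ η)
    (hW : ∀ k l : ℤ, ∀ η : ℝ, 0 < η → ∀ᶠ n in atTop, ∀ z ∈ tsupport ψ,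
      ‖(∑ i ∈ F n, WF (ev (t i)) (u i) k z * (starRingEnd ℂ) (WF (ev (t i)) (u i) l z)) /
        ((F n).card : ℂ) - (if k = l then 1 else 0)‖ ≤ η) :
    Tendsto (fun n => (∑ i ∈ F n, |mom ψ (u i) (u (σ n)) - ∫ z, ψ z / z.im ^ 2|) / (F n).card)
      atTop (𝓝 0) := by
  -- the ratios along sequences
  have hr' : ∀ θ : ℕ → ℕ, (∀ n, θ n ∈ F n) → Tendsto (fun n => t (θ n) / t (σ n)) atTop
      (𝓝 α) := by
    intro θ hθ
    rw [Metric.tendsto_atTop]
    intro η hη
    obtain ⟨N, hN⟩ := eventually_atTop.1 (hr (η / 2) (by positivity))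
    refine ⟨N, fun n hn => ?_⟩
    rw [Real.dist_eq]
    have := hN n hn _ (hθ n)
    linarith
  have tθ : ∀ θ : ℕ → ℕ, (∀ n, θ n ∈ F n) → Tendsto (fun n => t (θ n)) atTop atTop := by
    intro θ hθ
    have h2 := (hr' θ hθ).pos_mul_atTop h0 (ht.comp hσ)
    refine h2.congr' ?_
    filter_upwards [(ht.comp hσ).eventually_gt_atTop 0] with n hn
    have hn' : t (σ n) ≠ 0 := ne_of_gt hn
    simp only [Function.comp_apply]
    field_simp
  have w1 := Pool.Agent.J4H76.AP.worst (G := fun i n => (((1 / √(ev (t (σ n)))) /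
      (1 / √(ev (t i))) - α : ℝ) : ℂ)) hF (fun θ hθ => by
        have h2 := Pool.Agent.Results.MP_a28cf0_nt.JointFourthLowerBound.ratio (ht.comp hσ)
          (tθ θ hθ) (hr' θ hθ)
        have h3 := (Complex.continuous_ofReal.tendsto _).comp (h2.sub_const α)
        rw [sub_self, ofReal_zero] at h3
        exact h3) 1 one_pos
  have w2 := Pool.Agent.J4H76.AP.worst (G := fun i n => (((1 / √(ev (t i))) /
      (1 / √(ev (t (σ n)))) - 1 / α : ℝ) : ℂ)) hF (fun θ hθ => by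
        have h4 : Tendsto (fun n => t (σ n) / t (θ n)) atTop (𝓝 (1 / α)) := by
          have h5 := (hr' θ hθ).inv₀ h0.ne'
          rw [← one_div] at h5
          refine h5.congr fun n => ?_
          rw [inv_div]
        have h2 := Pool.Agent.Results.MP_a28cf0_nt.JointFourthLowerBound.ratio
          (tθ θ hθ) (ht.comp hσ) h4
        have h3 := (Complex.continuous_ofReal.tendsto _).comp (h2.sub_const (1 / α))
        rw [sub_self, ofReal_zero] at h3
        exact h3) 1 one_pos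
  obtain ⟨n0, hn0⟩ := eventually_atTop.1 (w1.and w2)
  have tn : Tendsto (fun n => n + n0) atTop atTop := tendsto_add_atTop_nat n0
  have pe : ∀ i, 0 < 1 / √(ev (t i)) := fun i =>
    one_div_pos.2 (Real.sqrt_pos.2 (Pool.Agent.Results.MP_a28cf0_nt.JointFourthLowerBound.ev_pos _))
  have key := shrink0 ht hu hq hψ hψ0 (hσ.comp tn) (F := fun n => F (n + n0)) (fun n => hF _) h0 h1
    (α + 1 / α + 1) ?_ ?_ ?_
  · refine (tendsto_add_atTop_iff_nat n0).1 (key.congr fun n => ?_)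
    rfl
  · intro n i hi
    obtain ⟨a1, a2⟩ := hn0 (n + n0) (Nat.le_add_left _ _)
    have b1 := a1 i hi
    have b2 := a2 i hi
    rw [Complex.norm_real, Real.norm_eq_abs] at b1 b2
    have c1 := (abs_le.1 b1).2
    have c2 := (abs_le.1 b2).2
    have p1 := pe i
    have p2 := pe (σ (n + n0))
    have α0 : 0 < 1 / α := by positivity
    constructor
    · have d : 1 / √(ev (t i)) / (1 / √(ev (t (σ (n + n0))))) ≤ α + 1 / α + 1 := by linarith
      exact (div_le_iff₀ p2).1 d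
    · have d : 1 / √(ev (t (σ (n + n0)))) / (1 / √(ev (t i))) ≤ α + 1 / α + 1 := by linarith
      exact (div_le_iff₀ p1).1 d
  · intro θ hθ
    -- extend `θ`
    choose θ' hθ' using hF
    have h2 := hr' (fun n => if n0 ≤ n then θ (n - n0) else θ' n) (fun n => by
      show (if n0 ≤ n then θ (n - n0) else θ' n) ∈ F n
      split_ifs with h
      · have := hθ (n - n0)
        rwa [Nat.sub_add_cancel h] at this
      · exact hθ' n)
    refine (h2.comp tn).congr fun n => ?_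
    simp only [Function.comp_apply, Nat.le_add_left, if_true, Nat.add_sub_cancel]
  · intro k l η hη
    exact tn.eventually (hW k l η hη)

/-- windows that do not contain `1` -/
lemma far {Z : Set ℂ} (hZψ : tsupport ψ ⊆ HH \ Z) (hW : LocalWeyl t ht u Z) {a b : ℝ} (ha : 0 < a) (hab : a < b) (h1 : b < 1 ∨ 1 < a)
    {ε : ℝ} (hε : 0 < ε) :
    ∀ᶠ j in atTop, ∑ i ∈ win t ht (a * t j) (b * t j),
      (|mom ψ (u i) (u j) - ∫ z, ψ z / z.im ^ 2| - ε) ≤ 0 := by
  classical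
  by_contra hcon
  rw [not_eventually] at hcon
  have ba : 0 < b - a := sub_pos.2 hab
  obtain ⟨A, hA⟩ : ∃ A : ℕ → ℕ → ℝ, A = fun (K s : ℕ) =>
      a + (b - a) * ((s : ℝ) / ((K : ℝ) + 1)) := ⟨_, rfl⟩
  have A0 : ∀ K, A K 0 = a := by intro K; rw [hA]; simp
  have A1 : ∀ K, A K (K + 1) = b := by
    intro K
    have : ((K : ℝ) + 1) ≠ 0 := by positivity
    rw [hA]; push_cast; rw [div_self this]; ring
  have Ad : ∀ K s, A K (s + 1) = A K s + (b - a) / (K + 1) := by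
    intro K s; rw [hA]; push_cast; ring
  have Alt : ∀ K s, A K s < A K (s + 1) := by
    intro K s
    rw [Ad]
    have : 0 < (b - a) / ((K : ℝ) + 1) := by positivity
    linarith
  have Am : ∀ K, Monotone (A K) := fun K => monotone_nat_of_le_succ fun s => (Alt K s).le
  have Aa : ∀ K s, a ≤ A K s := by
    intro K s
    have := Am K (Nat.zero_le s)
    rwa [A0] at this
  have Ab : ∀ K s, s ≤ K + 1 → A K s ≤ b := by
    intro K s hs
    have := Am K hs
    rwa [A1] at this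
  have ft : ∀ K : ℕ, ∃ᶠ j in atTop, 0 < t j ∧ ∃ s, s ∈ Finset.range (K + 1) ∧
      (win t ht (A K s * t j) (A K (s + 1) * t j)).Nonempty ∧
      (∀ k ∈ Finset.Icc (-(K : ℤ)) K, ∀ l ∈ Finset.Icc (-(K : ℤ)) K, ∀ z ∈ tsupport ψ,
        ‖(∑ i ∈ win t ht (A K s * t j) (A K (s + 1) * t j), WF (ev (t i)) (u i) k z *
          (starRingEnd ℂ) (WF (ev (t i)) (u i) l z)) /
            ((win t ht (A K s * t j) (A K (s + 1) * t j)).card : ℂ) -
              (if k = l then 1 else 0)‖ ≤ 1 / ((K : ℝ) + 1)) ∧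
      0 < ∑ i ∈ win t ht (A K s * t j) (A K (s + 1) * t j),
        (|mom ψ (u i) (u j) - ∫ z, ψ z / z.im ^ 2| - ε) := by
    intro K
    have g1 : ∀ᶠ j in atTop, ∀ s ∈ Finset.range (K + 1),
        (win t ht (A K s * t j) (A K (s + 1) * t j)).Nonempty := by
      rw [Filter.eventually_all_finset]
      intro s _
      exact (win_weyl ht hW (ha.trans_le (Aa K s)) (Alt K s) hψ.2.1 hZψ).1
    have g2 : ∀ᶠ j in atTop, ∀ s ∈ Finset.range (K + 1), ∀ k ∈ Finset.Icc (-(K : ℤ)) K,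
        ∀ l ∈ Finset.Icc (-(K : ℤ)) K, ∀ z ∈ tsupport ψ,
        ‖(∑ i ∈ win t ht (A K s * t j) (A K (s + 1) * t j), WF (ev (t i)) (u i) k z *
          (starRingEnd ℂ) (WF (ev (t i)) (u i) l z)) /
            ((win t ht (A K s * t j) (A K (s + 1) * t j)).card : ℂ) -
              (if k = l then 1 else 0)‖ ≤ 1 / ((K : ℝ) + 1) := by
      rw [Filter.eventually_all_finset]
      intro s _
      rw [Filter.eventually_all_finset]
      intro k _
      rw [Filter.eventually_all_finset]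
      intro l _
      exact (win_weyl ht hW (ha.trans_le (Aa K s)) (Alt K s) hψ.2.1 hZψ).2 k l _
        (by positivity)
    refine (hcon.and_eventually ((g1.and g2).and (ht.eventually_gt_atTop 0))).mono fun j hj => ?_
    obtain ⟨h2, ⟨h3, h4⟩, h5⟩ := hj
    refine ⟨h5, ?_⟩
    by_contra hno
    push Not at hno
    refine h2 ?_
    have e := win_split ht (A := fun s => A K s * t j)
      (fun x y hxy => mul_le_mul_of_nonneg_right (Am K hxy) h5.le) (K + 1)
      (fun i => |mom ψ (u i) (u j) - ∫ z, ψ z / z.im ^ 2| - ε)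
    simp only [A0, A1] at e
    rw [← e]
    exact Finset.sum_nonpos fun s hs => hno s hs (h3 s hs) (h4 s hs)
  obtain ⟨φ, hφ, hP⟩ := extraction_forall_of_frequently ft
  have hP2 := fun K => (hP K).2
  choose s hs hs1 hs2 hs3 using hP2
  have mem : ∀ K, A K (s K) ∈ Set.Icc a b := fun K =>
    ⟨Aa K _, Ab K _ (Finset.mem_range.1 (hs K)).le⟩
  obtain ⟨α, hα, κ, hκ, lim⟩ := isCompact_Icc.tendsto_subseq mem
  have hκt := hκ.tendsto_atTop
  have inv0 : Tendsto (fun n => 1 / ((κ n : ℝ) + 1)) atTop (𝓝 0) :=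
    (tendsto_one_div_add_atTop_nhds_zero_nat (𝕜 := ℝ)).comp hκt
  have gap : Tendsto (fun n => (b - a) * (1 / ((κ n : ℝ) + 1))) atTop (𝓝 0) := by
    have := inv0.const_mul (b - a)
    rwa [mul_zero] at this
  have key := shrink ht hu hq hψ hψ0 (σ := fun n => φ (κ n)) ((hφ.comp hκ).tendsto_atTop)
    (F := fun n => win t ht (A (κ n) (s (κ n)) * t (φ (κ n)))
      (A (κ n) (s (κ n) + 1) * t (φ (κ n)))) (fun n => hs1 _) (α := α) (ha.trans_le hα.1)
    ?_ ?_ ?_
  · obtain ⟨n, hn⟩ := (key.eventually (gt_mem_nhds hε)).exists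
    have h2 := hs3 (κ n)
    rw [Finset.sum_sub_distrib, Finset.sum_const, nsmul_eq_mul] at h2
    have cp : (0 : ℝ) < (win t ht (A (κ n) (s (κ n)) * t (φ (κ n)))
      (A (κ n) (s (κ n) + 1) * t (φ (κ n)))).card := by exact_mod_cast (hs1 (κ n)).card_pos
    rw [div_lt_iff₀ cp] at hn
    linarith
  · rcases h1 with h | h
    · exact (lt_of_le_of_lt hα.2 h).ne
    · exact (lt_of_lt_of_le h hα.1).ne'
  · intro η hη
    have lim2 : ∀ᶠ n in atTop, |A (κ n) (s (κ n)) - α| < η / 2 := by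
      have := lim.eventually (Metric.ball_mem_nhds α (show 0 < η / 2 by positivity))
      filter_upwards [this] with n hn
      rw [Real.dist_eq] at hn
      exact hn
    filter_upwards [lim2, gap.eventually (gt_mem_nhds (show 0 < η / 2 by positivity))]
      with n g1 g2 i hi
    rw [mem_win] at hi
    have tp := (hP (κ n)).1
    have b1 : A (κ n) (s (κ n)) < t i / t (φ (κ n)) := by rw [lt_div_iff₀ tp]; exact hi.2
    have b2 : t i / t (φ (κ n)) ≤ A (κ n) (s (κ n)) + (b - a) * (1 / ((κ n : ℝ) + 1)) := by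
      rw [mul_one_div, ← Ad, div_le_iff₀ tp]; exact hi.1
    have b3 := abs_lt.1 g1
    rw [abs_le]
    constructor
    · linarith [b3.1]
    · linarith [b3.2]
  · intro k l η hη
    filter_upwards [hκt.eventually_ge_atTop (k.natAbs + l.natAbs),
      inv0.eventually (gt_mem_nhds hη)] with n g1 g2 z hz
    refine (hs2 (κ n) k ?_ l ?_ z hz).trans g2.le
    · rw [Finset.mem_Icc]; omega
    · rw [Finset.mem_Icc]; omega

omit ht hu hψ0 in
/-- second moments -/
lemma two_mom : Tendsto (fun j => ∫ z, ψ z * u j z ^ 2 / z.im ^ 2) atTop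
    (𝓝 (∫ z, ψ z / z.im ^ 2)) := by
  have h := hq ψ hψ 0
  rw [if_pos rfl] at h
  have h2 := (Complex.continuous_re.tendsto _).comp h
  rw [ofReal_re] at h2
  refine h2.congr fun j => ?_
  have e : ∫ z, ((ψ z / z.im ^ 2 : ℝ) : ℂ) *
      ((u j z : ℂ) * (RO (ev (t j)))^[0] (fun w => (u j w : ℂ)) z) =
      ((∫ z, ψ z * u j z ^ 2 / z.im ^ 2 : ℝ) : ℂ) := by
    rw [← integral_complex_ofReal]
    congr 1; funext z
    show ((ψ z / z.im ^ 2 : ℝ) : ℂ) * ((u j z : ℂ) * (u j z : ℂ)) = _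
    push_cast; ring
  show (∫ z, ((ψ z / z.im ^ 2 : ℝ) : ℂ) *
      ((u j z : ℂ) * (RO (ev (t j)))^[0] (fun w => (u j w : ℂ)) z)).re = _
  rw [e, ofReal_re]

omit ht hq in
/-- sums of joint moments -/
lemma sum_mom {F : Finset ℕ} {X : ℝ} (j : ℕ) (h : ∀ z ∈ tsupport ψ, ∑ i ∈ F, u i z ^ 2 ≤ X) :
    ∑ i ∈ F, mom ψ (u i) (u j) ≤ X * ∫ z, ψ z * u j z ^ 2 / z.im ^ 2 := by
  have uc : ∀ i, ContinuousOn (u i) HH := fun i => (hu i).1.continuousOn
  have e1 : ∑ i ∈ F, mom ψ (u i) (u j) =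
      ∫ z, ψ z * ((∑ i ∈ F, u i z ^ 2) * u j z ^ 2) / z.im ^ 2 := by
    have ii : ∀ i ∈ F, Integrable (fun z => ψ z * (u i z ^ 2 * u j z ^ 2) / z.im ^ 2) :=
      fun i _ => int_mom hψ (F := fun z => u i z ^ 2 * u j z ^ 2)
        (((uc i).pow 2).mul ((uc j).pow 2))
    unfold mom
    rw [← integral_finsetSum _ ii]
    congr 1; funext z
    simp only [Finset.sum_div, Finset.sum_mul, Finset.mul_sum]
  have cA : ContinuousOn (fun z => (∑ i ∈ F, u i z ^ 2) * u j z ^ 2) HH :=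
    (continuousOn_finsetSum _ fun i _ => (uc i).pow 2).mul ((uc j).pow 2)
  have i1 := int_mom hψ cA
  have i2 := int_mom hψ (F := fun z => u j z ^ 2) ((uc j).pow 2)
  rw [e1, ← integral_const_mul]
  refine integral_mono i1 (i2.const_mul _) fun z => ?_
  show ψ z * ((∑ i ∈ F, u i z ^ 2) * u j z ^ 2) / z.im ^ 2 ≤
    X * (ψ z * u j z ^ 2 / z.im ^ 2)
  by_cases hz : z ∈ tsupport ψ
  · have a3 : 0 ≤ ψ z * u j z ^ 2 / z.im ^ 2 :=
      div_nonneg (mul_nonneg (hψ0 z) (sq_nonneg _)) (sq_nonneg _)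
    have a4 := mul_le_mul_of_nonneg_right (h z hz) a3
    calc _ = (∑ i ∈ F, u i z ^ 2) * (ψ z * u j z ^ 2 / z.im ^ 2) := by ring
      _ ≤ _ := a4
  · rw [image_eq_zero_of_notMem_tsupport hz]; simp

omit ht in
/-- the trivial bound -/
lemma triv {F : ℕ → Finset ℕ} {X : ℝ} (hX : 0 ≤ X)
    (h1 : ∀ᶠ j in atTop, ((F j).card : ℝ) ≤ X * t j ^ 2 ∧
      ∀ z ∈ tsupport ψ, ∑ i ∈ F j, u i z ^ 2 ≤ X * t j ^ 2) :
    ∀ᶠ j in atTop, ∑ i ∈ F j, |mom ψ (u i) (u j) - ∫ z, ψ z / z.im ^ 2| ≤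
      (2 * (∫ z, ψ z / z.im ^ 2) + 1) * X * t j ^ 2 := by
  obtain ⟨m, hm⟩ : ∃ m : ℝ, m = ∫ z, ψ z / z.im ^ 2 := ⟨_, rfl⟩
  have m0 : 0 ≤ m := by
    rw [hm]; exact integral_nonneg fun z => div_nonneg (hψ0 z) (sq_nonneg _)
  have tm := two_mom hq hψ
  rw [← hm] at tm ⊢
  filter_upwards [h1, tm.eventually (gt_mem_nhds (show m < m + 1 by linarith))] with j h2 h4
  obtain ⟨h3, h5⟩ := h2
  obtain ⟨S, hS⟩ : ∃ S, S = ∫ z, ψ z * u j z ^ 2 / z.im ^ 2 := ⟨_, rfl⟩
  rw [← hS] at h4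
  have S0 : 0 ≤ S := by
    rw [hS]
    exact integral_nonneg fun z => div_nonneg (mul_nonneg (hψ0 z) (sq_nonneg _)) (sq_nonneg _)
  have X0 : 0 ≤ X * t j ^ 2 := by positivity
  have e2 : ∑ i ∈ F j, mom ψ (u i) (u j) ≤ (X * t j ^ 2) * S := by
    rw [hS]
    exact sum_mom hu hψ hψ0 j h5
  have e3 : ∀ i ∈ F j, |mom ψ (u i) (u j) - m| ≤ mom ψ (u i) (u j) + m := by
    intro i hi
    have b1 := mom_nn hψ0 (u i) (u j)
    rw [abs_le]
    constructor <;> linarith
  have e4 := Finset.sum_le_sum e3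
  rw [Finset.sum_add_distrib, Finset.sum_const, nsmul_eq_mul] at e4
  have e5 := mul_le_mul_of_nonneg_left h4.le X0
  have e6 := mul_le_mul_of_nonneg_right h3 m0
  have e7 : (2 * m + 1) * X * t j ^ 2 = X * t j ^ 2 * (m + 1) + X * t j ^ 2 * m := by ring
  linarith

/-- all forms with `t_i ≤ b t_j`, nonnegative test functions -/
lemma all_nn {Z : Set ℂ} (hZψ : tsupport ψ ⊆ HH \ Z) (hW : LocalWeyl t ht u Z) {b : ℝ}
    (hb : 2 ≤ b) {ε : ℝ} (hε : 0 < ε) :
    ∀ᶠ j in atTop, ∑ i ∈ upto t ht (b * t j), |mom ψ (u i) (u j) - ∫ z, ψ z / z.im ^ 2| ≤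
      ε * t j ^ 2 := by
  obtain ⟨c, hc, bd⟩ := upto_bd ht hW hψ.2.1 hZψ
  have m0 : 0 ≤ ∫ z, ψ z / z.im ^ 2 := integral_nonneg fun z => div_nonneg (hψ0 z) (sq_nonneg _)
  obtain ⟨M, hM⟩ : ∃ M : ℝ, M = 2 * (∫ z, ψ z / z.im ^ 2) + 1 := ⟨_, rfl⟩
  have M0 : 0 < M := by rw [hM]; linarith
  obtain ⟨δ, d0, d1, d2⟩ : ∃ δ : ℝ, 0 < δ ∧ δ ≤ 1 / 4 ∧ M * (5 * δ * c) ≤ ε / 4 := by
    refine ⟨min (1 / 4) (ε / (20 * M * c)), lt_min (by norm_num) (by positivity),
      min_le_left _ _, ?_⟩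
    have h1 := mul_le_mul_of_nonneg_left (min_le_right (1 / 4) (ε / (20 * M * c)))
      (show 0 ≤ 5 * M * c by positivity)
    have h2 : 5 * M * c * (ε / (20 * M * c)) = ε / 4 := by field_simp; norm_num
    linarith
  obtain ⟨η, e0, e1, e2⟩ : ∃ η : ℝ, 0 < η ∧ η ≤ 1 ∧ M * (3 * η) ≤ ε / 4 := by
    refine ⟨min 1 (ε / (12 * M)), lt_min one_pos (by positivity), min_le_left _ _, ?_⟩
    have h1 := mul_le_mul_of_nonneg_left (min_le_right 1 (ε / (12 * M)))
      (show 0 ≤ 3 * M by positivity)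
    have h2 : 3 * M * (ε / (12 * M)) = ε / 4 := by field_simp; norm_num
    linarith
  obtain ⟨ζ, z0, z1⟩ : ∃ ζ : ℝ, 0 < ζ ∧ 2 * ζ * (b ^ 2 * c + 1) ≤ ε / 4 := by
    refine ⟨ε / (8 * (b ^ 2 * c + 1)), by positivity, le_of_eq ?_⟩
    field_simp; norm_num
  have q1 := bd δ d0 η e0
  have q2 := bd (1 - δ) (by linarith) η e0
  have q3 := bd (1 + δ) (by linarith) η e0
  have q4 := bd b (by linarith) η e0
  have tp := ht.eventually_gt_atTop 0
  have p1 := triv hu hq hψ hψ0 (F := fun j => upto t ht (δ * t j)) (X := δ ^ 2 * c + η)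
    (by positivity) (by
      filter_upwards [q1] with j hj
      refine ⟨?_, fun z hz => ?_⟩
      · have := (abs_le.1 hj.1).2
        linarith
      · have := (abs_le.1 (hj.2 z hz)).2
        linarith)
  have p2 := triv hu hq hψ hψ0 (F := fun j => win t ht ((1 - δ) * t j) ((1 + δ) * t j))
    (X := 4 * δ * c + 2 * η) (by positivity) (by
      filter_upwards [q2, q3, tp] with j h2 h3 h4
      have le : (1 - δ) * t j ≤ (1 + δ) * t j := mul_le_mul_of_nonneg_right (by linarith) h4.le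
      refine ⟨?_, fun z hz => ?_⟩
      · have e := win_sum ht le (fun _ => (1 : ℝ))
        simp only [Finset.sum_const, nsmul_eq_mul, mul_one] at e
        rw [e]
        have a1 := (abs_le.1 h2.1).1
        have a2 := (abs_le.1 h3.1).2
        nlinarith
      · rw [win_sum ht le]
        have a1 := (abs_le.1 (h2.2 z hz)).1
        have a2 := (abs_le.1 (h3.2 z hz)).2
        nlinarith)
  have p3 := far ht hu hq hψ hψ0 hZψ hW d0 (show δ < 1 - δ by linarith) (Or.inl (by linarith)) z0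
  have p4 := far ht hu hq hψ hψ0 hZψ hW (show 0 < 1 + δ by linarith) (show 1 + δ < b by linarith)
    (Or.inr (by linarith)) z0
  rw [← hM] at p1 p2
  filter_upwards [p1, p2, p3, p4, q4, tp] with j h1 h2 h3 h4 h5 h6
  have l1 : δ * t j ≤ (1 - δ) * t j := mul_le_mul_of_nonneg_right (by linarith) h6.le
  have l2 : (1 - δ) * t j ≤ (1 + δ) * t j := mul_le_mul_of_nonneg_right (by linarith) h6.le
  have l3 : (1 + δ) * t j ≤ b * t j := mul_le_mul_of_nonneg_right (by linarith) h6.le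
  rw [Finset.sum_sub_distrib, Finset.sum_const, nsmul_eq_mul] at h3 h4
  have cd : ∀ x y : ℝ, y ≤ b * t j → ((win t ht x y).card : ℝ) ≤ (upto t ht (b * t j)).card := by
    intro x y hy
    have : win t ht x y ⊆ upto t ht (b * t j) := by
      intro i hi
      rw [mem_win] at hi
      rw [mem_upto]
      exact hi.1.trans hy
    exact_mod_cast Finset.card_le_card this
  have c1 := mul_le_mul_of_nonneg_right (cd (δ * t j) ((1 - δ) * t j) (l2.trans l3)) z0.le
  have c2 := mul_le_mul_of_nonneg_right (cd ((1 + δ) * t j) (b * t j) le_rfl) z0.le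
  rw [win_sum ht l1] at h3
  rw [win_sum ht l2] at h2
  rw [win_sum ht l3] at h4
  have c3 : ((upto t ht (b * t j)).card : ℝ) ≤ (b ^ 2 * c + 1) * t j ^ 2 := by
    have a1 := (abs_le.1 h5.1).2
    have a2 := mul_le_mul_of_nonneg_right e1 (sq_nonneg (t j))
    linarith
  have c4 := mul_le_mul_of_nonneg_right c3 z0.le
  have t2 : 0 < t j ^ 2 := by positivity
  -- the total
  have tot : ∑ i ∈ upto t ht (b * t j), |mom ψ (u i) (u j) - ∫ z, ψ z / z.im ^ 2| ≤
      M * (δ ^ 2 * c + η) * t j ^ 2 + M * (4 * δ * c + 2 * η) * t j ^ 2 +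
        2 * ((b ^ 2 * c + 1) * t j ^ 2 * ζ) := by
    linarith
  refine tot.trans ?_
  have f1 : M * (δ ^ 2 * c + η) + M * (4 * δ * c + 2 * η) + 2 * ((b ^ 2 * c + 1) * ζ) ≤ ε := by
    have g1 : M * (δ ^ 2 * c) ≤ M * (δ * c) := by
      refine mul_le_mul_of_nonneg_left (mul_le_mul_of_nonneg_right ?_ hc.le) M0.le
      nlinarith
    nlinarith
  have f2 := mul_le_mul_of_nonneg_right f1 t2.le
  linarith

end

/-- all forms with `t_i ≤ b t_j` -/
lemma all_gen {t : ℕ → ℝ} (ht : Tendsto t atTop atTop) {u : ℕ → ℂ → ℝ}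
    (hu : ∀ j, Eig (t j) (u j)) (hq : QUE t u) {ψ : ℂ → ℝ} {Z : Set ℂ} (hZ : IsOpen (HH \ Z))
    (hψZ : TF (HH \ Z) ψ) (hW : LocalWeyl t ht u Z) (b : ℝ) {ε : ℝ} (hε : 0 < ε) :
    ∀ᶠ j in atTop, ∑ i ∈ upto t ht (b * t j), |mom ψ (u i) (u j) - ∫ z, ψ z / z.im ^ 2| ≤
      ε * t j ^ 2 := by
  have hψ : TF HH ψ := ⟨hψZ.1, hψZ.2.1, hψZ.2.2.trans Set.sdiff_subset⟩
  obtain ⟨ζ, hζZ, hζ0, -, hζ1⟩ := Pool.Agent.Y265.RW.cutoff hZ hψZ.2.1 hψZ.2.2
  have hζ : TF HH ζ := ⟨hζZ.1, hζZ.2.1, hζZ.2.2.trans Set.sdiff_subset⟩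
  obtain ⟨M, hM0, hM⟩ : ∃ M : ℝ, 0 ≤ M ∧ ∀ z, |ψ z| ≤ M := by
    obtain ⟨M, hM⟩ := hψ.2.1.exists_bound_of_continuous hψ.1.continuous
    exact ⟨M, (norm_nonneg _).trans (hM 0), hM⟩
  obtain ⟨χ, hχ⟩ : ∃ χ : ℂ → ℝ, χ = fun z => ψ z + M * ζ z := ⟨_, rfl⟩
  have hχZ : TF (HH \ Z) χ := by
    rw [hχ]
    refine ⟨hψ.1.add (contDiff_const.mul hζ.1), hψ.2.1.add hζ.2.1.mul_left, ?_⟩
    refine (tsupport_add ψ (fun z => M * ζ z)).trans (Set.union_subset hψZ.2.2 ?_)
    exact (tsupport_mul_subset_right (f := fun _ => M) (g := ζ)).trans hζZ.2.2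
  have hχT : TF HH χ := ⟨hχZ.1, hχZ.2.1, hχZ.2.2.trans Set.sdiff_subset⟩
  have hχ0 : ∀ z, 0 ≤ χ z := by
    intro z
    rw [hχ]
    show 0 ≤ ψ z + M * ζ z
    by_cases hz : z ∈ tsupport ψ
    · rw [hζ1 z hz, mul_one]
      linarith [(abs_le.1 (hM z)).1]
    · rw [image_eq_zero_of_notMem_tsupport hz, zero_add]
      exact mul_nonneg hM0 (hζ0 z)
  have e1 : ∫ z, ψ z / z.im ^ 2 = (∫ z, χ z / z.im ^ 2) - M * ∫ z, ζ z / z.im ^ 2 := by
    have i1 := int_mom hψ (F := fun _ => 1) continuousOn_const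
    have i2 := int_mom hζ (F := fun _ => 1) continuousOn_const
    simp only [mul_one] at i1 i2
    have : ∫ z, χ z / z.im ^ 2 = (∫ z, ψ z / z.im ^ 2) + M * ∫ z, ζ z / z.im ^ 2 := by
      rw [← integral_const_mul, ← integral_add i1 (i2.const_mul M), hχ]
      congr 1; funext z
      ring
    rw [this]; ring
  have e2 : ∀ i j, mom ψ (u i) (u j) = mom χ (u i) (u j) - M * mom ζ (u i) (u j) := by
    intro i j
    have cc : ContinuousOn (fun z => u i z ^ 2 * u j z ^ 2) HH :=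
      ((hu i).1.continuousOn.pow 2).mul ((hu j).1.continuousOn.pow 2)
    have i1 := int_mom hψ cc
    have i2 := int_mom hζ cc
    have : mom χ (u i) (u j) = mom ψ (u i) (u j) + M * mom ζ (u i) (u j) := by
      unfold mom
      rw [← integral_const_mul, ← integral_add i1 (i2.const_mul M), hχ]
      congr 1; funext z
      ring
    rw [this]; ring
  obtain ⟨B, hB⟩ : ∃ B, B = max b 2 := ⟨_, rfl⟩
  have B2 : 2 ≤ B := by rw [hB]; exact le_max_right _ _
  have bB : b ≤ B := by rw [hB]; exact le_max_left _ _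
  filter_upwards [all_nn ht hu hq hχT hχ0 hχZ.2.2 hW B2 (show 0 < ε / 2 by positivity),
    all_nn ht hu hq hζ hζ0 hζZ.2.2 hW B2 (show 0 < ε / (2 * (M + 1)) by positivity),
    ht.eventually_gt_atTop 0] with j h1 h2 h3
  have sub : upto t ht (b * t j) ⊆ upto t ht (B * t j) := by
    intro i hi
    rw [mem_upto] at hi ⊢
    exact hi.trans (mul_le_mul_of_nonneg_right bB h3.le)
  have k1 : ∑ i ∈ upto t ht (b * t j), |mom ψ (u i) (u j) - ∫ z, ψ z / z.im ^ 2| ≤
      ∑ i ∈ upto t ht (B * t j), (|mom χ (u i) (u j) - ∫ z, χ z / z.im ^ 2| +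
        M * |mom ζ (u i) (u j) - ∫ z, ζ z / z.im ^ 2|) := by
    refine (Finset.sum_le_sum_of_subset_of_nonneg sub fun i _ _ => abs_nonneg _).trans
      (Finset.sum_le_sum fun i _ => ?_)
    rw [e1, e2]
    have e3 : mom χ (u i) (u j) - M * mom ζ (u i) (u j) -
        ((∫ z, χ z / z.im ^ 2) - M * ∫ z, ζ z / z.im ^ 2) =
        (mom χ (u i) (u j) - ∫ z, χ z / z.im ^ 2) -
          M * (mom ζ (u i) (u j) - ∫ z, ζ z / z.im ^ 2) := by ring
    rw [e3]
    refine (abs_sub _ _).trans ?_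
    rw [abs_mul, abs_of_nonneg hM0]
  refine k1.trans ?_
  rw [Finset.sum_add_distrib, ← Finset.mul_sum]
  have h4 := mul_le_mul_of_nonneg_left h2 hM0
  have h5 : M * (ε / (2 * (M + 1)) * t j ^ 2) ≤ ε / 2 * t j ^ 2 := by
    have : M * (ε / (2 * (M + 1))) ≤ ε / 2 := by
      rw [mul_div_assoc', div_le_div_iff₀ (by positivity) (by norm_num)]
      nlinarith
    have := mul_le_mul_of_nonneg_right this (sq_nonneg (t j))
    linarith
  linarith

/-- all forms with `t_i ≤ b t_j`, arbitrary test functions -/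
lemma all_full {t : ℕ → ℝ} (ht : Tendsto t atTop atTop) {u : ℕ → ℂ → ℝ}
    (hu : ∀ j, Eig (t j) (u j)) (hq : QUE t u) {ψ : ℂ → ℝ} (hψ : TF HH ψ) {Z : Set ℂ}
    (hZ : IsOpen (HH \ Z)) (hZ0 : volume Z = 0) (hW : LocalWeyl t ht u Z) (b : ℝ) {ε : ℝ}
    (hε : 0 < ε) :
    ∀ᶠ j in atTop, ∑ i ∈ upto t ht (b * t j), |mom ψ (u i) (u j) - ∫ z, ψ z / z.im ^ 2| ≤
      ε * t j ^ 2 := by
  have HHo := Pool.Agent.Results.MP_a28cf0_nt.JointFourthLowerBound.HHo
  obtain ⟨L1, hL1, s1, s2⟩ := exists_compact_between hψ.2.1 HHo hψ.2.2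
  obtain ⟨M, hM0, hM⟩ : ∃ M : ℝ, 0 ≤ M ∧ ∀ z, |ψ z| ≤ M := by
    obtain ⟨M, hM⟩ := hψ.2.1.exists_bound_of_continuous hψ.1.continuous
    exact ⟨M, (norm_nonneg _).trans (hM 0), hM⟩
  obtain ⟨Y, hY0, hY⟩ : ∃ Y : ℝ, 0 ≤ Y ∧ ∀ z ∈ L1, (z.im ^ 2)⁻¹ ≤ Y := by
    have c : ContinuousOn (fun z : ℂ => (z.im ^ 2)⁻¹) L1 :=
      ContinuousOn.inv₀ (continuous_im.pow 2).continuousOn fun z hz =>
        pow_ne_zero 2 (ne_of_gt (s2 hz))
    obtain ⟨Y, hY⟩ := hL1.exists_bound_of_continuousOn c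
    exact ⟨|Y|, abs_nonneg _, fun z hz => (le_abs_self _).trans ((hY z hz).trans (le_abs_self _))⟩
  obtain ⟨c, hc, hN, -, hU⟩ := id hW
  obtain ⟨C, hC0, hC⟩ : ∃ C : ℝ, 0 ≤ C ∧ ∀ᶠ T : ℝ in atTop, ∀ z ∈ L1,
      ∑ i ∈ upto t ht T, u i z ^ 2 ≤ C * T ^ 2 := by
    obtain ⟨C, hC⟩ := hU L1 hL1 s2
    refine ⟨|C|, abs_nonneg _, hC.mono fun T hT z hz => (hT z hz).trans ?_⟩
    exact mul_le_mul_of_nonneg_right (le_abs_self _) (sq_nonneg _)
  obtain ⟨B, hB⟩ : ∃ B, B = max b 2 := ⟨_, rfl⟩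
  have B2 : 2 ≤ B := by rw [hB]; exact le_max_right _ _
  have B0 : 0 < B := by linarith
  have bB : b ≤ B := by rw [hB]; exact le_max_left _ _
  obtain ⟨D, hD⟩ : ∃ D : ℝ, D = M * B ^ 2 * (2 * C + c + 1) := ⟨_, rfl⟩
  have D0 : 0 ≤ D := by rw [hD]; positivity
  obtain ⟨κ, κ0, hκ⟩ : ∃ κ : ℝ, 0 < κ ∧ κ * D ≤ ε / 2 := by
    refine ⟨ε / (2 * (D + 1)), by positivity, ?_⟩
    rw [div_mul_eq_mul_div, div_le_div_iff₀ (by positivity) (by norm_num)]
    nlinarith
  -- a small neighbourhood of the exceptional set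
  obtain ⟨U, hU1, hUo, hUv⟩ : ∃ U : Set ℂ, tsupport ψ ∩ Z ⊆ U ∧ IsOpen U ∧
      volume U < ENNReal.ofReal (κ / (Y + 1)) := by
    refine Set.exists_isOpen_lt_of_lt _ _ ?_
    rw [measure_mono_null Set.inter_subset_right hZ0]
    exact ENNReal.ofReal_pos.2 (by positivity)
  have K0c : IsCompact (tsupport ψ ∩ Z) := by
    have e : tsupport ψ ∩ Z = tsupport ψ ∩ (HH \ Z)ᶜ := by
      ext z
      constructor
      · rintro ⟨h1, h2⟩
        exact ⟨h1, fun h3 => h3.2 h2⟩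
      · rintro ⟨h1, h2⟩
        refine ⟨h1, ?_⟩
        by_contra h3
        exact h2 ⟨hψ.2.2 h1, h3⟩
    rw [e]
    exact hψ.2.1.isCompact.inter_right hZ.isClosed_compl
  have Vo : IsOpen (U ∩ interior L1) := hUo.inter isOpen_interior
  have KV : tsupport ψ ∩ Z ⊆ U ∩ interior L1 := fun z hz => ⟨hU1 hz, s1 hz.1⟩
  obtain ⟨L2, hL2, s3, s4⟩ := exists_compact_between K0c Vo KV
  obtain ⟨ζ, hζV, hζ0, hζl, hζ1⟩ := Pool.Agent.Y265.RW.cutoff Vo hL2 s4
  have hζ : TF HH ζ := ⟨hζV.1, hζV.2.1,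
    hζV.2.2.trans ((Set.inter_subset_right.trans interior_subset).trans s2)⟩
  have hζL : tsupport ζ ⊆ L1 := hζV.2.2.trans (Set.inter_subset_right.trans interior_subset)
  have mζ0 : 0 ≤ ∫ z, ζ z / z.im ^ 2 :=
    integral_nonneg fun z => div_nonneg (hζ0 z) (sq_nonneg _)
  have iζ := int_mom hζ (F := fun _ => 1) continuousOn_const
  simp only [mul_one] at iζ
  have mζ : ∫ z, ζ z / z.im ^ 2 ≤ κ := by
    have fin : volume (U ∩ interior L1) ≠ ⊤ :=
      ne_top_of_le_ne_top ENNReal.ofReal_ne_top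
        ((measure_mono Set.inter_subset_left).trans hUv.le)
    have h1 : ∫ z, ζ z / z.im ^ 2 ≤ ∫ z, (U ∩ interior L1).indicator (fun _ => Y) z := by
      refine integral_mono iζ ?_ fun z => ?_
      · exact (integrable_indicator_iff Vo.measurableSet).2 (integrableOn_const fin)
      · by_cases hz : z ∈ U ∩ interior L1
        · rw [Set.indicator_of_mem hz]
          show ζ z / z.im ^ 2 ≤ Y
          rw [div_eq_mul_inv]
          have g1 := hY z (interior_subset hz.2)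
          have g2 : 0 ≤ (z.im ^ 2)⁻¹ := inv_nonneg.2 (sq_nonneg _)
          have g3 := mul_le_mul_of_nonneg_right (hζl z) g2
          linarith
        · rw [Set.indicator_of_notMem hz]
          show ζ z / z.im ^ 2 ≤ 0
          rw [image_eq_zero_of_notMem_tsupport fun h => hz (hζV.2.2 h), zero_div]
    rw [integral_indicator_const _ Vo.measurableSet, smul_eq_mul] at h1
    have h2 : volume.real (U ∩ interior L1) ≤ κ / (Y + 1) :=
      ENNReal.toReal_le_of_le_ofReal (by positivity)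
        ((measure_mono Set.inter_subset_left).trans hUv.le)
    have h3 := mul_le_mul_of_nonneg_right h2 hY0
    have h4 : κ / (Y + 1) * Y ≤ κ := by
      rw [div_mul_eq_mul_div, div_le_iff₀ (by positivity)]
      nlinarith
    linarith
  -- the two parts of the test function
  have hψ1 : TF (HH \ Z) (fun z => ψ z * (1 - ζ z)) := by
    refine ⟨hψ.1.mul (contDiff_const.sub hζ.1), hψ.2.1.mul_right, ?_⟩
    intro z hz
    have z1 : z ∈ tsupport ψ := tsupport_mul_subset_left hz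
    refine ⟨hψ.2.2 z1, fun z2 => ?_⟩
    have z3 : z ∈ interior L2 := s3 ⟨z1, z2⟩
    have z4 : z ∈ closure (Function.support fun z => ψ z * (1 - ζ z)) := hz
    rw [mem_closure_iff] at z4
    obtain ⟨w, w1, w2⟩ := z4 _ isOpen_interior z3
    refine w2 ?_
    show ψ w * (1 - ζ w) = 0
    rw [hζ1 w (interior_subset w1)]; ring
  have hψ1' : TF HH (fun z => ψ z * (1 - ζ z)) :=
    ⟨hψ1.1, hψ1.2.1, hψ1.2.2.trans Set.sdiff_subset⟩
  have hψ2 : TF HH (fun z => ψ z * ζ z) := by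
    refine ⟨hψ.1.mul hζ.1, hψ.2.1.mul_right, ?_⟩
    exact (tsupport_mul_subset_left (f := ψ) (g := ζ)).trans hψ.2.2
  have e1 : ∫ z, ψ z / z.im ^ 2 = (∫ z, ψ z * (1 - ζ z) / z.im ^ 2) +
      ∫ z, ψ z * ζ z / z.im ^ 2 := by
    have i1 := int_mom hψ1' (F := fun _ => 1) continuousOn_const
    have i2 := int_mom hψ2 (F := fun _ => 1) continuousOn_const
    simp only [mul_one] at i1 i2
    rw [← integral_add i1 i2]
    congr 1; funext z
    ring
  have e2 : ∀ i j, mom ψ (u i) (u j) = mom (fun z => ψ z * (1 - ζ z)) (u i) (u j) +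
      mom (fun z => ψ z * ζ z) (u i) (u j) := by
    intro i j
    have cc : ContinuousOn (fun z => u i z ^ 2 * u j z ^ 2) HH :=
      ((hu i).1.continuousOn.pow 2).mul ((hu j).1.continuousOn.pow 2)
    have i1 := int_mom hψ1' cc
    have i2 := int_mom hψ2 cc
    unfold mom
    rw [← integral_add i1 i2]
    congr 1; funext z
    ring
  have e3 : |∫ z, ψ z * ζ z / z.im ^ 2| ≤ M * κ := by
    have h1 : |∫ z, ψ z * ζ z / z.im ^ 2| ≤ ∫ z, M * (ζ z / z.im ^ 2) := by
      rw [← Real.norm_eq_abs]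
      refine norm_integral_le_of_norm_le (iζ.const_mul M) (Eventually.of_forall fun z => ?_)
      rw [Real.norm_eq_abs, abs_div, abs_mul, abs_of_nonneg (hζ0 z),
        abs_of_nonneg (sq_nonneg z.im), mul_div_assoc]
      exact mul_le_mul_of_nonneg_right (hM z) (div_nonneg (hζ0 z) (sq_nonneg _))
    rw [integral_const_mul] at h1
    exact h1.trans (mul_le_mul_of_nonneg_left mζ hM0)
  have e4 : ∀ i j, |mom (fun z => ψ z * ζ z) (u i) (u j)| ≤ M * mom ζ (u i) (u j) := by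
    intro i j
    have cc : ContinuousOn (fun z => u i z ^ 2 * u j z ^ 2) HH :=
      ((hu i).1.continuousOn.pow 2).mul ((hu j).1.continuousOn.pow 2)
    have i2 := int_mom hζ cc
    unfold mom
    rw [← integral_const_mul, ← Real.norm_eq_abs]
    refine norm_integral_le_of_norm_le (i2.const_mul M) (Eventually.of_forall fun z => ?_)
    have p : 0 ≤ u i z ^ 2 * u j z ^ 2 := by positivity
    rw [Real.norm_eq_abs, abs_div, abs_mul, abs_mul, abs_of_nonneg (hζ0 z),
      abs_of_nonneg (sq_nonneg z.im), abs_of_nonneg p]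
    have h1 := mul_le_mul_of_nonneg_right (hM z)
      (show 0 ≤ ζ z * (u i z ^ 2 * u j z ^ 2) / z.im ^ 2 from
        div_nonneg (mul_nonneg (hζ0 z) p) (sq_nonneg _))
    calc _ = |ψ z| * (ζ z * (u i z ^ 2 * u j z ^ 2) / z.im ^ 2) := by ring
      _ ≤ _ := h1
  have tm := two_mom hq hζ
  have tB : Tendsto (fun j => B * t j) atTop atTop := ht.const_mul_atTop B0
  filter_upwards [all_gen ht hu hq hZ hψ1 hW B (show 0 < ε / 2 by positivity),
    tm.eventually (gt_mem_nhds (show (∫ z, ζ z / z.im ^ 2) < 2 * κ by linarith)),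
    tB.eventually hC, tB.eventually (hN.eventually (gt_mem_nhds (show c < c + 1 by linarith))),
    ht.eventually_gt_atTop 0] with j h1 h2 h3 h4 h5
  have BT : 0 < B * t j := mul_pos B0 h5
  have sub : upto t ht (b * t j) ⊆ upto t ht (B * t j) := by
    intro i hi
    rw [mem_upto] at hi ⊢
    exact hi.trans (mul_le_mul_of_nonneg_right bB h5.le)
  rw [div_lt_iff₀ (by positivity)] at h4
  have k1 : ∑ i ∈ upto t ht (b * t j), |mom ψ (u i) (u j) - ∫ z, ψ z / z.im ^ 2| ≤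
      ∑ i ∈ upto t ht (B * t j), (|mom (fun z => ψ z * (1 - ζ z)) (u i) (u j) -
        ∫ z, ψ z * (1 - ζ z) / z.im ^ 2| + (M * mom ζ (u i) (u j) + M * κ)) := by
    refine (Finset.sum_le_sum_of_subset_of_nonneg sub fun i _ _ => abs_nonneg _).trans
      (Finset.sum_le_sum fun i _ => ?_)
    rw [e1, e2]
    have e5 : mom (fun z => ψ z * (1 - ζ z)) (u i) (u j) + mom (fun z => ψ z * ζ z) (u i) (u j) -
        ((∫ z, ψ z * (1 - ζ z) / z.im ^ 2) + ∫ z, ψ z * ζ z / z.im ^ 2) =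
        (mom (fun z => ψ z * (1 - ζ z)) (u i) (u j) - ∫ z, ψ z * (1 - ζ z) / z.im ^ 2) +
          (mom (fun z => ψ z * ζ z) (u i) (u j) - ∫ z, ψ z * ζ z / z.im ^ 2) := by ring
    rw [e5]
    refine (abs_add_le _ _).trans (add_le_add le_rfl ((abs_sub _ _).trans ?_))
    exact add_le_add (e4 i j) e3
  refine k1.trans ?_
  rw [Finset.sum_add_distrib, Finset.sum_add_distrib, ← Finset.mul_sum, Finset.sum_const,
    nsmul_eq_mul]
  have k2 := sum_mom hu hζ hζ0 (F := upto t ht (B * t j)) (X := C * (B * t j) ^ 2) j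
    (fun z hz => h3 z (hζL hz))
  have k3 : C * (B * t j) ^ 2 * (∫ z, ζ z * u j z ^ 2 / z.im ^ 2) ≤
      C * (B * t j) ^ 2 * (2 * κ) := mul_le_mul_of_nonneg_left h2.le (by positivity)
  have k4 := mul_le_mul_of_nonneg_left (k2.trans k3) hM0
  have k5 := mul_le_mul_of_nonneg_right h4.le (show 0 ≤ M * κ by positivity)
  have k6 : M * (C * (B * t j) ^ 2 * (2 * κ)) + (c + 1) * (B * t j) ^ 2 * (M * κ) =
      κ * D * t j ^ 2 := by rw [hD]; ring
  have k7 := mul_le_mul_of_nonneg_right hκ (sq_nonneg (t j))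
  linarith

/-- **Result.** Let `u j` be real eigenfunctions of the hyperbolic Laplacian on the upper half plane
with spectral parameters `t j → ∞`, which satisfy microlocal quantum unique ergodicity and, outside
of a null set `Z` (relatively closed in the upper half plane), the local Weyl law in microlocal form.
Let `ψ` be a test function and `0 ≤ a < b`. Then, as `j → ∞`:

(1) the average of `|∫ ψ u_i² u_j² dμ - ∫ ψ dμ|` over the forms `u i` with `a t_j < t_i ≤ b t_j`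
tends to `0`;

(2) for every `ε > 0`, the proportion of the forms `u i` with `|∫ ψ u_i² u_j² dμ - ∫ ψ dμ| > ε`
among those with `a t_j < t_i ≤ b t_j` tends to `0`. -/
theorem result (t : ℕ → ℝ) (ht : Tendsto t atTop atTop) (u : ℕ → ℂ → ℝ)
    (hu : ∀ j, Eig (t j) (u j)) (hq : QUE t u) (Z : Set ℂ) (hZ : IsOpen (HH \ Z))
    (hZ0 : volume Z = 0) (hW : LocalWeyl t ht u Z) (ψ : ℂ → ℝ) (hψ : TF HH ψ) (a b : ℝ)
    (ha : 0 ≤ a) (hab : a < b) :
    Tendsto (fun j => (∑ i ∈ win t ht (a * t j) (b * t j),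
      |mom ψ (u i) (u j) - ∫ z, ψ z / z.im ^ 2|) / (win t ht (a * t j) (b * t j)).card) atTop
      (𝓝 0) ∧
    ∀ ε : ℝ, 0 < ε → Tendsto (fun j => (Finset.card {i ∈ win t ht (a * t j) (b * t j) |
      ε < |mom ψ (u i) (u j) - ∫ z, ψ z / z.im ^ 2|} : ℝ) /
        (win t ht (a * t j) (b * t j)).card) atTop (𝓝 0) := by
  classical
  have hb : 0 < b := lt_of_le_of_lt ha hab
  -- many forms in the window
  obtain ⟨x, x0, hx⟩ : ∃ x : ℝ, 0 < x ∧ ∀ᶠ j in atTop,
      x * t j ^ 2 ≤ (win t ht (a * t j) (b * t j)).card := by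
    obtain ⟨c, hc, h1, -⟩ := hW
    obtain ⟨a', e1, e2, e3⟩ : ∃ a' : ℝ, 0 < a' ∧ a ≤ a' ∧ a' < b :=
      ⟨max a (b / 2), lt_max_of_lt_right (by positivity), le_max_left _ _,
        max_lt hab (by linarith)⟩
    have pp : 0 < (b ^ 2 - a' ^ 2) * c := mul_pos (by nlinarith) hc
    refine ⟨(b ^ 2 - a' ^ 2) * c / 2, by positivity, ?_⟩
    filter_upwards [win_card ht h1 e1 e3 (show 0 < (b ^ 2 - a' ^ 2) * c / 2 by positivity),
      ht.eventually_gt_atTop 0] with j g1 g2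
    have g3 := (abs_le.1 g1).1
    have g4 : (b ^ 2 - a' ^ 2) * c / 2 ≤
        ((win t ht (a' * t j) (b * t j)).card : ℝ) / t j ^ 2 := by linarith
    rw [le_div_iff₀ (by positivity)] at g4
    have sub : win t ht (a' * t j) (b * t j) ⊆ win t ht (a * t j) (b * t j) := by
      intro i hi
      rw [mem_win] at hi ⊢
      exact ⟨hi.1, lt_of_le_of_lt (mul_le_mul_of_nonneg_right e2 g2.le) hi.2⟩
    have g5 : ((win t ht (a' * t j) (b * t j)).card : ℝ) ≤
        (win t ht (a * t j) (b * t j)).card := by exact_mod_cast Finset.card_le_card sub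
    exact g4.trans g5
  have key : ∀ ε : ℝ, 0 < ε → ∀ᶠ j in atTop, 0 < ((win t ht (a * t j) (b * t j)).card : ℝ) ∧
      ∑ i ∈ win t ht (a * t j) (b * t j), |mom ψ (u i) (u j) - ∫ z, ψ z / z.im ^ 2| ≤
        ε * (win t ht (a * t j) (b * t j)).card := by
    intro ε hε
    filter_upwards [all_full ht hu hq hψ hZ hZ0 hW b (show 0 < ε * x by positivity), hx,
      ht.eventually_gt_atTop 0] with j g1 g2 g3
    refine ⟨lt_of_lt_of_le (by positivity) g2, ?_⟩
    have sub : win t ht (a * t j) (b * t j) ⊆ upto t ht (b * t j) := by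
      intro i hi
      rw [mem_win] at hi
      rw [mem_upto]
      exact hi.1
    have g4 := Finset.sum_le_sum_of_subset_of_nonneg sub
      (f := fun i => |mom ψ (u i) (u j) - ∫ z, ψ z / z.im ^ 2|) fun i _ _ => abs_nonneg _
    have g5 := mul_le_mul_of_nonneg_left g2 hε.le
    linarith
  constructor
  · rw [Metric.tendsto_atTop]
    intro ε hε
    obtain ⟨N, hN⟩ := eventually_atTop.1 (key (ε / 2) (by positivity))
    refine ⟨N, fun j hj => ?_⟩
    obtain ⟨g1, g2⟩ := hN j hj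
    rw [Real.dist_eq, sub_zero, abs_of_nonneg (div_nonneg (Finset.sum_nonneg fun i _ =>
      abs_nonneg _) g1.le), div_lt_iff₀ g1]
    nlinarith
  · intro ε hε
    rw [Metric.tendsto_atTop]
    intro ε' hε'
    obtain ⟨N, hN⟩ := eventually_atTop.1 (key (ε * ε' / 2) (by positivity))
    refine ⟨N, fun j hj => ?_⟩
    obtain ⟨g1, g2⟩ := hN j hj
    rw [Real.dist_eq, sub_zero, abs_of_nonneg (div_nonneg (Nat.cast_nonneg _) g1.le),
      div_lt_iff₀ g1]
    have g3 : ε * (Finset.card {i ∈ win t ht (a * t j) (b * t j) |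
        ε < |mom ψ (u i) (u j) - ∫ z, ψ z / z.im ^ 2|} : ℝ) ≤
        ∑ i ∈ win t ht (a * t j) (b * t j), |mom ψ (u i) (u j) - ∫ z, ψ z / z.im ^ 2| := by
      have g3 : ∑ i ∈ {i ∈ win t ht (a * t j) (b * t j) |
          ε < |mom ψ (u i) (u j) - ∫ z, ψ z / z.im ^ 2|}, ε ≤
          ∑ i ∈ {i ∈ win t ht (a * t j) (b * t j) |
            ε < |mom ψ (u i) (u j) - ∫ z, ψ z / z.im ^ 2|},
            |mom ψ (u i) (u j) - ∫ z, ψ z / z.im ^ 2| :=
        Finset.sum_le_sum fun i hi => (Finset.mem_filter.1 hi).2.le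
      rw [Finset.sum_const, nsmul_eq_mul, mul_comm] at g3
      exact g3.trans (Finset.sum_le_sum_of_subset_of_nonneg (Finset.filter_subset _ _)
        fun i _ _ => abs_nonneg _)
    have g4 : ε * ε' / 2 * ((win t ht (a * t j) (b * t j)).card : ℝ) <
        ε * (ε' * (win t ht (a * t j) (b * t j)).card) := by
      have : 0 < ε * ε' * ((win t ht (a * t j) (b * t j)).card : ℝ) := by positivity
      linarith
    exact lt_of_mul_lt_mul_left (lt_of_le_of_lt (g3.trans g2) g4) hε.le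

end Pool.Agent.Results.MP_a28cf0_nt.AlmostAllJointMoments
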