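import Pool.Agent.Results.MP_a28cf0_nt.AlmostAllJointMoments
import Pool.Agent.J4H76.AP.One2

/-!
# The joint moment `∫ ψ f² g² dμ` for almost all forms `f` in short windows (MP_a28cf0_nt)

The plane is `ℂ`, with the upper half plane `HH` and `dμ = dx dy / y²`. The definitions `HH`, `Eig`
(real eigenfunction with spectral parameter `t`), `QUE` (microlocal quantum unique ergodicity),
`mom ψ f g = ∫ ψ f² g² dμ` are those of the file `JointFourthLowerBound`, the definitions `win` (the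
indices `i` with `T < t i ≤ T'`) and `WF` (the normalised frame derivatives) those of the file
`AlmostAllJointMoments`; `TF U φ` says that `φ : ℂ → ℝ` is smooth with compact support contained in
`U`.

The file `AlmostAllJointMoments` considers windows `a t_j < t_i ≤ b t_j`, and assumes the local Weyl
law. Here windows `x t_j < t_i ≤ x t_j + A` of bounded length `A` are considered, including `x = 1`
(they contain only about `A t_j` of the `t_j²` forms), and the local Weyl law is assumed in windows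
of bounded length: for the Hecke-Maass cusp forms of the modular surface, and `Z` the set of the elliptic
points, this is known (Hörmander's bound `O(T)` for the remainder of the spectral function, and
subconvex pointwise bounds for the Eisenstein series).

The theorem says that, for every form `g = u j`, the conjectured asymptotic of `∫ ψ f² g² dμ` holds
for almost all forms `f` in each spectral window whose length is a large constant and whose ratio to
the parameter of `g` stays away from `0` and `∞`. The case in which this ratio tends to `1` needs an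
argument of its own, see `Pool/Agent/J4H76/AP/One.lean` and `One2.lean`.
-/

set_option autoImplicit false
open MeasureTheory Filter Topology Complex
open scoped ContDiff

namespace Pool.Agent.Results.MP_a28cf0_nt.AlmostAllShortWindows

open Pool.Agent.W745.RW (TF dx dy)
open Pool.Agent.Results.MP_a28cf0_nt.JointFourthLowerBound (HH ev Eig RO QUE mom)
open Pool.Agent.Results.MP_a28cf0_nt.AlmostAllJointMoments (win WF mem_win int_mom sum_mom two_mom
  shrink JI_re WF_eq top_of)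

/-- local Weyl law in microlocal form, in windows of bounded length: for all compact `K ⊆ HH \ Z`,
all `k, l` and `η > 0`, and all sufficiently large `A`, for all sufficiently large `T` there are `i`
with `T < t i ≤ T + A`, and the average of `W_k(u i)(z) * conj (W_l(u i)(z))` over them differs by at
most `η` from `1` if `k = l`, from `0` if `k ≠ l`, for all `z ∈ K`; and for all compact `K ⊆ HH` the
average of the `u i z ^ 2` is bounded by a constant, for `z ∈ K`, `A` large, and `T` large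
depending on `A` -/
def WindowWeyl (t : ℕ → ℝ) (ht : Tendsto t atTop atTop) (u : ℕ → ℂ → ℝ) (Z : Set ℂ) : Prop :=
  (∀ K : Set ℂ, IsCompact K → K ⊆ HH \ Z → ∀ k l : ℤ, ∀ η : ℝ, 0 < η →
    ∀ᶠ A : ℝ in atTop, ∀ᶠ T : ℝ in atTop, (win t ht T (T + A)).Nonempty ∧ ∀ z ∈ K,
      ‖(∑ i ∈ win t ht T (T + A), WF (ev (t i)) (u i) k z *
        (starRingEnd ℂ) (WF (ev (t i)) (u i) l z)) / ((win t ht T (T + A)).card : ℂ) -
          (if k = l then 1 else 0)‖ ≤ η) ∧
  ∀ K : Set ℂ, IsCompact K → K ⊆ HH → ∃ C : ℝ, ∀ᶠ A : ℝ in atTop, ∀ᶠ T : ℝ in atTop, ∀ z ∈ K,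
    ∑ i ∈ win t ht T (T + A), u i z ^ 2 ≤ C * (win t ht T (T + A)).card

section
variable {t : ℕ → ℝ} (ht : Tendsto t atTop atTop) {u : ℕ → ℂ → ℝ} (hu : ∀ j, Eig (t j) (u j))
  (hq : QUE t u) {ψ : ℂ → ℝ} (hψ : TF HH ψ) (hψ0 : ∀ z, 0 ≤ ψ z)
include ht hu hq hψ hψ0

/-- the averages over sets of forms with almost the same spectral parameter as `u (σ n)` -/
lemma one0 {σ : ℕ → ℕ} (hσ : Tendsto σ atTop atTop) {F : ℕ → Finset ℕ}
    (hF : ∀ n, (F n).Nonempty) {α : ℝ} (h0 : 0 < α) (h1 : α = 1) (C : ℝ)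
    (hC : ∀ n, ∀ i ∈ F n, 1 / √(ev (t i)) ≤ C * (1 / √(ev (t (σ n)))) ∧
      1 / √(ev (t (σ n))) ≤ C * (1 / √(ev (t i))))
    (hr : ∀ θ : ℕ → ℕ, (∀ n, θ n ∈ F n) → Tendsto (fun n => t (θ n) / t (σ n)) atTop (𝓝 α))
    (hW : ∀ k l : ℤ, ∀ η : ℝ, 0 < η → ∀ᶠ n in atTop, ∀ z ∈ tsupport ψ,
      ‖(∑ i ∈ F n, WF (ev (t i)) (u i) k z * (starRingEnd ℂ) (WF (ev (t i)) (u i) l z)) /
        ((F n).card : ℂ) - (if k = l then 1 else 0)‖ ≤ η) :
    Tendsto (fun n => (∑ i ∈ F n, |mom ψ (u i) (u (σ n)) - ∫ z, ψ z / z.im ^ 2|) / (F n).card)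
      atTop (𝓝 0) := by
  have tθ : ∀ θ : ℕ → ℕ, (∀ n, θ n ∈ F n) → Tendsto (fun n => t (θ n)) atTop atTop := by
    intro θ hθ
    have h2 := (hr θ hθ).pos_mul_atTop h0 (ht.comp hσ)
    refine h2.congr' ?_
    filter_upwards [(ht.comp hσ).eventually_gt_atTop 0] with n hn
    have hn' : t (σ n) ≠ 0 := ne_of_gt hn
    simp only [Function.comp_apply]
    field_simp
  obtain ⟨S, -⟩ := Pool.Agent.Results.MP_a28cf0_nt.JointFourthLowerBound.sys ht hu hq
  obtain ⟨S', E'⟩ := Pool.Agent.Results.MP_a28cf0_nt.JointFourthLowerBound.sys (ht.comp hσ)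
    (f := fun n => u (σ n)) (fun n => hu _) (hq.sub hσ)
  have key := Pool.Agent.J4H76.AP.avg_one (F := F) S S' E' (fun z hz => hz)
    (Pool.Agent.Results.MP_a28cf0_nt.JointFourthLowerBound.tf_mul hψ)
    (fun z => mul_nonneg (hψ0 z) (inv_nonneg.2 (sq_nonneg _))) hF ?_ (C := C) hC ?_ ?_
  · refine key.congr fun n => ?_
    congr 1
    refine Finset.sum_congr rfl fun i _ => ?_
    have e := JI_re t (fun n => t (σ n)) u (fun n => u (σ n)) ψ i n
    rw [← e]; rfl
  · intro k l η hη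
    filter_upwards [hW k l η hη] with n hn z hz
    have hz' : z ∈ tsupport ψ := tsupport_mul_subset_left hz
    have h2 := hn z hz'
    simp only [WF_eq]
    exact h2
  · intro θ hθ
    have t1 := tθ θ hθ
    have t2 := top_of t1
    have h2 := Pool.Agent.Results.MP_a28cf0_nt.JointFourthLowerBound.sys t1
      (f := fun n => u (θ n)) (fun n => hu _) (hq.sub t2)
    have e : (fun (k : ℤ) (n : ℕ) => Pool.Agent.TH294.RS.ww Complex.im
        (fun i => 1 / √(ev (t i))) (fun i z => (u i z : ℂ)) k (θ n)) =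
        Pool.Agent.TH294.RS.ww Complex.im (fun n => 1 / √(ev (t (θ n))))
          (fun n z => (u (θ n) z : ℂ)) := by
      funext k n
      exact (Pool.Agent.TH294.RG.ww_sub Complex.im (fun i => 1 / √(ev (t i)))
        (fun i z => (u i z : ℂ)) θ k n).symm
    rw [e]
    exact h2
  · intro η hη
    have := Pool.Agent.J4H76.AP.worst (G := fun i n => (((1 / √(ev (t i))) /
      (1 / √(ev (t (σ n)))) - 1 : ℝ) : ℂ)) hF ?_ η hη
    · filter_upwards [this] with n hn i hi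
      have h2 := hn i hi
      rw [Complex.norm_real, Real.norm_eq_abs] at h2
      exact h2
    · intro θ hθ
      have h4 : Tendsto (fun n => t (σ n) / t (θ n)) atTop (𝓝 1) := by
        have h5 := (hr θ hθ).inv₀ h0.ne'
        rw [h1, inv_one] at h5
        refine h5.congr fun n => ?_
        rw [inv_div]
      have h2 := Pool.Agent.Results.MP_a28cf0_nt.JointFourthLowerBound.ratio
        (tθ θ hθ) (ht.comp hσ) h4
      have h3 := (Complex.continuous_ofReal.tendsto _).comp (h2.sub_const 1)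
      rw [sub_self, ofReal_zero] at h3
      exact h3

/-- the averages over sets of forms with almost the same spectral parameter as `u (σ n)` -/
lemma one {σ : ℕ → ℕ} (hσ : Tendsto σ atTop atTop) {F : ℕ → Finset ℕ}
    (hF : ∀ n, (F n).Nonempty) {α : ℝ} (h0 : 0 < α) (h1 : α = 1)
    (hr : ∀ η : ℝ, 0 < η → ∀ᶠ n in atTop, ∀ i ∈ F n, |t i / t (σ n) - α| ≤ η)
    (hW : ∀ k l : ℤ, ∀ η : ℝ, 0 < η → ∀ᶠ n in atTop, ∀ z ∈ tsupport ψ,
      ‖(∑ i ∈ F n, WF (ev (t i)) (u i) k z * (starRingEnd ℂ) (WF (ev (t i)) (u i) l z)) /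
        ((F n).card : ℂ) - (if k = l then 1 else 0)‖ ≤ η) :
    Tendsto (fun n => (∑ i ∈ F n, |mom ψ (u i) (u (σ n)) - ∫ z, ψ z / z.im ^ 2|) / (F n).card)
      atTop (𝓝 0) := by
  -- the ratios along sequences
  have hr' : ∀ θ : ℕ → ℕ, (∀ n, θ n ∈ F n) → Tendsto (fun n => t (θ n) / t (σ n)) atTop
      (𝓝 α) := by
    intro θ hθ
    rw [Metric.tendsto_atTop]
    intro η hη
    obtain ⟨N, hN⟩ := eventually_atTop.1 (hr (η / 2) (by positivity))
    refine ⟨N, fun n hn => ?_⟩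
    rw [Real.dist_eq]
    have := hN n hn _ (hθ n)
    linarith
  have tθ : ∀ θ : ℕ → ℕ, (∀ n, θ n ∈ F n) → Tendsto (fun n => t (θ n)) atTop atTop := by
    intro θ hθ
    have h2 := (hr' θ hθ).pos_mul_atTop h0 (ht.comp hσ)
    refine h2.congr' ?_
    filter_upwards [(ht.comp hσ).eventually_gt_atTop 0] with n hn
    have hn' : t (σ n) ≠ 0 := ne_of_gt hn
    simp only [Function.comp_apply]
    field_simp
  have w1 := Pool.Agent.J4H76.AP.worst (G := fun i n => (((1 / √(ev (t (σ n)))) /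
      (1 / √(ev (t i))) - α : ℝ) : ℂ)) hF (fun θ hθ => by
        have h2 := Pool.Agent.Results.MP_a28cf0_nt.JointFourthLowerBound.ratio (ht.comp hσ)
          (tθ θ hθ) (hr' θ hθ)
        have h3 := (Complex.continuous_ofReal.tendsto _).comp (h2.sub_const α)
        rw [sub_self, ofReal_zero] at h3
        exact h3) 1 one_pos
  have w2 := Pool.Agent.J4H76.AP.worst (G := fun i n => (((1 / √(ev (t i))) /
      (1 / √(ev (t (σ n)))) - 1 / α : ℝ) : ℂ)) hF (fun θ hθ => by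
        have h4 : Tendsto (fun n => t (σ n) / t (θ n)) atTop (𝓝 (1 / α)) := by
          have h5 := (hr' θ hθ).inv₀ h0.ne'
          rw [← one_div] at h5
          refine h5.congr fun n => ?_
          rw [inv_div]
        have h2 := Pool.Agent.Results.MP_a28cf0_nt.JointFourthLowerBound.ratio
          (tθ θ hθ) (ht.comp hσ) h4
        have h3 := (Complex.continuous_ofReal.tendsto _).comp (h2.sub_const (1 / α))
        rw [sub_self, ofReal_zero] at h3
        exact h3) 1 one_pos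
  obtain ⟨n0, hn0⟩ := eventually_atTop.1 (w1.and w2)
  have tn : Tendsto (fun n => n + n0) atTop atTop := tendsto_add_atTop_nat n0
  have pe : ∀ i, 0 < 1 / √(ev (t i)) := fun i =>
    one_div_pos.2 (Real.sqrt_pos.2 (Pool.Agent.Results.MP_a28cf0_nt.JointFourthLowerBound.ev_pos _))
  have key := one0 ht hu hq hψ hψ0 (hσ.comp tn) (F := fun n => F (n + n0)) (fun n => hF _) h0 h1
    (α + 1 / α + 1) ?_ ?_ ?_
  · refine (tendsto_add_atTop_iff_nat n0).1 (key.congr fun n => ?_)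
    rfl
  · intro n i hi
    obtain ⟨a1, a2⟩ := hn0 (n + n0) (Nat.le_add_left _ _)
    have b1 := a1 i hi
    have b2 := a2 i hi
    rw [Complex.norm_real, Real.norm_eq_abs] at b1 b2
    have c1 := (abs_le.1 b1).2
    have c2 := (abs_le.1 b2).2
    have p1 := pe i
    have p2 := pe (σ (n + n0))
    have α0 : 0 < 1 / α := by positivity
    constructor
    · have d : 1 / √(ev (t i)) / (1 / √(ev (t (σ (n + n0))))) ≤ α + 1 / α + 1 := by linarith
      exact (div_le_iff₀ p2).1 d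
    · have d : 1 / √(ev (t (σ (n + n0)))) / (1 / √(ev (t i))) ≤ α + 1 / α + 1 := by linarith
      exact (div_le_iff₀ p1).1 d
  · intro θ hθ
    -- extend `θ`
    choose θ' hθ' using hF
    have h2 := hr' (fun n => if n0 ≤ n then θ (n - n0) else θ' n) (fun n => by
      show (if n0 ≤ n then θ (n - n0) else θ' n) ∈ F n
      split_ifs with h
      · have := hθ (n - n0)
        rwa [Nat.sub_add_cancel h] at this
      · exact hθ' n)
    refine (h2.comp tn).congr fun n => ?_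
    simp only [Function.comp_apply, Nat.le_add_left, if_true, Nat.add_sub_cancel]
  · intro k l η hη
    exact tn.eventually (hW k l η hη)

end

section
variable {ι : Type} {f : Filter ι} {t : ℕ → ℝ} {u : ℕ → ℂ → ℝ} (hu : ∀ j, Eig (t j) (u j))
  {Z : Set ℂ} (hZ : IsOpen (HH \ Z)) {σ : ι → ℕ} {F : ι → Finset ℕ} {s : ι → ℝ}
  (hs : ∀ᶠ n in f, 0 ≤ s n)
  (h1 : ∀ χ : ℂ → ℝ, TF (HH \ Z) χ → (∀ z, 0 ≤ χ z) → ∀ ε : ℝ, 0 < ε → ∀ᶠ n in f,
      ∑ i ∈ F n, |mom χ (u i) (u (σ n)) - ∫ z, χ z / z.im ^ 2| ≤ ε * s n)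
include hu hZ hs h1

/-- from nonnegative test functions to arbitrary ones, outside of `Z` -/
lemma ext0 {ψ : ℂ → ℝ} (hψZ : TF (HH \ Z) ψ) {ε : ℝ} (hε : 0 < ε) :
    ∀ᶠ n in f, ∑ i ∈ F n, |mom ψ (u i) (u (σ n)) - ∫ z, ψ z / z.im ^ 2| ≤ ε * s n := by
  have hψ : TF HH ψ := ⟨hψZ.1, hψZ.2.1, hψZ.2.2.trans Set.sdiff_subset⟩
  obtain ⟨ζ, hζZ, hζ0, -, hζ1⟩ := Pool.Agent.Y265.RW.cutoff hZ hψZ.2.1 hψZ.2.2
  have hζ : TF HH ζ := ⟨hζZ.1, hζZ.2.1, hζZ.2.2.trans Set.sdiff_subset⟩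
  obtain ⟨M, hM0, hM⟩ : ∃ M : ℝ, 0 ≤ M ∧ ∀ z, |ψ z| ≤ M := by
    obtain ⟨M, hM⟩ := hψ.2.1.exists_bound_of_continuous hψ.1.continuous
    exact ⟨M, (norm_nonneg _).trans (hM 0), hM⟩
  obtain ⟨χ, hχ⟩ : ∃ χ : ℂ → ℝ, χ = fun z => ψ z + M * ζ z := ⟨_, rfl⟩
  have hχZ : TF (HH \ Z) χ := by
    rw [hχ]
    refine ⟨hψ.1.add (contDiff_const.mul hζ.1), hψ.2.1.add hζ.2.1.mul_left, ?_⟩
    refine (tsupport_add ψ (fun z => M * ζ z)).trans (Set.union_subset hψZ.2.2 ?_)
    exact (tsupport_mul_subset_right (f := fun _ => M) (g := ζ)).trans hζZ.2.2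
  have hχ0 : ∀ z, 0 ≤ χ z := by
    intro z
    rw [hχ]
    show 0 ≤ ψ z + M * ζ z
    by_cases hz : z ∈ tsupport ψ
    · rw [hζ1 z hz, mul_one]
      linarith [(abs_le.1 (hM z)).1]
    · rw [image_eq_zero_of_notMem_tsupport hz, zero_add]
      exact mul_nonneg hM0 (hζ0 z)
  have e1 : ∫ z, ψ z / z.im ^ 2 = (∫ z, χ z / z.im ^ 2) - M * ∫ z, ζ z / z.im ^ 2 := by
    have i1 := int_mom hψ (F := fun _ => 1) continuousOn_const
    have i2 := int_mom hζ (F := fun _ => 1) continuousOn_const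
    simp only [mul_one] at i1 i2
    have : ∫ z, χ z / z.im ^ 2 = (∫ z, ψ z / z.im ^ 2) + M * ∫ z, ζ z / z.im ^ 2 := by
      rw [← integral_const_mul, ← integral_add i1 (i2.const_mul M), hχ]
      congr 1; funext z
      ring
    rw [this]; ring
  have e2 : ∀ i j, mom ψ (u i) (u j) = mom χ (u i) (u j) - M * mom ζ (u i) (u j) := by
    intro i j
    have cc : ContinuousOn (fun z => u i z ^ 2 * u j z ^ 2) HH :=
      ((hu i).1.continuousOn.pow 2).mul ((hu j).1.continuousOn.pow 2)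
    have i1 := int_mom hψ cc
    have i2 := int_mom hζ cc
    have : mom χ (u i) (u j) = mom ψ (u i) (u j) + M * mom ζ (u i) (u j) := by
      unfold mom
      rw [← integral_const_mul, ← integral_add i1 (i2.const_mul M), hχ]
      congr 1; funext z
      ring
    rw [this]; ring
  filter_upwards [h1 χ hχZ hχ0 (ε / 2) (by positivity),
    h1 ζ hζZ hζ0 (ε / (2 * (M + 1))) (by positivity), hs] with n g1 g2 g3
  have k1 : ∑ i ∈ F n, |mom ψ (u i) (u (σ n)) - ∫ z, ψ z / z.im ^ 2| ≤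
      ∑ i ∈ F n, (|mom χ (u i) (u (σ n)) - ∫ z, χ z / z.im ^ 2| +
        M * |mom ζ (u i) (u (σ n)) - ∫ z, ζ z / z.im ^ 2|) := by
    refine Finset.sum_le_sum fun i _ => ?_
    rw [e1, e2]
    have e3 : mom χ (u i) (u (σ n)) - M * mom ζ (u i) (u (σ n)) -
        ((∫ z, χ z / z.im ^ 2) - M * ∫ z, ζ z / z.im ^ 2) =
        (mom χ (u i) (u (σ n)) - ∫ z, χ z / z.im ^ 2) -
          M * (mom ζ (u i) (u (σ n)) - ∫ z, ζ z / z.im ^ 2) := by ring
    rw [e3]
    refine (abs_sub _ _).trans ?_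
    rw [abs_mul, abs_of_nonneg hM0]
  refine k1.trans ?_
  rw [Finset.sum_add_distrib, ← Finset.mul_sum]
  have h4 := mul_le_mul_of_nonneg_left g2 hM0
  have h5 : M * (ε / (2 * (M + 1)) * s n) ≤ ε / 2 * s n := by
    have : M * (ε / (2 * (M + 1))) ≤ ε / 2 := by
      rw [mul_div_assoc', div_le_div_iff₀ (by positivity) (by norm_num)]
      nlinarith
    have := mul_le_mul_of_nonneg_right this g3
    linarith
  linarith

/-- from test functions supported outside of `Z` to arbitrary ones -/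
lemma ext1 (hq : QUE t u) (hZ0 : volume Z = 0) (hσ : Tendsto σ f atTop)
    (hF : ∀ᶠ n in f, ((F n).card : ℝ) ≤ s n)
    (hU : ∀ K : Set ℂ, IsCompact K → K ⊆ HH → ∃ C : ℝ, ∀ᶠ n in f, ∀ z ∈ K,
      ∑ i ∈ F n, u i z ^ 2 ≤ C * s n)
    {ψ : ℂ → ℝ} (hψ : TF HH ψ) {ε : ℝ} (hε : 0 < ε) :
    ∀ᶠ n in f, ∑ i ∈ F n, |mom ψ (u i) (u (σ n)) - ∫ z, ψ z / z.im ^ 2| ≤ ε * s n := by
  have HHo := Pool.Agent.Results.MP_a28cf0_nt.JointFourthLowerBound.HHo
  obtain ⟨L1, hL1, s1, s2⟩ := exists_compact_between hψ.2.1 HHo hψ.2.2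
  obtain ⟨M, hM0, hM⟩ : ∃ M : ℝ, 0 ≤ M ∧ ∀ z, |ψ z| ≤ M := by
    obtain ⟨M, hM⟩ := hψ.2.1.exists_bound_of_continuous hψ.1.continuous
    exact ⟨M, (norm_nonneg _).trans (hM 0), hM⟩
  obtain ⟨Y, hY0, hY⟩ : ∃ Y : ℝ, 0 ≤ Y ∧ ∀ z ∈ L1, (z.im ^ 2)⁻¹ ≤ Y := by
    have c : ContinuousOn (fun z : ℂ => (z.im ^ 2)⁻¹) L1 :=
      ContinuousOn.inv₀ (continuous_im.pow 2).continuousOn fun z hz =>
        pow_ne_zero 2 (ne_of_gt (s2 hz))
    obtain ⟨Y, hY⟩ := hL1.exists_bound_of_continuousOn c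
    exact ⟨|Y|, abs_nonneg _, fun z hz => (le_abs_self _).trans ((hY z hz).trans (le_abs_self _))⟩
  obtain ⟨C, hC0, hC⟩ : ∃ C : ℝ, 0 ≤ C ∧ ∀ᶠ n in f, ∀ z ∈ L1,
      ∑ i ∈ F n, u i z ^ 2 ≤ C * s n := by
    obtain ⟨C, hC⟩ := hU L1 hL1 s2
    refine ⟨|C|, abs_nonneg _, ?_⟩
    filter_upwards [hC, hs] with n g1 g2 z hz
    exact (g1 z hz).trans (mul_le_mul_of_nonneg_right (le_abs_self _) g2)
  obtain ⟨D, hD⟩ : ∃ D : ℝ, D = M * (2 * C + 1) := ⟨_, rfl⟩
  have D0 : 0 ≤ D := by rw [hD]; positivity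
  obtain ⟨κ, κ0, hκ⟩ : ∃ κ : ℝ, 0 < κ ∧ κ * D ≤ ε / 2 := by
    refine ⟨ε / (2 * (D + 1)), by positivity, ?_⟩
    rw [div_mul_eq_mul_div, div_le_div_iff₀ (by positivity) (by norm_num)]
    nlinarith
  -- a small neighbourhood of the exceptional set
  obtain ⟨U, hU1, hUo, hUv⟩ : ∃ U : Set ℂ, tsupport ψ ∩ Z ⊆ U ∧ IsOpen U ∧
      volume U < ENNReal.ofReal (κ / (Y + 1)) := by
    refine Set.exists_isOpen_lt_of_lt _ _ ?_
    rw [measure_mono_null Set.inter_subset_right hZ0]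
    exact ENNReal.ofReal_pos.2 (by positivity)
  have K0c : IsCompact (tsupport ψ ∩ Z) := by
    have e : tsupport ψ ∩ Z = tsupport ψ ∩ (HH \ Z)ᶜ := by
      ext z
      constructor
      · rintro ⟨h1, h2⟩
        exact ⟨h1, fun h3 => h3.2 h2⟩
      · rintro ⟨h1, h2⟩
        refine ⟨h1, ?_⟩
        by_contra h3
        exact h2 ⟨hψ.2.2 h1, h3⟩
    rw [e]
    exact hψ.2.1.isCompact.inter_right hZ.isClosed_compl
  have Vo : IsOpen (U ∩ interior L1) := hUo.inter isOpen_interior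
  have KV : tsupport ψ ∩ Z ⊆ U ∩ interior L1 := fun z hz => ⟨hU1 hz, s1 hz.1⟩
  obtain ⟨L2, hL2, s3, s4⟩ := exists_compact_between K0c Vo KV
  obtain ⟨ζ, hζV, hζ0, hζl, hζ1⟩ := Pool.Agent.Y265.RW.cutoff Vo hL2 s4
  have hζ : TF HH ζ := ⟨hζV.1, hζV.2.1,
    hζV.2.2.trans ((Set.inter_subset_right.trans interior_subset).trans s2)⟩
  have hζL : tsupport ζ ⊆ L1 := hζV.2.2.trans (Set.inter_subset_right.trans interior_subset)
  have mζ0 : 0 ≤ ∫ z, ζ z / z.im ^ 2 :=
    integral_nonneg fun z => div_nonneg (hζ0 z) (sq_nonneg _)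
  have iζ := int_mom hζ (F := fun _ => 1) continuousOn_const
  simp only [mul_one] at iζ
  have mζ : ∫ z, ζ z / z.im ^ 2 ≤ κ := by
    have fin : volume (U ∩ interior L1) ≠ ⊤ :=
      ne_top_of_le_ne_top ENNReal.ofReal_ne_top
        ((measure_mono Set.inter_subset_left).trans hUv.le)
    have h1 : ∫ z, ζ z / z.im ^ 2 ≤ ∫ z, (U ∩ interior L1).indicator (fun _ => Y) z := by
      refine integral_mono iζ ?_ fun z => ?_
      · exact (integrable_indicator_iff Vo.measurableSet).2 (integrableOn_const fin)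
      · by_cases hz : z ∈ U ∩ interior L1
        · rw [Set.indicator_of_mem hz]
          show ζ z / z.im ^ 2 ≤ Y
          rw [div_eq_mul_inv]
          have g1 := hY z (interior_subset hz.2)
          have g2 : 0 ≤ (z.im ^ 2)⁻¹ := inv_nonneg.2 (sq_nonneg _)
          have g3 := mul_le_mul_of_nonneg_right (hζl z) g2
          linarith
        · rw [Set.indicator_of_notMem hz]
          show ζ z / z.im ^ 2 ≤ 0
          rw [image_eq_zero_of_notMem_tsupport fun h => hz (hζV.2.2 h), zero_div]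
    rw [integral_indicator_const _ Vo.measurableSet, smul_eq_mul] at h1
    have h2 : volume.real (U ∩ interior L1) ≤ κ / (Y + 1) :=
      ENNReal.toReal_le_of_le_ofReal (by positivity)
        ((measure_mono Set.inter_subset_left).trans hUv.le)
    have h3 := mul_le_mul_of_nonneg_right h2 hY0
    have h4 : κ / (Y + 1) * Y ≤ κ := by
      rw [div_mul_eq_mul_div, div_le_iff₀ (by positivity)]
      nlinarith
    linarith
  -- the two parts of the test function
  have hψ1 : TF (HH \ Z) (fun z => ψ z * (1 - ζ z)) := by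
    refine ⟨hψ.1.mul (contDiff_const.sub hζ.1), hψ.2.1.mul_right, ?_⟩
    intro z hz
    have z1 : z ∈ tsupport ψ := tsupport_mul_subset_left hz
    refine ⟨hψ.2.2 z1, fun z2 => ?_⟩
    have z3 : z ∈ interior L2 := s3 ⟨z1, z2⟩
    have z4 : z ∈ closure (Function.support fun z => ψ z * (1 - ζ z)) := hz
    rw [mem_closure_iff] at z4
    obtain ⟨w, w1, w2⟩ := z4 _ isOpen_interior z3
    refine w2 ?_
    show ψ w * (1 - ζ w) = 0
    rw [hζ1 w (interior_subset w1)]; ring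
  have hψ1' : TF HH (fun z => ψ z * (1 - ζ z)) :=
    ⟨hψ1.1, hψ1.2.1, hψ1.2.2.trans Set.sdiff_subset⟩
  have hψ2 : TF HH (fun z => ψ z * ζ z) := by
    refine ⟨hψ.1.mul hζ.1, hψ.2.1.mul_right, ?_⟩
    exact (tsupport_mul_subset_left (f := ψ) (g := ζ)).trans hψ.2.2
  have e1 : ∫ z, ψ z / z.im ^ 2 = (∫ z, ψ z * (1 - ζ z) / z.im ^ 2) +
      ∫ z, ψ z * ζ z / z.im ^ 2 := by
    have i1 := int_mom hψ1' (F := fun _ => 1) continuousOn_const
    have i2 := int_mom hψ2 (F := fun _ => 1) continuousOn_const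
    simp only [mul_one] at i1 i2
    rw [← integral_add i1 i2]
    congr 1; funext z
    ring
  have e2 : ∀ i j, mom ψ (u i) (u j) = mom (fun z => ψ z * (1 - ζ z)) (u i) (u j) +
      mom (fun z => ψ z * ζ z) (u i) (u j) := by
    intro i j
    have cc : ContinuousOn (fun z => u i z ^ 2 * u j z ^ 2) HH :=
      ((hu i).1.continuousOn.pow 2).mul ((hu j).1.continuousOn.pow 2)
    have i1 := int_mom hψ1' cc
    have i2 := int_mom hψ2 cc
    unfold mom
    rw [← integral_add i1 i2]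
    congr 1; funext z
    ring
  have e3 : |∫ z, ψ z * ζ z / z.im ^ 2| ≤ M * κ := by
    have h1 : |∫ z, ψ z * ζ z / z.im ^ 2| ≤ ∫ z, M * (ζ z / z.im ^ 2) := by
      rw [← Real.norm_eq_abs]
      refine norm_integral_le_of_norm_le (iζ.const_mul M) (Eventually.of_forall fun z => ?_)
      rw [Real.norm_eq_abs, abs_div, abs_mul, abs_of_nonneg (hζ0 z),
        abs_of_nonneg (sq_nonneg z.im), mul_div_assoc]
      exact mul_le_mul_of_nonneg_right (hM z) (div_nonneg (hζ0 z) (sq_nonneg _))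
    rw [integral_const_mul] at h1
    exact h1.trans (mul_le_mul_of_nonneg_left mζ hM0)
  have e4 : ∀ i j, |mom (fun z => ψ z * ζ z) (u i) (u j)| ≤ M * mom ζ (u i) (u j) := by
    intro i j
    have cc : ContinuousOn (fun z => u i z ^ 2 * u j z ^ 2) HH :=
      ((hu i).1.continuousOn.pow 2).mul ((hu j).1.continuousOn.pow 2)
    have i2 := int_mom hζ cc
    unfold mom
    rw [← integral_const_mul, ← Real.norm_eq_abs]
    refine norm_integral_le_of_norm_le (i2.const_mul M) (Eventually.of_forall fun z => ?_)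
    have p : 0 ≤ u i z ^ 2 * u j z ^ 2 := by positivity
    rw [Real.norm_eq_abs, abs_div, abs_mul, abs_mul, abs_of_nonneg (hζ0 z),
      abs_of_nonneg (sq_nonneg z.im), abs_of_nonneg p]
    have h1 := mul_le_mul_of_nonneg_right (hM z)
      (show 0 ≤ ζ z * (u i z ^ 2 * u j z ^ 2) / z.im ^ 2 from
        div_nonneg (mul_nonneg (hζ0 z) p) (sq_nonneg _))
    calc _ = |ψ z| * (ζ z * (u i z ^ 2 * u j z ^ 2) / z.im ^ 2) := by ring
      _ ≤ _ := h1
  have tm := (two_mom hq hζ).comp hσ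
  filter_upwards [ext0 hu hZ hs h1 hψ1 (show 0 < ε / 2 by positivity),
    tm.eventually (gt_mem_nhds (show (∫ z, ζ z / z.im ^ 2) < 2 * κ by linarith)),
    hC, hF, hs] with n g1 g2 g3 g4 g5
  simp only [Function.comp_apply] at g2
  have k1 : ∑ i ∈ F n, |mom ψ (u i) (u (σ n)) - ∫ z, ψ z / z.im ^ 2| ≤
      ∑ i ∈ F n, (|mom (fun z => ψ z * (1 - ζ z)) (u i) (u (σ n)) -
        ∫ z, ψ z * (1 - ζ z) / z.im ^ 2| + (M * mom ζ (u i) (u (σ n)) + M * κ)) := by
    refine Finset.sum_le_sum fun i _ => ?_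
    rw [e1, e2]
    have e5 : mom (fun z => ψ z * (1 - ζ z)) (u i) (u (σ n)) +
        mom (fun z => ψ z * ζ z) (u i) (u (σ n)) -
        ((∫ z, ψ z * (1 - ζ z) / z.im ^ 2) + ∫ z, ψ z * ζ z / z.im ^ 2) =
        (mom (fun z => ψ z * (1 - ζ z)) (u i) (u (σ n)) - ∫ z, ψ z * (1 - ζ z) / z.im ^ 2) +
          (mom (fun z => ψ z * ζ z) (u i) (u (σ n)) - ∫ z, ψ z * ζ z / z.im ^ 2) := by ring
    rw [e5]
    refine (abs_add_le _ _).trans (add_le_add le_rfl ((abs_sub _ _).trans ?_))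
    exact add_le_add (e4 i (σ n)) e3
  refine k1.trans ?_
  rw [Finset.sum_add_distrib, Finset.sum_add_distrib, ← Finset.mul_sum, Finset.sum_const,
    nsmul_eq_mul]
  have k2 := sum_mom hu hζ hζ0 (F := F n) (X := C * s n) (σ n) (fun z hz => g3 z (hζL hz))
  have k3 : C * s n * (∫ z, ζ z * u (σ n) z ^ 2 / z.im ^ 2) ≤ C * s n * (2 * κ) :=
    mul_le_mul_of_nonneg_left g2.le (mul_nonneg hC0 g5)
  have k4 := mul_le_mul_of_nonneg_left (k2.trans k3) hM0
  have k5 := mul_le_mul_of_nonneg_right g4 (show 0 ≤ M * κ by positivity)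
  have k6 : M * (C * s n * (2 * κ)) + s n * (M * κ) = κ * D * s n := by rw [hD]; ring
  have k7 := mul_le_mul_of_nonneg_right hκ g5
  linarith

end

/-- nonnegative test functions supported outside of `Z` -/
lemma base {t : ℕ → ℝ} (ht : Tendsto t atTop atTop) {u : ℕ → ℂ → ℝ} (hu : ∀ j, Eig (t j) (u j))
    (hq : QUE t u) {Z : Set ℂ} (hW : WindowWeyl t ht u Z) {a b : ℝ} (ha : 0 < a)
    {χ : ℂ → ℝ} (hχZ : TF (HH \ Z) χ) (hχ0 : ∀ z, 0 ≤ χ z) {ε : ℝ} (hε : 0 < ε) :
    ∀ᶠ A : ℝ in atTop, ∀ᶠ j in atTop, ∀ x ∈ {x : ℝ | a ≤ x ∧ x ≤ b},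
      ∑ i ∈ win t ht (x * t j) (x * t j + A), |mom χ (u i) (u j) - ∫ z, χ z / z.im ^ 2| ≤
        ε * (win t ht (x * t j) (x * t j + A)).card := by
  classical
  have hχ : TF HH χ := ⟨hχZ.1, hχZ.2.1, hχZ.2.2.trans Set.sdiff_subset⟩
  by_contra hcon
  rw [not_eventually] at hcon
  have ft : ∀ K : ℕ, ∃ (A : ℝ) (j : ℕ) (x : ℝ), (K ≤ j ∧ 0 < t j ∧ A ≤ t j * (1 / ((K : ℝ) + 1))) ∧
      (a ≤ x ∧ x ≤ b) ∧ (win t ht (x * t j) (x * t j + A)).Nonempty ∧
      (∀ k ∈ Finset.Icc (-(K : ℤ)) K, ∀ l ∈ Finset.Icc (-(K : ℤ)) K, ∀ z ∈ tsupport χ,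
        ‖(∑ i ∈ win t ht (x * t j) (x * t j + A), WF (ev (t i)) (u i) k z *
          (starRingEnd ℂ) (WF (ev (t i)) (u i) l z)) /
            ((win t ht (x * t j) (x * t j + A)).card : ℂ) -
              (if k = l then 1 else 0)‖ ≤ 1 / ((K : ℝ) + 1)) ∧
      ε * (win t ht (x * t j) (x * t j + A)).card <
        ∑ i ∈ win t ht (x * t j) (x * t j + A), |mom χ (u i) (u j) - ∫ z, χ z / z.im ^ 2| := by
    intro K
    have g1 : ∀ᶠ A : ℝ in atTop, ∀ k ∈ Finset.Icc (-(K : ℤ)) K, ∀ l ∈ Finset.Icc (-(K : ℤ)) K,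
        ∀ᶠ T : ℝ in atTop, (win t ht T (T + A)).Nonempty ∧ ∀ z ∈ tsupport χ,
        ‖(∑ i ∈ win t ht T (T + A), WF (ev (t i)) (u i) k z *
          (starRingEnd ℂ) (WF (ev (t i)) (u i) l z)) / ((win t ht T (T + A)).card : ℂ) -
            (if k = l then 1 else 0)‖ ≤ 1 / ((K : ℝ) + 1) := by
      rw [Filter.eventually_all_finset]
      intro k _
      rw [Filter.eventually_all_finset]
      intro l _
      exact hW.1 _ hχZ.2.1 hχZ.2.2 k l _ (by positivity)
    obtain ⟨A, hbad, hg⟩ := (hcon.and_eventually g1).exists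
    rw [not_eventually] at hbad
    have g2 : ∀ᶠ T : ℝ in atTop, ∀ k ∈ Finset.Icc (-(K : ℤ)) K, ∀ l ∈ Finset.Icc (-(K : ℤ)) K,
        (win t ht T (T + A)).Nonempty ∧ ∀ z ∈ tsupport χ,
        ‖(∑ i ∈ win t ht T (T + A), WF (ev (t i)) (u i) k z *
          (starRingEnd ℂ) (WF (ev (t i)) (u i) l z)) / ((win t ht T (T + A)).card : ℂ) -
            (if k = l then 1 else 0)‖ ≤ 1 / ((K : ℝ) + 1) := by
      rw [Filter.eventually_all_finset]
      intro k hk
      rw [Filter.eventually_all_finset]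
      intro l hl
      exact hg k hk l hl
    obtain ⟨T0, hT0⟩ := eventually_atTop.1 g2
    have ta : Tendsto (fun j => a * t j) atTop atTop := ht.const_mul_atTop ha
    have tK : Tendsto (fun j => t j * (1 / ((K : ℝ) + 1))) atTop atTop :=
      ht.atTop_mul_const (by positivity)
    obtain ⟨j, hj, g3, g4, g5, g6⟩ := (hbad.and_eventually ((eventually_ge_atTop K).and
      ((ht.eventually_gt_atTop 0).and ((tK.eventually_ge_atTop A).and
        (ta.eventually_ge_atTop T0))))).exists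
    push Not at hj
    obtain ⟨x, hx, hbd⟩ := hj
    have hT : T0 ≤ x * t j := g6.trans (mul_le_mul_of_nonneg_right hx.1 g4.le)
    have g7 := hT0 _ hT
    refine ⟨A, j, x, ⟨g3, g4, g5⟩, hx, ?_, fun k hk l hl => (g7 k hk l hl).2, hbd⟩
    have z0 : (0 : ℤ) ∈ Finset.Icc (-(K : ℤ)) K := by rw [Finset.mem_Icc]; omega
    exact (g7 0 z0 0 z0).1
  choose A j x hj hx hne hwy hbd using ft
  have mem : ∀ K, x K ∈ Set.Icc a b := fun K => ⟨(hx K).1, (hx K).2⟩
  obtain ⟨α, hα, κ, hκ, lim⟩ := isCompact_Icc.tendsto_subseq mem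
  have hκt := hκ.tendsto_atTop
  have inv0 : Tendsto (fun n => 1 / ((κ n : ℝ) + 1)) atTop (𝓝 0) :=
    (tendsto_one_div_add_atTop_nhds_zero_nat (𝕜 := ℝ)).comp hκt
  have lim2 : ∀ η : ℝ, 0 < η → ∀ᶠ n in atTop, |x (κ n) - α| < η := by
    intro η hη
    have := lim.eventually (Metric.ball_mem_nhds α hη)
    filter_upwards [this] with n hn
    rw [Real.dist_eq] at hn
    exact hn
  have hσ : Tendsto (fun n => j (κ n)) atTop atTop :=
    tendsto_atTop_mono (fun n => (hj (κ n)).1) hκt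
  have w1 : ∀ η : ℝ, 0 < η → ∀ᶠ n in atTop, ∀ i ∈ win t ht (x (κ n) * t (j (κ n)))
      (x (κ n) * t (j (κ n)) + A (κ n)), |t i / t (j (κ n)) - α| ≤ η := by
    intro η hη
    filter_upwards [lim2 (η / 2) (by positivity),
      inv0.eventually (gt_mem_nhds (show 0 < η / 2 by positivity))] with n g1 g2 i hi
    rw [mem_win] at hi
    obtain ⟨-, tp, hA⟩ := hj (κ n)
    have b1 : x (κ n) < t i / t (j (κ n)) := by rw [lt_div_iff₀ tp]; exact hi.2
    have b2 : t i / t (j (κ n)) ≤ x (κ n) + 1 / ((κ n : ℝ) + 1) := by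
      rw [div_le_iff₀ tp]
      have := hi.1
      linarith
    have b3 := abs_lt.1 g1
    rw [abs_le]
    constructor
    · linarith [b3.1]
    · linarith [b3.2]
  have w2 : ∀ k l : ℤ, ∀ η : ℝ, 0 < η → ∀ᶠ n in atTop, ∀ z ∈ tsupport χ,
      ‖(∑ i ∈ win t ht (x (κ n) * t (j (κ n))) (x (κ n) * t (j (κ n)) + A (κ n)),
        WF (ev (t i)) (u i) k z * (starRingEnd ℂ) (WF (ev (t i)) (u i) l z)) /
        ((win t ht (x (κ n) * t (j (κ n))) (x (κ n) * t (j (κ n)) + A (κ n))).card : ℂ) -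
          (if k = l then 1 else 0)‖ ≤ η := by
    intro k l η hη
    filter_upwards [hκt.eventually_ge_atTop (k.natAbs + l.natAbs),
      inv0.eventually (gt_mem_nhds hη)] with n g1 g2 z hz
    refine (hwy (κ n) k ?_ l ?_ z hz).trans g2.le
    · rw [Finset.mem_Icc]; omega
    · rw [Finset.mem_Icc]; omega
  have α0 : 0 < α := ha.trans_le hα.1
  have key : Tendsto (fun n => (∑ i ∈ win t ht (x (κ n) * t (j (κ n)))
      (x (κ n) * t (j (κ n)) + A (κ n)), |mom χ (u i) (u (j (κ n))) - ∫ z, χ z / z.im ^ 2|) /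
      (win t ht (x (κ n) * t (j (κ n))) (x (κ n) * t (j (κ n)) + A (κ n))).card) atTop (𝓝 0) := by
    by_cases h : α = 1
    · exact one ht hu hq hχ hχ0 (σ := fun n => j (κ n)) hσ
        (F := fun n => win t ht (x (κ n) * t (j (κ n))) (x (κ n) * t (j (κ n)) + A (κ n)))
        (fun n => hne _) (α := α) α0 h w1 w2
    · exact shrink ht hu hq hχ hχ0 (σ := fun n => j (κ n)) hσ
        (F := fun n => win t ht (x (κ n) * t (j (κ n))) (x (κ n) * t (j (κ n)) + A (κ n)))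
        (fun n => hne _) (α := α) α0 h w1 w2
  obtain ⟨n, hn⟩ := (key.eventually (gt_mem_nhds hε)).exists
  have h2 := hbd (κ n)
  have cp : (0 : ℝ) < (win t ht (x (κ n) * t (j (κ n)))
    (x (κ n) * t (j (κ n)) + A (κ n))).card := by exact_mod_cast (hne (κ n)).card_pos
  rw [div_lt_iff₀ cp] at hn
  linarith

/-- **Result.** Let `u j` be real eigenfunctions of the hyperbolic Laplacian on the upper half plane
with spectral parameters `t j → ∞`, which satisfy microlocal quantum unique ergodicity and, outside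
of a null set `Z` (relatively closed in the upper half plane), the local Weyl law in microlocal form
in windows of bounded length. Let `ψ` be a test function, `0 < a` and `0 < ε`. For all sufficiently
large `A`, all sufficiently large `j` (depending on `A`) and all `x ∈ [a, b]`, the average of
`|∫ ψ u_i² u_j² dμ - ∫ ψ dμ|` over the forms `u i` with `x t_j < t_i ≤ x t_j + A` is at most `ε`. -/
theorem result (t : ℕ → ℝ) (ht : Tendsto t atTop atTop) (u : ℕ → ℂ → ℝ)
    (hu : ∀ j, Eig (t j) (u j)) (hq : QUE t u) (Z : Set ℂ) (hZ : IsOpen (HH \ Z))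
    (hZ0 : volume Z = 0) (hW : WindowWeyl t ht u Z) (ψ : ℂ → ℝ) (hψ : TF HH ψ) (a b : ℝ)
    (ha : 0 < a) (ε : ℝ) (hε : 0 < ε) :
    ∃ A₀ : ℝ, ∀ A : ℝ, A₀ ≤ A → ∃ j₀ : ℕ, ∀ j : ℕ, j₀ ≤ j → ∀ x : ℝ, a ≤ x → x ≤ b →
      (∑ i ∈ win t ht (x * t j) (x * t j + A), |mom ψ (u i) (u j) - ∫ z, ψ z / z.im ^ 2|) /
        (win t ht (x * t j) (x * t j + A)).card ≤ ε := by
  obtain ⟨X, hX⟩ : ∃ X : Set ℝ, X = {x : ℝ | a ≤ x ∧ x ≤ b} := ⟨_, rfl⟩
  obtain ⟨f, hf⟩ : ∃ f : Filter (ℝ × (ℕ × ℝ)), f = (atTop : Filter ℝ).bind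
      (fun A => Filter.map (fun p : ℕ × ℝ => (A, p)) (atTop ×ˢ 𝓟 X)) := ⟨_, rfl⟩
  have ef : ∀ P : ℝ × (ℕ × ℝ) → Prop, (∀ᶠ n in f, P n) ↔
      ∀ᶠ A : ℝ in atTop, ∀ᶠ j in atTop, ∀ x ∈ X, P (A, (j, x)) := by
    intro P
    rw [hf, Filter.eventually_bind]
    refine Filter.eventually_congr (Eventually.of_forall fun A => ?_)
    rw [Filter.eventually_map, Filter.eventually_prod_principal_iff]
  have ta : Tendsto (fun j => a * t j) atTop atTop := ht.const_mul_atTop ha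
  have key := ext1 (f := f) (t := t) (u := u) hu hZ (σ := fun n => n.2.1)
    (F := fun n => win t ht (n.2.2 * t n.2.1) (n.2.2 * t n.2.1 + n.1))
    (s := fun n => ((win t ht (n.2.2 * t n.2.1) (n.2.2 * t n.2.1 + n.1)).card : ℝ))
    (Eventually.of_forall fun n => Nat.cast_nonneg _) ?_ hq hZ0 ?_
    (Eventually.of_forall fun n => le_rfl) ?_ hψ hε
  · rw [ef] at key
    obtain ⟨A₀, hA₀⟩ := eventually_atTop.1 key
    refine ⟨A₀, fun A hA => ?_⟩
    obtain ⟨j₀, hj₀⟩ := eventually_atTop.1 (hA₀ A hA)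
    refine ⟨j₀, fun j hj x h1 h2 => ?_⟩
    have h4 := hj₀ j hj x (by rw [hX]; exact ⟨h1, h2⟩)
    exact div_le_of_le_mul₀ (Nat.cast_nonneg _) hε.le h4
  · intro χ hχ hχ0 ε' hε'
    rw [ef]
    have := base ht hu hq hW (b := b) ha hχ hχ0 hε'
    rw [← hX] at this
    exact this
  · rw [tendsto_atTop]
    intro N
    rw [ef]
    refine Eventually.of_forall fun A => ?_
    filter_upwards [eventually_ge_atTop N] with j hj x _
    exact hj
  · intro K hK hK2
    obtain ⟨C, hC⟩ := hW.2 K hK hK2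
    refine ⟨C, ?_⟩
    rw [ef]
    filter_upwards [hC] with A hA
    obtain ⟨T0, hT0⟩ := eventually_atTop.1 hA
    filter_upwards [ta.eventually_ge_atTop T0, ht.eventually_gt_atTop 0] with j g1 g2 x hx
    rw [hX] at hx
    exact hT0 _ (g1.trans (mul_le_mul_of_nonneg_right hx.1 g2.le))

end Pool.Agent.Results.MP_a28cf0_nt.AlmostAllShortWindows
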