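import Pool.Agent.J4H76.TP.Main

/-!
# The joint moment `∫ ψ f₀ f₁ f₂ dμ` of three eigenfunctions (MP_a28cf0_nt)

The plane is `ℂ`, with the upper half plane `HH` and `dμ = dx dy / y²`. `dx f z`, `dy f z` are the
partial derivatives `fderiv ℝ f z 1`, `fderiv ℝ f z I`; `TF U φ` says that `φ : ℂ → ℝ` is smooth
with compact support contained in `U`.

Three (not necessarily distinct) sequences of real eigenfunctions are considered, each of them
satisfying microlocal quantum unique ergodicity (for Hecke-Maass cusp forms this is the theorem of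
Lindenstrauss and Soundararajan). Two of the three spectral parameters are comparable, the third is
arbitrary, and the parameters stay away from the degenerate triangles `t_i = t_j + t_k`. Then
`∫ ψ f₀ f₁ f₂ dμ → 0` for every test function `ψ`. No bound for higher moments and no orthogonality
is assumed.

Proof idea. Let `f₀`, `f₁` be comparable (and slower than `f₂`, if all three are comparable). Let
`W_k(f)` be the normalised frame derivatives. For a trigonometric polynomial `∑ c_k e^{ikθ}` put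
`P = ∑ c_k W_k(f₀) W_{-k}(f₁)`; it selects the pairs of wave directions with the angle `θ`.
Translation invariance forces the angle in `∫ ψ f₀ f₁ f₂` (the three wave vectors form a triangle),
so that `∫ ψ P f₂` is a nonzero multiple of `∫ ψ f₀ f₁ f₂` up to `o(1)`, for a symbol peaked at this
angle. The mean square of `P` is expressed, by an identity modulo the ideal of the translation
relations and of the null form relation of the pair (compensated compactness of the energy-momentum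
tensors), through the Gaussian mean square of the symbol and an integral `∫ ψ² a b`, where `a` and
`b` are quadratic expressions of `f₀` alone and of `f₁` alone. The mean squares of `a` and `b` are
known exactly and the unknown fourth moments of `f₀`, `f₁` drop out, as the symbols of `a`, `b`
vanish at the angles `0` and `π`. If `f₂` is much faster, a fixed symbol is used: `P` is bounded in
mean square and the multiple tends to infinity.
-/

set_option autoImplicit false
open MeasureTheory Filter Topology Complex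
open scoped ContDiff

namespace Pool.Agent.Results.MP_a28cf0_nt.TripleMoments

open Pool.Agent.W745.RW (TF dx dy)

/-- the open upper half plane -/
def HH : Set ℂ := {z | 0 < z.im}

/-- the eigenvalue `1/4 + t²` -/
noncomputable def ev (t : ℝ) : ℝ := 1 / 4 + t ^ 2

/-- `f` is a smooth real solution of `-y² (∂x² + ∂y²) f = (1/4 + t²) f` on the upper half plane -/
def Eig (t : ℝ) (f : ℂ → ℝ) : Prop :=
  ContDiffOn ℝ ∞ f HH ∧ ∀ z ∈ HH, -(z.im ^ 2 * (dx (dx f) z + dy (dy f) z)) = ev t * f z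

/-- the operator `f ↦ lam^{-1/2} y (∂x f - i ∂y f)` -/
noncomputable def RO (lam : ℝ) (f : ℂ → ℂ) (z : ℂ) : ℂ :=
  ((z.im / √lam : ℝ) : ℂ) * (dx f z - I * dy f z)

/-- quantum unique ergodicity in microlocal form: `∫ φ f (RO^k f) dμ → ∫ φ dμ` for `k = 0`, and
`→ 0` for `k ≥ 1` -/
def QUE (t : ℕ → ℝ) (f : ℕ → ℂ → ℝ) : Prop :=
  ∀ φ, TF HH φ → ∀ k : ℕ, Tendsto (fun n => ∫ z, ((φ z / z.im ^ 2 : ℝ) : ℂ) *
    ((f n z : ℂ) * (RO (ev (t n)))^[k] (fun w => (f n w : ℂ)) z)) atTop
    (𝓝 (if k = 0 then ((∫ z, φ z / z.im ^ 2 : ℝ) : ℂ) else 0))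

lemma ev_pos (t : ℝ) : 0 < ev t := by unfold ev; positivity

lemma HHo : IsOpen HH := isOpen_lt continuous_const continuous_im

lemma ev_top {t : ℕ → ℝ} (ht : Tendsto t atTop atTop) :
    Tendsto (fun n => ev (t n)) atTop atTop :=
  tendsto_atTop_add_const_left _ _ ((tendsto_pow_atTop two_ne_zero).comp ht)

open Pool.Agent.Y265.HY Pool.Agent.TH294.RS in
/-- the ladder system of a sequence -/
lemma sys {t : ℕ → ℝ} (ht : Tendsto t atTop atTop) {f : ℕ → ℂ → ℝ}
    (hf : ∀ n, Eig (t n) (f n)) (hqe : QUE t f) :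
    SY HH Complex.im (fun n => 1 / √(ev (t n))) (ww Complex.im (fun n => 1 / √(ev (t n)))
      (fun n z => (f n z : ℂ))) ∧
    EX HH (fun n => 1 / √(ev (t n))) (ww Complex.im (fun n => 1 / √(ev (t n)))
      (fun n z => (f n z : ℂ))) (fun n z => (f n z : ℂ)) := by
  refine hyp_sys HHo (fun z hz => hz) (fun n => ev_pos (t n)) (ev_top ht) (fun n => (hf n).1)
    (fun n z hz => ?_) hqe
  have h1 := (hf n).2 z hz
  show z.im ^ 2 * (dx (dx (f n)) z + dy (dy (f n)) z) + ev (t n) * f n z = 0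
  linarith

/-- `√(1/4 + t²) ~ t` -/
lemma ev_asymp {t : ℕ → ℝ} (ht : Tendsto t atTop atTop) :
    Tendsto (fun n => √(ev (t n)) / t n) atTop (𝓝 1) := by
  have h1 : Tendsto (fun n => 1 / 4 * (t n ^ 2)⁻¹ + 1) atTop (𝓝 (1 / 4 * 0 + 1)) :=
    ((tendsto_inv_atTop_zero.comp ((tendsto_pow_atTop two_ne_zero).comp ht)).const_mul
      (1 / 4)).add_const 1
  have h2 := (Real.continuous_sqrt.tendsto _).comp h1
  have e : √(1 / 4 * 0 + 1) = 1 := by norm_num
  rw [e] at h2
  refine h2.congr' ?_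
  filter_upwards [ht.eventually_gt_atTop 0] with n hn
  simp only [Function.comp_apply]
  have e2 : 1 / 4 * (t n ^ 2)⁻¹ + 1 = ev (t n) / t n ^ 2 := by
    unfold ev; field_simp
  rw [e2, Real.sqrt_div (ev_pos _).le, Real.sqrt_sq hn.le]

lemma ratio {t s : ℕ → ℝ} (ht : Tendsto t atTop atTop) (hs : Tendsto s atTop atTop) {l : ℝ}
    (h : Tendsto (fun n => s n / t n) atTop (𝓝 l)) :
    Tendsto (fun n => (1 / √(ev (t n))) / (1 / √(ev (s n)))) atTop (𝓝 l) := by
  have h1 := ((ev_asymp hs).mul h).mul ((ev_asymp ht).inv₀ one_ne_zero)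
  rw [one_mul, inv_one, mul_one] at h1
  refine h1.congr' ?_
  filter_upwards [ht.eventually_gt_atTop 0, hs.eventually_gt_atTop 0] with n h2 h3
  have p1 := (Real.sqrt_pos.2 (ev_pos (t n))).ne'
  have p2 := (Real.sqrt_pos.2 (ev_pos (s n))).ne'
  field_simp

/-- the weight `1 / y²` -/
lemma tf_mul {ψ : ℂ → ℝ} (hψ : TF HH ψ) : TF HH (fun z => ψ z * (z.im ^ 2)⁻¹) := by
  have sy : ContDiffOn ℝ ∞ (fun z : ℂ => (z.im ^ 2)⁻¹) HH := by
    refine ContDiffOn.inv ((imCLM.contDiff.pow 2).contDiffOn) fun z hz => ?_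
    exact pow_ne_zero 2 (ne_of_gt hz)
  exact Pool.Agent.TH294.RS.TF.mulc HHo hψ sy

lemma conv (t s r : ℕ → ℝ) (f g u : ℕ → ℂ → ℝ) (ψ : ℂ → ℝ)
    (key : Tendsto (fun n => ∫ z, ((ψ z * (z.im ^ 2)⁻¹ : ℝ) : ℂ) *
      (Pool.Agent.TH294.RS.ww Complex.im (fun n => 1 / √(ev (t n))) (fun n z => (f n z : ℂ)) 0 n z *
      Pool.Agent.TH294.RS.ww Complex.im (fun n => 1 / √(ev (s n))) (fun n z => (g n z : ℂ)) 0 n z *
      Pool.Agent.TH294.RS.ww Complex.im (fun n => 1 / √(ev (r n))) (fun n z => (u n z : ℂ)) 0 n z))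
      atTop (𝓝 0)) :
    Tendsto (fun n => ∫ z, ψ z * (f n z * g n z * u n z) / z.im ^ 2) atTop (𝓝 0) := by
  have e : ∀ n, ∫ z, ((ψ z * (z.im ^ 2)⁻¹ : ℝ) : ℂ) *
      (Pool.Agent.TH294.RS.ww Complex.im (fun n => 1 / √(ev (t n))) (fun n z => (f n z : ℂ)) 0 n z *
      Pool.Agent.TH294.RS.ww Complex.im (fun n => 1 / √(ev (s n))) (fun n z => (g n z : ℂ)) 0 n z *
      Pool.Agent.TH294.RS.ww Complex.im (fun n => 1 / √(ev (r n))) (fun n z => (u n z : ℂ)) 0 n z)
      = ((∫ z, ψ z * (f n z * g n z * u n z) / z.im ^ 2 : ℝ) : ℂ) := by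
    intro n
    rw [← integral_complex_ofReal]
    congr 1; funext z
    show ((ψ z * (z.im ^ 2)⁻¹ : ℝ) : ℂ) * ((f n z : ℂ) * (g n z : ℂ) * (u n z : ℂ)) = _
    rw [div_eq_mul_inv]
    push_cast; ring
  simp only [e] at key
  have := (Complex.continuous_re.tendsto 0).comp key
  rw [zero_re] at this
  exact this

/-- the case of convergent ratios, `g` not faster than `f` -/
lemma tri {t s r : ℕ → ℝ} (ht : Tendsto t atTop atTop) (hs : Tendsto s atTop atTop)
    (hr : Tendsto r atTop atTop) {f g u : ℕ → ℂ → ℝ} (hf : ∀ n, Eig (t n) (f n))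
    (hg : ∀ n, Eig (s n) (g n)) (hu : ∀ n, Eig (r n) (u n)) (qf : QUE t f) (qg : QUE s g)
    (qu : QUE r u) {ρ0 τ0 : ℝ} (h0 : 0 < ρ0) (h1 : ρ0 ≤ 1)
    (h2 : Pool.Agent.J4H76.TP.F0 ρ0 (τ0 ^ 2) ≠ 0)
    (hl : Tendsto (fun n => s n / t n) atTop (𝓝 ρ0))
    (hl' : Tendsto (fun n => r n / t n) atTop (𝓝 τ0)) {ψ : ℂ → ℝ} (hψ : TF HH ψ) :
    Tendsto (fun n => ∫ z, ψ z * (f n z * g n z * u n z) / z.im ^ 2) atTop (𝓝 0) := by
  obtain ⟨S, E⟩ := sys ht hf qf
  obtain ⟨S', E'⟩ := sys hs hg qg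
  obtain ⟨S'', E''⟩ := sys hr hu qu
  exact conv t s r f g u ψ (Pool.Agent.J4H76.TP.main S S' S'' (fun z hz => hz) E E' h0 h1 h2
    (ratio ht hs hl) (ratio ht hr hl') (tf_mul hψ))

/-- the case of a third form of much larger frequency -/
lemma trii {t s r : ℕ → ℝ} (ht : Tendsto t atTop atTop) (hs : Tendsto s atTop atTop)
    (hr : Tendsto r atTop atTop) {f g u : ℕ → ℂ → ℝ} (hf : ∀ n, Eig (t n) (f n))
    (hg : ∀ n, Eig (s n) (g n)) (hu : ∀ n, Eig (r n) (u n)) (qf : QUE t f) (qg : QUE s g)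
    (qu : QUE r u) {ρ0 : ℝ} (h0 : 0 < ρ0)
    (hl : Tendsto (fun n => s n / t n) atTop (𝓝 ρ0))
    (hl' : Tendsto (fun n => t n / r n) atTop (𝓝 0)) {ψ : ℂ → ℝ} (hψ : TF HH ψ) :
    Tendsto (fun n => ∫ z, ψ z * (f n z * g n z * u n z) / z.im ^ 2) atTop (𝓝 0) := by
  obtain ⟨S, E⟩ := sys ht hf qf
  obtain ⟨S', E'⟩ := sys hs hg qg
  obtain ⟨S'', E''⟩ := sys hr hu qu
  exact conv t s r f g u ψ (Pool.Agent.J4H76.TP.maini S S' S'' (fun z hz => hz) E E' h0
    (ratio ht hs hl) (ratio hr ht hl') (tf_mul hψ))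

lemma QUE.sub {t : ℕ → ℝ} {f : ℕ → ℂ → ℝ} (h : QUE t f) {θ : ℕ → ℕ}
    (hθ : Tendsto θ atTop atTop) : QUE (fun n => t (θ n)) (fun n => f (θ n)) :=
  fun φ hφ k => (h φ hφ k).comp hθ

/-- all three parameters comparable -/
lemma comparable (t : Fin 3 → ℕ → ℝ) (f : Fin 3 → ℕ → ℂ → ℝ)
    (ht : ∀ i, Tendsto (t i) atTop atTop) (hf : ∀ i n, Eig (t i n) (f i n))
    (hq : ∀ i, QUE (t i) (f i)) (δ : ℝ) (hδ : 0 < δ)
    (hc : ∀ i j, ∀ᶠ n in atTop, δ * t i n ≤ t j n)
    (hd : ∀ i j k, i ≠ j → j ≠ k → i ≠ k → ∀ᶠ n in atTop, δ * t i n ≤ |t i n - t j n - t k n|)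
    (ψ : ℂ → ℝ) (hψ : TF HH ψ) :
    Tendsto (fun n => ∫ z, ψ z * (∏ i, f i n z) / z.im ^ 2) atTop (𝓝 0) := by
  refine tendsto_of_subseq_tendsto fun ns hns => ?_
  -- convergent ratios
  obtain ⟨x, hx⟩ : ∃ x : ℕ → (Fin 3 → ℝ), ∀ n i, x n i = t i (ns n) / t 0 (ns n) :=
    ⟨fun n i => t i (ns n) / t 0 (ns n), fun _ _ => rfl⟩
  have pos : ∀ i, ∀ᶠ n in atTop, 0 < t i (ns n) := fun i =>
    ((ht i).comp hns).eventually_gt_atTop 0
  have hK : IsCompact (Set.pi Set.univ (fun _ : Fin 3 => Set.Icc δ δ⁻¹)) :=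
    isCompact_univ_pi fun _ => isCompact_Icc
  have hmem : ∀ᶠ n in atTop, x n ∈ Set.pi Set.univ (fun _ : Fin 3 => Set.Icc δ δ⁻¹) := by
    have a1 : ∀ᶠ n in atTop, ∀ i, δ * t i (ns n) ≤ t 0 (ns n) :=
      eventually_all.2 fun i => hns.eventually (hc i 0)
    have a2 : ∀ᶠ n in atTop, ∀ i, δ * t 0 (ns n) ≤ t i (ns n) :=
      eventually_all.2 fun i => hns.eventually (hc 0 i)
    filter_upwards [a1, a2, pos 0] with n h1 h2 h3 i _
    rw [hx]
    constructor
    · rw [le_div_iff₀ h3]; exact h2 i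
    · rw [div_le_iff₀ h3, inv_mul_eq_div, le_div_iff₀ hδ, mul_comm]; exact h1 i
  obtain ⟨l, hl, ms, hms, hlim⟩ := hK.tendsto_subseq' hmem.frequently
  refine ⟨ms, ?_⟩
  obtain ⟨θ, hθ⟩ : ∃ θ : ℕ → ℕ, θ = fun n => ns (ms n) := ⟨_, rfl⟩
  have tθ : Tendsto θ atTop atTop := by rw [hθ]; exact hns.comp hms.tendsto_atTop
  have lpos : ∀ i, 0 < l i := fun i => lt_of_lt_of_le hδ (hl i (Set.mem_univ i)).1
  have lx : ∀ i, Tendsto (fun n => t i (θ n) / t 0 (θ n)) atTop (𝓝 (l i)) := by
    intro i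
    have := (tendsto_pi_nhds.1 hlim) i
    refine this.congr fun n => ?_
    rw [hθ]; exact hx _ _
  have tt : ∀ i, Tendsto (fun n => t i (θ n)) atTop atTop := fun i => (ht i).comp tθ
  have lr : ∀ i j, Tendsto (fun n => t i (θ n) / t j (θ n)) atTop (𝓝 (l i / l j)) := by
    intro i j
    refine ((lx i).div (lx j) (lpos j).ne').congr' ?_
    filter_upwards [(tt 0).eventually_gt_atTop 0, (tt j).eventually_gt_atTop 0] with n h1 h2
    show (t i (θ n) / t 0 (θ n)) / (t j (θ n) / t 0 (θ n)) = t i (θ n) / t j (θ n)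
    field_simp
  have ld : ∀ i j k, i ≠ j → j ≠ k → i ≠ k → l i ≠ l j + l k := by
    intro i j k h1 h2 h3 h4
    have b1 := ((lx i).sub (lx j)).sub (lx k)
    have b2 := b1.abs
    have b3 := (lx i).const_mul δ
    have b4 : δ * l i ≤ |l i - l j - l k| := by
      refine le_of_tendsto_of_tendsto b3 b2 ?_
      filter_upwards [tθ.eventually (hd i j k h1 h2 h3), (tt 0).eventually_gt_atTop 0] with n h5 h6
      have e1 : t i (θ n) / t 0 (θ n) - t j (θ n) / t 0 (θ n) - t k (θ n) / t 0 (θ n) =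
        (t i (θ n) - t j (θ n) - t k (θ n)) / t 0 (θ n) := by ring
      rw [e1, abs_div, abs_of_pos h6, ← mul_div_assoc]
      exact div_le_div_of_nonneg_right h5 h6.le
    rw [h4, show l j + l k - l j - l k = 0 by ring, abs_zero, ← h4] at b4
    have := mul_pos hδ (lpos i)
    linarith
  -- the ordered case
  have ord : ∀ i j k : Fin 3, i ≠ j → j ≠ k → i ≠ k → l k ≤ l j → l j ≤ l i →
      Tendsto (fun n => ∫ z, ψ z * (f j (θ n) z * f k (θ n) z * f i (θ n) z) / z.im ^ 2) atTop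
        (𝓝 0) := by
    intro i j k h1 h2 h3 h4 h5
    refine tri (tt j) (tt k) (tt i) (fun n => hf j _) (fun n => hf k _) (fun n => hf i _)
      ((hq j).sub tθ) ((hq k).sub tθ) ((hq i).sub tθ) (ρ0 := l k / l j) (τ0 := l i / l j)
      (div_pos (lpos k) (lpos j)) ((div_le_one (lpos j)).2 h4) ?_
      (lr k j) (lr i j) hψ
    refine Pool.Agent.J4H76.TP.F0_ne (div_pos (lpos k) (lpos j)) ((div_le_one (lpos j)).2 h4)
      ((one_le_div (lpos j)).2 h5) fun h6 => ?_
    apply ld i j k h1 h2 h3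
    have := (lpos j).ne'
    field_simp at h6
    exact h6
  have goal : ∀ i j k : Fin 3, i ≠ j → j ≠ k → i ≠ k → l k ≤ l j → l j ≤ l i →
      (∀ n z, f j (θ n) z * f k (θ n) z * f i (θ n) z = ∏ m, f m (θ n) z) →
      Tendsto (fun n => ∫ z, ψ z * (∏ m, f m (ns (ms n)) z) / z.im ^ 2) atTop (𝓝 0) := by
    intro i j k h1 h2 h3 h4 h5 h6
    have := ord i j k h1 h2 h3 h4 h5
    simp only [h6] at this
    rw [hθ] at this
    exact this
  rcases le_total (l 0) (l 1) with h01 | h01 <;> rcases le_total (l 1) (l 2) with h12 | h12 <;>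
  rcases le_total (l 0) (l 2) with h02 | h02
  · exact goal 2 1 0 (by decide) (by decide) (by decide) h01 h12 fun n z => by
      rw [Fin.prod_univ_three]; ring
  · exact goal 2 1 0 (by decide) (by decide) (by decide) h01 h12 fun n z => by
      rw [Fin.prod_univ_three]; ring
  · exact goal 1 2 0 (by decide) (by decide) (by decide) h02 h12 fun n z => by
      rw [Fin.prod_univ_three]; ring
  · exact goal 1 0 2 (by decide) (by decide) (by decide) h02 h01 fun n z => by
      rw [Fin.prod_univ_three]; ring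
  · exact goal 2 0 1 (by decide) (by decide) (by decide) h01 h02 fun n z => by
      rw [Fin.prod_univ_three]
  · exact goal 0 2 1 (by decide) (by decide) (by decide) h12 h02 fun n z => by
      rw [Fin.prod_univ_three]; ring
  · exact goal 0 1 2 (by decide) (by decide) (by decide) h12 h01 fun n z => by
      rw [Fin.prod_univ_three]; ring
  · exact goal 0 1 2 (by decide) (by decide) (by decide) h12 h01 fun n z => by
      rw [Fin.prod_univ_three]; ring

lemma prod3 : ∀ i j k : Fin 3, i ≠ j → j ≠ k → i ≠ k → ∀ x : Fin 3 → ℝ,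
    x i * x j * x k = ∏ m, x m := by
  intro i j k h1 h2 h3 x
  rw [Fin.prod_univ_three]
  fin_cases i <;> fin_cases j <;> fin_cases k <;>
    first
    | exact absurd rfl h1
    | exact absurd rfl h2
    | exact absurd rfl h3
    | (simp only [Fin.zero_eta, Fin.mk_one, Fin.reduceFinMk]; done)
    | (simp only [Fin.zero_eta, Fin.mk_one, Fin.reduceFinMk]; ring)

/-- one pair of convergent ratio -/
lemma two (t : Fin 3 → ℕ → ℝ) (f : Fin 3 → ℕ → ℂ → ℝ)
    (ht : ∀ i, Tendsto (t i) atTop atTop) (hf : ∀ i n, Eig (t i n) (f i n))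
    (hq : ∀ i, QUE (t i) (f i)) (δ : ℝ) (hδ : 0 < δ)
    (hd : ∀ i j k, i ≠ j → j ≠ k → i ≠ k → ∀ᶠ n in atTop, δ * t i n ≤ |t i n - t j n - t k n|)
    {i j k : Fin 3} (hij : i ≠ j) (hjk : j ≠ k) (hik : i ≠ k) {ρ0 : ℝ} (h0 : 0 < ρ0)
    (hl : Tendsto (fun n => t j n / t i n) atTop (𝓝 ρ0)) (ψ : ℂ → ℝ) (hψ : TF HH ψ) :
    ∃ ms : ℕ → ℕ,
      Tendsto (fun n => ∫ z, ψ z * (∏ m, f m (ms n) z) / z.im ^ 2) atTop (𝓝 0) := by
  have pos : ∀ m, ∀ᶠ n in atTop, 0 < t m n := fun m => (ht m).eventually_gt_atTop 0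
  by_cases hb : ∃ C : ℝ, ∃ᶠ n in atTop, t k n / t i n ≤ C
  · obtain ⟨C, hC⟩ := hb
    have fr : ∃ᶠ n in atTop, t k n / t i n ∈ Set.Icc 0 C := by
      refine (hC.and_eventually ((pos k).and (pos i))).mono fun n hn => ?_
      exact ⟨(div_pos hn.2.1 hn.2.2).le, hn.1⟩
    obtain ⟨l, hlm, ms, hms, hlim⟩ := isCompact_Icc.tendsto_subseq' fr
    have tm : Tendsto ms atTop atTop := hms.tendsto_atTop
    have tt : ∀ m, Tendsto (fun n => t m (ms n)) atTop atTop := fun m => (ht m).comp tm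
    have r1 : Tendsto (fun n => t j (ms n) / t i (ms n)) atTop (𝓝 ρ0) := hl.comp tm
    have r2 : Tendsto (fun n => t k (ms n) / t i (ms n)) atTop (𝓝 l) := hlim
    rcases hlm.1.eq_or_lt with l0 | l0
    · -- the third form is much slower
      rw [← l0] at r2
      have ne1 : ρ0 ≠ 1 := by
        intro h1
        have b1 : Tendsto (fun n => |1 - t j (ms n) / t i (ms n) - t k (ms n) / t i (ms n)|) atTop
            (𝓝 |1 - ρ0 - 0|) := ((tendsto_const_nhds.sub r1).sub r2).abs
        have b2 : δ ≤ |1 - ρ0 - 0| := by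
          refine ge_of_tendsto b1 ?_
          filter_upwards [tm.eventually (hd i j k hij hjk hik), tm.eventually (pos i)] with n h5 h6
          have e1 : 1 - t j (ms n) / t i (ms n) - t k (ms n) / t i (ms n) =
              (t i (ms n) - t j (ms n) - t k (ms n)) / t i (ms n) := by
            field_simp
          rw [e1, abs_div, abs_of_pos h6, le_div_iff₀ h6]
          exact h5
        rw [h1] at b2
        norm_num at b2
        linarith
      have F00 : ∀ r : ℝ, 0 < r → r < 1 → Pool.Agent.J4H76.TP.F0 r ((0 : ℝ) ^ 2) ≠ 0 := by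
        intro r hr0 hr1
        have e : Pool.Agent.J4H76.TP.F0 r ((0 : ℝ) ^ 2) = -((1 - r ^ 2) ^ 2 * (1 - r ^ 2) ^ 2) := by
          unfold Pool.Agent.J4H76.TP.F0; ring
        have h6 : 0 < 1 - r ^ 2 := by nlinarith
        rw [e]
        exact neg_ne_zero.2 (by positivity)
      refine ⟨ms, ?_⟩
      rcases lt_or_gt_of_ne ne1 with h1 | h1
      · have := tri (tt i) (tt j) (tt k) (fun n => hf i _) (fun n => hf j _) (fun n => hf k _)
          ((hq i).sub tm) ((hq j).sub tm) ((hq k).sub tm) h0 h1.le (F00 ρ0 h0 h1) r1 r2 hψ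
        refine this.congr fun n => ?_
        congr 1; funext z
        rw [prod3 i j k hij hjk hik (fun m => f m (ms n) z)]
      · have r3 : Tendsto (fun n => t i (ms n) / t j (ms n)) atTop (𝓝 ρ0⁻¹) :=
          (r1.inv₀ h0.ne').congr fun n => by rw [inv_div]
        have r4 : Tendsto (fun n => t k (ms n) / t j (ms n)) atTop (𝓝 0) := by
          have := r2.mul r3
          rw [zero_mul] at this
          refine this.congr' ?_
          filter_upwards [tm.eventually (pos i)] with n hn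
          field_simp
        have := tri (tt j) (tt i) (tt k) (fun n => hf j _) (fun n => hf i _) (fun n => hf k _)
          ((hq j).sub tm) ((hq i).sub tm) ((hq k).sub tm) (inv_pos.2 h0)
          (inv_le_one_of_one_le₀ h1.le)
          (F00 ρ0⁻¹ (inv_pos.2 h0) (inv_lt_one_of_one_lt₀ h1)) r3 r4 hψ
        refine this.congr fun n => ?_
        congr 1; funext z
        rw [prod3 j i k hij.symm hik hjk (fun m => f m (ms n) z)]
    · -- all comparable
      refine ⟨ms, ?_⟩
      -- limits of all ratios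
      have all : ∀ m : Fin 3, m = i ∨ m = j ∨ m = k := by
        have dec : ∀ i j k : Fin 3, i ≠ j → j ≠ k → i ≠ k → ∀ m : Fin 3,
            m = i ∨ m = j ∨ m = k := by decide
        exact dec i j k hij hjk hik
      have lm : ∀ m : Fin 3, ∃ x : ℝ, 0 < x ∧
          Tendsto (fun n => t m (ms n) / t i (ms n)) atTop (𝓝 x) := by
        intro m
        rcases all m with h | h | h
        · refine ⟨1, one_pos, ?_⟩
          subst h
          refine tendsto_const_nhds.congr' ?_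
          filter_upwards [tm.eventually (pos m)] with n hn
          rw [div_self hn.ne']
        · subst h; exact ⟨ρ0, h0, r1⟩
        · subst h; exact ⟨l, l0, r2⟩
      choose x x0 hx using lm
      have lr : ∀ a b, Tendsto (fun n => t a (ms n) / t b (ms n)) atTop (𝓝 (x a / x b)) := by
        intro a b
        refine ((hx a).div (hx b) (x0 b).ne').congr' ?_
        filter_upwards [tm.eventually (pos i), tm.eventually (pos b)] with n h1 h2
        show (t a (ms n) / t i (ms n)) / (t b (ms n) / t i (ms n)) = t a (ms n) / t b (ms n)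
        field_simp
      obtain ⟨δ', hδ', hδ1, hδ2⟩ : ∃ δ' : ℝ, 0 < δ' ∧ δ' ≤ δ ∧ ∀ a b, δ' < x b / x a := by
        obtain ⟨c, hc0, hc⟩ : ∃ c : ℝ, 0 < c ∧ ∀ p : Fin 3 × Fin 3, c ≤ x p.2 / x p.1 := by
          refine ⟨Finset.univ.inf' Finset.univ_nonempty
            (fun p : Fin 3 × Fin 3 => x p.2 / x p.1), ?_, fun p =>
              Finset.inf'_le _ (Finset.mem_univ p)⟩
          rw [Finset.lt_inf'_iff]
          intro p _
          exact div_pos (x0 _) (x0 _)
        refine ⟨min δ (c / 2), lt_min hδ (by positivity), min_le_left _ _, fun a b => ?_⟩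
        have := hc (a, b)
        calc min δ (c / 2) ≤ c / 2 := min_le_right _ _
          _ < c := by linarith
          _ ≤ _ := this
      refine comparable (fun m n => t m (ms n)) (fun m n => f m (ms n)) tt (fun m n => hf m _)
        (fun m => (hq m).sub tm) δ' hδ' (fun a b => ?_) (fun a b c h1 h2 h3 => ?_) ψ hψ
      · filter_upwards [(lr b a).eventually (lt_mem_nhds (hδ2 a b)), tm.eventually (pos a)]
          with n h1 h2
        exact ((lt_div_iff₀ h2).1 h1).le
      · filter_upwards [tm.eventually (hd a b c h1 h2 h3), tm.eventually (pos a)] with n h4 h5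
        exact (mul_le_mul_of_nonneg_right hδ1 h5.le).trans h4
  · -- the third form is much faster
    refine ⟨id, ?_⟩
    have y : Tendsto (fun n => t k n / t i n) atTop atTop := by
      rw [tendsto_atTop]
      intro C
      have h1 : ¬ ∃ᶠ n in atTop, t k n / t i n ≤ C := fun h => hb ⟨C, h⟩
      rw [not_frequently] at h1
      exact h1.mono fun n hn => (not_le.1 hn).le
    have y' : Tendsto (fun n => t i n / t k n) atTop (𝓝 0) :=
      (tendsto_inv_atTop_zero.comp y).congr fun n => by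
        simp only [Function.comp_apply]; rw [inv_div]
    have := trii (ht i) (ht j) (ht k) (fun n => hf i _) (fun n => hf j _) (fun n => hf k _)
      (hq i) (hq j) (hq k) h0 hl y' hψ
    refine this.congr fun n => ?_
    congr 1; funext z
    rw [prod3 i j k hij hjk hik (fun m => f m n z)]
    rfl

/-- **Result.** Let `f 0 n`, `f 1 n`, `f 2 n` be real eigenfunctions of the hyperbolic Laplacian on
the upper half plane, with spectral parameters `t 0 n, t 1 n, t 2 n → ∞`; they need not be distinct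
or orthogonal, and each of the three sequences satisfies microlocal quantum unique ergodicity.
Assume that, for some `δ > 0` and all large `n`, two of the three spectral parameters are
comparable (`δ t_i ≤ t_j` and `δ t_j ≤ t_i` for some `i ≠ j`, which may depend on `n`) and that
degenerate triangles are avoided: `δ t_i ≤ |t_i - t_j - t_k|` if `i`, `j`, `k` are distinct.
Then, for every test function `ψ`, `∫ ψ f₀ f₁ f₂ dμ → 0`. -/
theorem result (t : Fin 3 → ℕ → ℝ) (f : Fin 3 → ℕ → ℂ → ℝ)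
    (ht : ∀ i, Tendsto (t i) atTop atTop) (hf : ∀ i n, Eig (t i n) (f i n))
    (hq : ∀ i, QUE (t i) (f i)) (δ : ℝ) (hδ : 0 < δ)
    (hc : ∀ᶠ n in atTop, ∃ i j, i ≠ j ∧ δ * t i n ≤ t j n ∧ δ * t j n ≤ t i n)
    (hd : ∀ i j k, i ≠ j → j ≠ k → i ≠ k → ∀ᶠ n in atTop, δ * t i n ≤ |t i n - t j n - t k n|)
    (ψ : ℂ → ℝ) (hψ : TF HH ψ) :
    Tendsto (fun n => ∫ z, ψ z * (∏ i, f i n z) / z.im ^ 2) atTop (𝓝 0) := by
  refine tendsto_of_subseq_tendsto fun ns hns => ?_
  obtain ⟨p, hp⟩ : ∃ p : Fin 3 × Fin 3, ∃ᶠ n in atTop, p.1 ≠ p.2 ∧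
      δ * t p.1 (ns n) ≤ t p.2 (ns n) ∧ δ * t p.2 (ns n) ≤ t p.1 (ns n) := by
    by_contra hcon
    push Not at hcon
    have h1 : ∀ p : Fin 3 × Fin 3, ∀ᶠ n in atTop, ¬ (p.1 ≠ p.2 ∧
      δ * t p.1 (ns n) ≤ t p.2 (ns n) ∧ δ * t p.2 (ns n) ≤ t p.1 (ns n)) := fun p => by
      have := hcon p
      refine this.mono fun n hn h => ?_
      have h2 := hn h.1 h.2.1
      linarith [h.2.2]
    obtain ⟨n, hn1, hn2⟩ := ((eventually_all.2 h1).and (hns.eventually hc)).exists
    obtain ⟨i, j, hij⟩ := hn2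
    exact hn1 (i, j) hij
  obtain ⟨i, j⟩ := p
  simp only at hp
  have hij : i ≠ j := by
    obtain ⟨n, hn⟩ := hp.exists
    exact hn.1
  obtain ⟨k, hik, hjk⟩ : ∃ k : Fin 3, i ≠ k ∧ j ≠ k := by
    have : ∀ i j : Fin 3, ∃ k : Fin 3, i ≠ k ∧ j ≠ k := by decide
    exact this i j
  have pos : ∀ m, ∀ᶠ n in atTop, 0 < t m (ns n) := fun m =>
    ((ht m).comp hns).eventually_gt_atTop 0
  have fr : ∃ᶠ n in atTop, t j (ns n) / t i (ns n) ∈ Set.Icc δ δ⁻¹ := by
    refine (hp.and_eventually (pos i)).mono fun n hn => ?_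
    obtain ⟨⟨-, h1, h2⟩, h3⟩ := hn
    constructor
    · rw [le_div_iff₀ h3]; exact h1
    · rw [div_le_iff₀ h3, inv_mul_eq_div, le_div_iff₀ hδ, mul_comm]; exact h2
  obtain ⟨l, hlm, ms, hms, hlim⟩ := isCompact_Icc.tendsto_subseq' fr
  have tθ : Tendsto (fun n => ns (ms n)) atTop atTop := hns.comp hms.tendsto_atTop
  obtain ⟨ms', h⟩ := two (fun m n => t m (ns (ms n))) (fun m n => f m (ns (ms n)))
    (fun m => (ht m).comp tθ) (fun m n => hf m _) (fun m => (hq m).sub tθ) δ hδ
    (fun a b c h1 h2 h3 => tθ.eventually (hd a b c h1 h2 h3)) hij hjk hik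
    (lt_of_lt_of_le hδ hlm.1) hlim ψ hψ
  exact ⟨fun n => ms (ms' n), h⟩

end Pool.Agent.Results.MP_a28cf0_nt.TripleMoments
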